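import Mathlib

/-!
Linear compactness of a power `ι → M` of an artinian module, with respect to cosets of
submodules determined by finitely many coordinates.
-/

set_option autoImplicit false

namespace Pool.Agent.H581R3

variable {E M : Type*} [Ring E] [AddCommGroup M] [Module E M] {ι : Type*}

/-- A submodule of `ι → M` determined by finitely many coordinates. -/
def FD (V : Submodule E (ι → M)) : Prop :=
  ∃ J : Finset ι, ∀ x : ι → M, (∀ j ∈ J, x j = 0) → x ∈ V

/-- The coset `x + V`. -/
def coset (x : ι → M) (V : Submodule E (ι → M)) : Set (ι → M) := {y | y - x ∈ V}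

variable (E) in
/-- A coset of a finitely determined submodule. -/
def IsFC (C : Set (ι → M)) : Prop :=
  ∃ (x : ι → M) (V : Submodule E (ι → M)), FD V ∧ C = coset x V

theorem FD.inf {V W : Submodule E (ι → M)} (hV : FD V) (hW : FD W) : FD (V ⊓ W) := by
  classical
  obtain ⟨J, hJ⟩ := hV
  obtain ⟨K, hK⟩ := hW
  exact ⟨J ∪ K, fun x hx => ⟨hJ x fun j hj => hx j (Finset.mem_union_left _ hj),
    hK x fun j hj => hx j (Finset.mem_union_right _ hj)⟩⟩

theorem coset_self (x : ι → M) (V : Submodule E (ι → M)) : x ∈ coset x V := by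
  simp [coset]

theorem coset_inter {x y z : ι → M} {V W : Submodule E (ι → M)} (h1 : z ∈ coset x V)
    (h2 : z ∈ coset y W) : coset x V ∩ coset y W = coset z (V ⊓ W) := by
  ext u
  simp only [coset, Set.mem_inter_iff, Set.mem_ofPred_eq, Submodule.mem_inf] at *
  constructor
  · rintro ⟨h3, h4⟩
    refine ⟨?_, ?_⟩
    · have := V.sub_mem h3 h1
      simpa using this
    · have := W.sub_mem h4 h2
      simpa using this
  · rintro ⟨h3, h4⟩
    refine ⟨?_, ?_⟩
    · have := V.add_mem h3 h1
      simpa using this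
    · have := W.add_mem h4 h2
      simpa using this

/-- A nonempty finite intersection of finitely determined cosets is one. -/
theorem isFC_sInter (F : Finset (Set (ι → M))) (hF : ∀ C ∈ F, IsFC E C)
    (hne : (⋂₀ (F : Set (Set (ι → M)))).Nonempty) : IsFC E (⋂₀ (F : Set (Set (ι → M)))) := by
  classical
  induction F using Finset.induction_on with
  | empty =>
    refine ⟨0, ⊤, ⟨∅, fun x _ => trivial⟩, ?_⟩
    ext u
    simp [coset]
  | insert C F hC ih =>
    rw [Finset.coe_insert, Set.sInter_insert] at hne ⊢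
    obtain ⟨z, hz1, hz2⟩ := hne
    obtain ⟨x, V, hV, hx⟩ := hF C (Finset.mem_insert_self _ _)
    obtain ⟨y, W, hW, hy⟩ := ih (fun D hD => hF D (Finset.mem_insert_of_mem hD)) ⟨z, hz2⟩
    rw [hx] at hz1
    rw [hy] at hz2
    rw [hx, hy]
    exact ⟨z, V ⊓ W, hV.inf hW, coset_inter hz1 hz2⟩

theorem coset_le {x y : ι → M} {V W : Submodule E (ι → M)} (h : coset x V ⊆ coset y W) :
    V ≤ W := by
  intro v hv
  have h1 : x + v ∈ coset y W := h (by simpa [coset] using hv)
  have h2 : x ∈ coset y W := h (coset_self x V)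
  simp only [coset, Set.mem_ofPred_eq] at h1 h2
  have := W.sub_mem h1 h2
  simpa using this

/-- Linear compactness. -/
theorem linear_compact [IsArtinian E M] (𝓒 : Set (Set (ι → M))) (h𝓒 : ∀ C ∈ 𝓒, IsFC E C)
    (fip : ∀ F : Finset (Set (ι → M)), (F : Set (Set (ι → M))) ⊆ 𝓒 →
      (⋂₀ (F : Set (Set (ι → M)))).Nonempty) : (⋂₀ 𝓒).Nonempty := by
  classical
  let 𝓢 : Set (Set (Set (ι → M))) := {𝓕 | (∀ C ∈ 𝓕, IsFC E C) ∧
    ∀ F : Finset (Set (ι → M)), (F : Set (Set (ι → M))) ⊆ 𝓕 →
      (⋂₀ (F : Set (Set (ι → M)))).Nonempty}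
  obtain ⟨𝓕, h𝓕1, h𝓕2⟩ := zorn_subset_nonempty 𝓢 (by
    intro c hc hchain hne
    refine ⟨⋃₀ c, ⟨?_, ?_⟩, fun s hs => Set.subset_sUnion_of_mem hs⟩
    · rintro C ⟨𝓖, h𝓖, hC⟩
      exact (hc h𝓖).1 C hC
    · intro F hF
      obtain ⟨𝓖, h𝓖, hF𝓖⟩ := hchain.directedOn.exists_mem_subset_of_finset_subset_biUnion
        (f := fun s => s) hne (s := F) (by rwa [← Set.sUnion_eq_biUnion])
      exact (hc h𝓖).2 F hF𝓖) 𝓒 ⟨h𝓒, fip⟩
  obtain ⟨h𝓕3, h𝓕4⟩ := h𝓕2
  -- minimal projections
  have key : ∀ i : ι, ∃ m : M, {y : ι → M | y i = m} ∈ 𝓕 := by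
    intro i
    let A : Set (Submodule E M) := {U | ∃ (F : Finset (Set (ι → M))) (x : ι → M)
      (V : Submodule E (ι → M)), (F : Set (Set (ι → M))) ⊆ 𝓕 ∧
      ⋂₀ (F : Set (Set (ι → M))) = coset x V ∧ U = V.map (LinearMap.proj i)}
    have hA : A.Nonempty := by
      obtain ⟨x, V, -, hx⟩ := isFC_sInter (E := E) (∅ : Finset (Set (ι → M))) (by simp) (by simp)
      exact ⟨_, ∅, x, V, by simp, hx, rfl⟩
    obtain ⟨U, ⟨F, x, V, hF, hx, hU⟩, hmin⟩ := WellFounded.has_min
      (wellFounded_lt (α := Submodule E M)) A hA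
    refine ⟨x i, ?_⟩
    have hmem : insert {y : ι → M | y i = x i} 𝓕 ∈ 𝓢 := by
      refine ⟨?_, ?_⟩
      · intro C hC
        rcases hC with rfl | hC
        · refine ⟨x, LinearMap.ker (LinearMap.proj i : (ι → M) →ₗ[E] M),
            ⟨{i}, fun z hz => by simpa using hz⟩, ?_⟩
          ext y
          simp [coset, sub_eq_zero]
        · exact h𝓕3.1 C hC
      · intro G hG
        let G' := G.erase {y : ι → M | y i = x i}
        have hG' : (G' : Set (Set (ι → M))) ⊆ 𝓕 := by
          intro C hC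
          rw [Finset.mem_coe, Finset.mem_erase] at hC
          exact (hG hC.2).resolve_left hC.1
        have hFG : ((F ∪ G' : Finset (Set (ι → M))) : Set (Set (ι → M))) ⊆ 𝓕 := by
          rw [Finset.coe_union]
          exact Set.union_subset hF hG'
        have hne := h𝓕3.2 _ hFG
        obtain ⟨x', V', -, hx'⟩ := isFC_sInter (E := E) (F ∪ G') (fun C hC => h𝓕3.1 C (hFG hC)) hne
        have hsub : coset x' V' ⊆ coset x V := by
          rw [← hx', ← hx]
          apply Set.sInter_subset_sInter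
          rw [Finset.coe_union]
          exact Set.subset_union_left
        have hVV := coset_le hsub
        have hle : V'.map (LinearMap.proj i) ≤ V.map (LinearMap.proj i) :=
          Submodule.map_mono hVV
        have heq : V'.map (LinearMap.proj i) = V.map (LinearMap.proj i) := by
          by_contra hne'
          exact hmin _ ⟨_, x', V', hFG, hx', rfl⟩ (hU ▸ lt_of_le_of_ne hle hne')
        have hxx : x' - x ∈ V := hsub (coset_self x' V')
        have : (x' - x) i ∈ V'.map (LinearMap.proj i : (ι → M) →ₗ[E] M) := by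
          rw [heq]
          exact ⟨x' - x, hxx, rfl⟩
        obtain ⟨v, hv, hvi⟩ := this
        refine ⟨x' - v, ?_⟩
        rintro C hC
        by_cases hCe : C = {y : ι → M | y i = x i}
        · rw [hCe]
          simp only [LinearMap.coe_proj, Function.eval, Pi.sub_apply] at hvi
          simp [hvi]
        · have h1 : C ∈ ((F ∪ G' : Finset (Set (ι → M))) : Set (Set (ι → M))) := by
            rw [Finset.coe_union]
            right
            rw [Finset.mem_coe, Finset.mem_erase]
            exact ⟨hCe, hC⟩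
          have h2 : x' - v ∈ ⋂₀ ((F ∪ G' : Finset (Set (ι → M))) : Set (Set (ι → M))) := by
            rw [hx']
            simp only [coset, Set.mem_ofPred_eq]
            have := V'.neg_mem hv
            simpa using this
          exact h2 C h1
    exact h𝓕4 hmem (Set.subset_insert _ _) (Set.mem_insert _ _)
  choose m hm using key
  refine ⟨m, fun C hC => ?_⟩
  have hC' := h𝓕1 hC
  obtain ⟨x, V, ⟨J, hJ⟩, hx⟩ := h𝓕3.1 C hC'
  let F : Finset (Set (ι → M)) := insert C (J.image fun j => {y : ι → M | y j = m j})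
  have hF : (F : Set (Set (ι → M))) ⊆ 𝓕 := by
    intro D hD
    simp only [F, Finset.coe_insert, Finset.coe_image] at hD
    rcases hD with rfl | ⟨j, -, rfl⟩
    · exact hC'
    · exact hm j
  obtain ⟨y, hy⟩ := h𝓕3.2 F hF
  have hyC : y ∈ C := hy C (by simp [F])
  have hyJ : ∀ j ∈ J, y j = m j := by
    intro j hj
    exact hy {y : ι → M | y j = m j} (by
      simp only [F, Finset.coe_insert, Finset.coe_image]
      right
      exact ⟨j, hj, rfl⟩)
  rw [hx] at hyC ⊢
  simp only [coset, Set.mem_ofPred_eq] at hyC ⊢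
  have h1 : m - y ∈ V := hJ _ fun j hj => by simp [hyJ j hj]
  have := V.add_mem h1 hyC
  simpa using this

end Pool.Agent.H581R3
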