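import Mathlib
import Pool.Agent.H740R3.AQStmts

set_option autoImplicit false
set_option synthInstance.maxHeartbeats 400000
set_option linter.unusedSectionVars false

/-! TaskSpec of project H740-AQ (owner helper740): the exponential of a quasinilpotent operator has
spectrum equal to one point. -/

open Filter Topology Nat

namespace Pool.Agent.H581R3.AQSpec

open Pool.Agent.H740R3.AQ

section gen

variable {R : Type} [NormedRing R] [NormedAlgebra ℂ R] [CompleteSpace R] [NormOneClass R]

theorem exp_sub_one (A : R) : ∃ g : R, Commute A g ∧ NormedSpace.exp A - 1 = A * g := by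
  have hs : Summable fun n : ℕ => ((n + 1)! : ℂ)⁻¹ • A ^ n := by
    have h1 := NormedSpace.norm_expSeries_summable' (𝕂 := ℂ) A
    refine Summable.of_norm (h1.of_nonneg_of_le (fun n => norm_nonneg _) (fun n => ?_))
    rw [norm_smul, norm_smul]
    refine mul_le_mul_of_nonneg_right ?_ (norm_nonneg _)
    rw [norm_inv, norm_inv, Complex.norm_natCast, Complex.norm_natCast]
    have h2 : (n ! : ℝ) ≤ ((n + 1)! : ℝ) := by exact_mod_cast Nat.factorial_le (Nat.le_succ n)
    have h3 : (0 : ℝ) < (n ! : ℝ) := by exact_mod_cast Nat.factorial_pos n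
    exact inv_anti₀ h3 h2
  refine ⟨∑' n : ℕ, ((n + 1)! : ℂ)⁻¹ • A ^ n, ?_, ?_⟩
  · show A * _ = _ * A
    rw [← hs.tsum_mul_left, ← hs.tsum_mul_right]
    refine tsum_congr fun n => ?_
    rw [mul_smul_comm, smul_mul_assoc, (Commute.self_pow A n).eq]
  · have h1 := NormedSpace.exp_series_hasSum_exp' (𝕂 := ℂ) A
    have h2 := (hasSum_nat_add_iff' 1).2 h1
    have h3 := (hs.hasSum).mul_left A
    have e1 : NormedSpace.exp A - ∑ i ∈ Finset.range 1, ((i ! : ℂ))⁻¹ • A ^ i =
        NormedSpace.exp A - 1 := by simp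
    rw [e1] at h2
    have e2 : (fun n : ℕ => ((n + 1)! : ℂ)⁻¹ • A ^ (n + 1)) =
        fun n : ℕ => A * (((n + 1)! : ℂ)⁻¹ • A ^ n) := by
      funext n
      rw [mul_smul_comm, ← _root_.pow_succ']
    rw [e2] at h2
    exact h2.unique h3

theorem spec_exp [Nontrivial R] (A : R) (h : ∀ η : ℝ, 0 < η → ∃ m : ℕ, 1 ≤ m ∧ ‖A ^ m‖ ≤ η ^ m) :
    spectrum ℂ (NormedSpace.exp A) = {1} := by
  obtain ⟨g, hg, he⟩ := exp_sub_one A
  have key : spectrum ℂ (NormedSpace.exp A - 1) = {0} := by
    apply Set.Subset.antisymm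
    · intro z hz
      rw [Set.mem_singleton_iff]
      by_contra hne
      have hz0 : 0 < ‖z‖ := norm_pos_iff.2 hne
      have hg0 : 0 < ‖g‖ + 1 := by positivity
      obtain ⟨m, hm, hA⟩ := h (‖z‖ / (2 * (‖g‖ + 1))) (by positivity)
      have h1 := spectrum.pow_mem_pow (NormedSpace.exp A - 1) m hz
      have h2 := spectrum.norm_le_norm_of_mem h1
      rw [he, hg.mul_pow, norm_pow] at h2
      have h3 : ‖A ^ m * g ^ m‖ ≤ (‖z‖ / 2) ^ m := by
        calc ‖A ^ m * g ^ m‖ ≤ ‖A ^ m‖ * ‖g ^ m‖ := norm_mul_le _ _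
          _ ≤ (‖z‖ / (2 * (‖g‖ + 1))) ^ m * (‖g‖ + 1) ^ m := by
              refine mul_le_mul hA ?_ (norm_nonneg _) (by positivity)
              refine (norm_pow_le g m).trans ?_
              exact pow_le_pow_left₀ (norm_nonneg _) (by linarith) m
          _ = (‖z‖ / 2) ^ m := by
              rw [← mul_pow]
              congr 1
              field_simp
      have h4 : (‖z‖ / 2) ^ m < ‖z‖ ^ m :=
        pow_lt_pow_left₀ (by linarith) (by positivity) (by omega)
      linarith
    · obtain ⟨z, hz⟩ := spectrum.nonempty (NormedSpace.exp A - 1)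
      have hsub : spectrum ℂ (NormedSpace.exp A - 1) ⊆ {0} := by
        intro z hz
        rw [Set.mem_singleton_iff]
        by_contra hne
        have hz0 : 0 < ‖z‖ := norm_pos_iff.2 hne
        have hg0 : 0 < ‖g‖ + 1 := by positivity
        obtain ⟨m, hm, hA⟩ := h (‖z‖ / (2 * (‖g‖ + 1))) (by positivity)
        have h1 := spectrum.pow_mem_pow (NormedSpace.exp A - 1) m hz
        have h2 := spectrum.norm_le_norm_of_mem h1
        rw [he, hg.mul_pow, norm_pow] at h2
        have h3 : ‖A ^ m * g ^ m‖ ≤ (‖z‖ / 2) ^ m := by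
          calc ‖A ^ m * g ^ m‖ ≤ ‖A ^ m‖ * ‖g ^ m‖ := norm_mul_le _ _
            _ ≤ (‖z‖ / (2 * (‖g‖ + 1))) ^ m * (‖g‖ + 1) ^ m := by
                refine mul_le_mul hA ?_ (norm_nonneg _) (by positivity)
                refine (norm_pow_le g m).trans ?_
                exact pow_le_pow_left₀ (norm_nonneg _) (by linarith) m
            _ = (‖z‖ / 2) ^ m := by
                rw [← mul_pow]
                congr 1
                field_simp
        have h4 : (‖z‖ / 2) ^ m < ‖z‖ ^ m :=
          pow_lt_pow_left₀ (by linarith) (by positivity) (by omega)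
        linarith
      have hz' : z = 0 := hsub hz
      rw [Set.singleton_subset_iff]
      rwa [hz'] at hz
  have h5 := spectrum.add_singleton_eq (R := ℂ) (NormedSpace.exp A - 1) 1
  rw [key, map_one, sub_add_cancel] at h5
  rw [← h5]
  simp

end gen

theorem taskSpec : TaskSpec := by
  intro A hA
  have : Nontrivial H := ⟨⟨e 0, 0, fun h => by
    have h1 := norm_e 0
    rw [h, norm_zero] at h1
    exact zero_ne_one h1⟩⟩
  exact spec_exp A hA

end Pool.Agent.H581R3.AQSpec
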