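import Mathlib
import Pool.Agent.Helper187.CC.Stmts

set_option autoImplicit false

/-! TaskFour of project H187-CYCLE (owner helper187). -/

open Finset

namespace Pool.Agent.H581R3.CCFour

open H187CC

variable {A : Type}

theorem proper_iff (w : List A) : Proper w ↔ w.IsChain (· ≠ ·) := by
  induction w with
  | nil => exact ⟨fun _ => List.IsChain.nil, fun _ => trivial⟩
  | cons a w ih =>
    cases w with
    | nil => exact ⟨fun _ => List.IsChain.singleton _, fun _ => trivial⟩
    | cons b w =>
      rw [List.isChain_cons_cons, ← ih]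
      rfl

theorem proper_append (u w : List A) : Proper (u ++ w) ↔
    Proper u ∧ Proper w ∧ ∀ x ∈ u.getLast?, ∀ y ∈ w.head?, x ≠ y := by
  rw [proper_iff, proper_iff, proper_iff, List.isChain_append]

theorem proper_cons (a : A) (w : List A) : Proper (a :: w) ↔ (∀ y ∈ w.head?, a ≠ y) ∧ Proper w := by
  rw [proper_iff, proper_iff, List.isChain_cons]

theorem not_proper_dbl (x y : List A) (c : A) : ¬ Proper (x ++ c :: c :: y) := by
  rw [proper_append]
  rintro ⟨_, h, _⟩
  exact h.1 rfl

/-- deletions in a word with a double letter -/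
theorem del_dbl (f : List A → ℝ) (n : ℕ)
    (hf : ∀ (x y : List A) (c : A), (x ++ c :: c :: y).length = n → f (x ++ c :: c :: y) = 0)
    (x y : List A) (c : A) (hl : (x ++ c :: y).length = n) :
    del 1 f (x ++ c :: c :: y) = 2 * f (x ++ c :: y) := by
  have h0 : ∀ w : List A, del 1 (fun _ => (0 : ℝ)) w = 0 := del_zero 1
  rw [del_append, del_cons, del_cons]
  have e1 : del 1 (fun u' => f (u' ++ c :: c :: y)) x = 0 := by
    rw [← h0 x]
    refine del_congr 1 _ _ x fun v hv => hf v y c ?_
    simp only [List.length_append, List.length_cons] at hl ⊢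
    omega
  have e2 : del 1 (fun v => f (x ++ c :: c :: v)) y = 0 := by
    rw [← h0 y]
    refine del_congr 1 _ _ y fun v hv => hf x v c ?_
    simp only [List.length_append, List.length_cons] at hl ⊢
    omega
  rw [e1]
  show 1 ^ _ * 0 + (1 ^ _ * f (x ++ c :: y) + (1 ^ _ * f (x ++ c :: y) +
    del 1 (fun v => f (x ++ c :: c :: v)) y)) = _
  rw [e2]
  ring

theorem del_sum {ι : Type} (s : Finset ι) (G : ι → List A → ℝ) (w : List A) :
    del 1 (fun v => ∑ a ∈ s, G a v) w = ∑ a ∈ s, del 1 (G a) w := by
  induction w generalizing G with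
  | nil => simp
  | cons b w ih =>
    rw [del_cons, ih (fun a v => G a (b :: v))]
    simp only [del_cons]
    rw [Finset.sum_add_distrib, Finset.mul_sum]

open Classical in
noncomputable def PN : ℕ → List (Fin 4) → ℝ
  | 0, _ => 1
  | n + 1, w => if Proper w then 1 / (2 * ((n : ℝ) + 2)) * del 1 (PN n) w else 0

noncomputable def P (w : List (Fin 4)) : ℝ := PN w.length w

theorem P_nil : P [] = 1 := rfl

theorem P_improper (w : List (Fin 4)) (h : ¬ Proper w) : P w = 0 := by
  cases w with
  | nil => exact absurd trivial h
  | cons a w =>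
    show PN (w.length + 1) (a :: w) = 0
    rw [PN, if_neg h]

theorem P_rec (w : List (Fin 4)) (h : Proper w) (hw : w ≠ []) :
    2 * ((w.length : ℝ) + 1) * P w = del 1 P w := by
  cases w with
  | nil => exact absurd rfl hw
  | cons a w =>
    have h1 : del 1 (PN w.length) (a :: w) = del 1 P (a :: w) := by
      refine del_congr 1 _ _ _ fun v hv => ?_
      have : v.length = w.length := by simpa using hv
      rw [P, this]
    have h2 : P (a :: w) = 1 / (2 * ((w.length : ℝ) + 2)) * del 1 P (a :: w) := by
      rw [← h1]
      show PN (w.length + 1) (a :: w) = _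
      rw [PN, if_pos h]
    rw [h2, List.length_cons]
    push_cast
    have : (w.length : ℝ) + 2 ≠ 0 := by positivity
    field_simp
    ring

theorem P_nonneg (w : List (Fin 4)) : 0 ≤ P w := by
  have : ∀ n (w : List (Fin 4)), 0 ≤ PN n w := by
    intro n
    induction n with
    | zero => intro w; unfold PN; norm_num
    | succ n ih =>
      intro w
      unfold PN
      split_ifs
      · exact mul_nonneg (by positivity) (del_nonneg 1 zero_le_one _ _ ih)
      · exact le_refl _
  exact this _ _

open Classical in
/-- the deletion identity -/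
theorem P_star (u w : List (Fin 4)) (hu : Proper u) (hw : Proper w) (c : Fin 4) :
    del 1 P (u ++ c :: w) = 2 * (((u ++ c :: w).length : ℝ) + 1) * P (u ++ c :: w) +
      2 * ((if u.getLast? = some c then 1 else 0) + (if w.head? = some c then 1 else 0)) *
        P (u ++ w) := by
  have hz : ∀ (x y : List (Fin 4)) (d : Fin 4),
      del 1 P (x ++ d :: d :: y) = 2 * P (x ++ d :: y) := fun x y d =>
    del_dbl P (x ++ d :: y).length (fun x y c _ => P_improper _ (not_proper_dbl x y c)) x y d rfl
  by_cases h1 : u.getLast? = some c
  · obtain ⟨x, rfl⟩ := List.getLast?_eq_some_iff.1 h1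
    have e0 : ¬ Proper (x ++ [c] ++ c :: w) := by
      simpa using not_proper_dbl x w c
    rw [P_improper _ e0, if_pos h1]
    have e1 : x ++ [c] ++ c :: w = x ++ c :: c :: w := by simp
    have e2 : x ++ [c] ++ w = x ++ c :: w := by simp
    rw [e1, e2, hz]
    by_cases h2 : w.head? = some c
    · obtain ⟨y, rfl⟩ : ∃ y, w = c :: y := by
        cases w with
        | nil => simp at h2
        | cons b y => simp at h2; exact ⟨y, by rw [h2]⟩
      rw [P_improper _ (not_proper_dbl x y c)]
      ring
    · rw [if_neg h2]
      ring
  · rw [if_neg h1]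
    by_cases h2 : w.head? = some c
    · obtain ⟨y, rfl⟩ : ∃ y, w = c :: y := by
        cases w with
        | nil => simp at h2
        | cons b y => simp at h2; exact ⟨y, by rw [h2]⟩
      rw [if_pos h2, P_improper _ (not_proper_dbl u y c), hz]
      ring
    · rw [if_neg h2]
      have hp : Proper (u ++ c :: w) := by
        rw [proper_append]
        refine ⟨hu, ?_, ?_⟩
        · rw [proper_cons]
          refine ⟨?_, hw⟩
          intro y hy hcy
          apply h2
          rw [hcy]
          exact hy
        · intro x hx y hy hxy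
          simp only [List.head?_cons, Option.mem_def, Option.some.injEq] at hy
          apply h1
          rw [hy, ← hxy]
          exact hx
      rw [← P_rec _ hp (by simp)]
      ring

theorem sum_ind (o : Option (Fin 4)) [DecidableEq (Option (Fin 4))] :
    ∑ c : Fin 4, (if o = some c then (1 : ℝ) else 0) = if o = none then 0 else 1 := by
  cases o with
  | none => simp
  | some a => simp

theorem P_fac (n : ℕ) : ∀ u w : List (Fin 4), u.length + w.length = n →
    ∑ c : Fin 4, P (u ++ c :: w) = P u * P w := by
  classical
  induction n using Nat.strong_induction_on with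
  | _ n ih =>
    intro u w hn
    by_cases hu : Proper u
    swap
    · rw [P_improper u hu, zero_mul]
      refine Finset.sum_eq_zero fun c _ => P_improper _ fun h => hu ((proper_append _ _).1 h).1
    by_cases hw : Proper w
    swap
    · rw [P_improper w hw, mul_zero]
      refine Finset.sum_eq_zero fun c _ => P_improper _ fun h => hw ?_
      exact Proper_tail ((proper_append _ _).1 h).2.1
    have hlen : ∀ c : Fin 4, (((u ++ c :: w).length : ℕ) : ℝ) = (n : ℝ) + 1 := by
      intro c
      rw [List.length_append, List.length_cons, ← hn]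
      push_cast
      ring
    have key : ∑ c : Fin 4, del 1 P (u ++ c :: w) =
        2 * ((n : ℝ) + 2) * ∑ c : Fin 4, P (u ++ c :: w) +
        2 * ((if u.getLast? = none then 0 else 1) + (if w.head? = none then 0 else 1)) *
          P (u ++ w) := by
      rw [Finset.sum_congr rfl fun c _ => P_star u w hu hw c, Finset.sum_add_distrib,
        Finset.mul_sum]
      congr 1
      · refine Finset.sum_congr rfl fun c _ => ?_
        rw [hlen c]
        ring
      · rw [← Finset.sum_mul, ← Finset.mul_sum, Finset.sum_add_distrib, sum_ind, sum_ind]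
    have key2 : ∑ c : Fin 4, del 1 P (u ++ c :: w) =
        del 1 P u * P w + 4 * P (u ++ w) + P u * del 1 P w := by
      have e1 : ∀ c : Fin 4, del 1 P (u ++ c :: w) =
          del 1 (fun u' => P (u' ++ c :: w)) u + (P (u ++ w) + del 1 (fun v => P (u ++ c :: v)) w) := by
        intro c
        rw [del_append, del_cons]
        simp
      rw [Finset.sum_congr rfl fun c _ => e1 c, Finset.sum_add_distrib, Finset.sum_add_distrib]
      have e2 : ∑ c : Fin 4, del 1 (fun u' => P (u' ++ c :: w)) u = del 1 P u * P w := by
        rw [← del_sum]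
        have : del 1 P u * P w = del 1 (fun v => P w * P v) u := by rw [del_mul]; ring
        rw [this]
        refine del_congr 1 _ _ u fun v hv => ?_
        rw [ih (v.length + w.length) (by omega) v w rfl]
        ring
      have e3 : ∑ c : Fin 4, del 1 (fun v => P (u ++ c :: v)) w = P u * del 1 P w := by
        rw [← del_sum, ← del_mul]
        refine del_congr 1 _ _ w fun v hv => ?_
        exact ih (u.length + v.length) (by omega) u v rfl
      rw [e2, e3]
      simp only [Finset.sum_const, Finset.card_univ, Fintype.card_fin, nsmul_eq_mul]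
      push_cast
      ring
    rw [key2] at key
    have hn2 : (n : ℝ) + 2 ≠ 0 := by positivity
    have hfin : (2 * ((n : ℝ) + 2)) * ∑ c : Fin 4, P (u ++ c :: w) =
        (2 * ((n : ℝ) + 2)) * (P u * P w) := by
      have hnr : (n : ℝ) = (u.length : ℝ) + (w.length : ℝ) := by exact_mod_cast hn.symm
      cases u with
      | nil =>
        cases w with
        | nil =>
          simp only [List.getLast?_nil, List.head?_nil, if_true, del_nil, List.append_nil,
            P_nil] at key hnr ⊢
          simp only [List.length_nil, Nat.cast_zero, add_zero] at hnr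
          rw [hnr] at key ⊢
          linarith
        | cons b w =>
          rw [← P_rec (b :: w) hw (by simp)] at key
          simp only [List.getLast?_nil, List.head?_cons, if_true, del_nil, List.nil_append,
            P_nil, reduceCtorEq, if_false] at key hnr ⊢
          simp only [List.length_nil, Nat.cast_zero, zero_add] at hnr
          rw [← hnr] at key
          linarith
      | cons a u =>
        cases w with
        | nil =>
          rw [← P_rec (a :: u) hu (by simp)] at key
          have e5 : (a :: u).getLast? ≠ none := by simp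
          rw [if_neg e5] at key
          simp only [List.head?_nil, if_true, del_nil, List.append_nil,
            P_nil] at key hnr ⊢
          simp only [List.length_nil, Nat.cast_zero, add_zero] at hnr
          rw [← hnr] at key
          linarith
        | cons b w =>
          rw [← P_rec (a :: u) hu (by simp), ← P_rec (b :: w) hw (by simp)] at key
          have e5 : (a :: u).getLast? ≠ none := by simp
          have e6 : (b :: w).head? ≠ none := by simp
          rw [if_neg e5, if_neg e6] at key
          rw [hnr] at key ⊢
          linarith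
    exact mul_left_cancel₀ (by positivity) hfin

theorem pathLaw : PathLaw 4 1 P := by
  have h := fun u w => P_fac (u.length + w.length) u w rfl
  refine ⟨P_nil, P_nonneg, ?_, ?_, ?_⟩
  · intro w
    have := h [] w
    rw [P_nil, one_mul] at this
    exact this
  · intro w
    have := h w []
    rw [P_nil, mul_one] at this
    exact this
  · intro u w
    show ∑ c : Fin 4, P (u ++ [c] ++ w) = _
    rw [← h u w]
    refine Finset.sum_congr rfl fun c _ => ?_
    simp

/-- proper as a cyclic word -/
def CP (w : List A) : Prop := Proper w ∧ ∀ x ∈ w.getLast?, ∀ y ∈ w.head?, x ≠ y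

theorem CP_rot (a b : A) (w : List A) : CP (b :: w ++ [a]) ↔ CP (a :: b :: w) := by
  unfold CP
  rw [proper_append, proper_cons a (b :: w)]
  have e1 : (b :: w ++ [a]).getLast? = some a := by rw [List.getLast?_append]; rfl
  have e2 : (b :: w ++ [a]).head? = some b := by simp
  have e3 : (a :: b :: w).getLast? = (b :: w).getLast? := by simp
  rw [e1, e2, e3]
  simp only [List.head?_cons, Option.mem_def, Option.some.injEq, forall_eq']
  constructor
  · rintro ⟨⟨h1, _, h2⟩, h3⟩
    exact ⟨⟨h3, h1⟩, fun x hx => h2 x hx⟩
  · rintro ⟨⟨h1, h2⟩, h3⟩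
    exact ⟨⟨h2, trivial, fun x hx => h3 x hx⟩, h1⟩

open Classical in
noncomputable def QQ : ℕ → List (Fin 4) → ℝ
  | 0, w => if CP w then 1 / 12 else 0
  | m + 1, w => if CP w then 1 / (2 * ((m : ℝ) + 3)) * del 1 (QQ m) w else 0

theorem QQ_not (m : ℕ) (w : List (Fin 4)) (h : ¬ CP w) : QQ m w = 0 := by
  cases m with
  | zero => rw [QQ, if_neg h]
  | succ m => rw [QQ, if_neg h]

theorem QQ_succ (m : ℕ) (w : List (Fin 4)) (h : CP w) :
    2 * ((m : ℝ) + 3) * QQ (m + 1) w = del 1 (QQ m) w := by
  rw [QQ, if_pos h]
  have : (m : ℝ) + 3 ≠ 0 := by positivity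
  field_simp

theorem QQ_nonneg (m : ℕ) (w : List (Fin 4)) : 0 ≤ QQ m w := by
  induction m generalizing w with
  | zero => unfold QQ; split_ifs <;> norm_num
  | succ m ih =>
    unfold QQ
    split_ifs
    · exact mul_nonneg (by positivity) (del_nonneg 1 zero_le_one _ _ ih)
    · exact le_refl _

theorem del_map {B : Type} (f : List B → ℝ) (g : A → B) (w : List A) :
    del 1 f (w.map g) = del 1 (fun v => f (v.map g)) w := by
  induction w generalizing f with
  | nil => rfl
  | cons a w ih =>
    rw [List.map_cons, del_cons, del_cons, ih (fun v => f (g a :: v))]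
    simp

theorem CP_map (σ : Equiv.Perm (Fin 4)) (w : List (Fin 4)) : CP (w.map σ) ↔ CP w := by
  unfold CP
  rw [proper_iff, proper_iff, List.isChain_map]
  have e1 : (List.IsChain (fun a b => σ a ≠ σ b) w) ↔ List.IsChain (· ≠ ·) w := by
    have : (fun a b : Fin 4 => σ a ≠ σ b) = (· ≠ ·) := by
      funext a b
      simp
    rw [this]
  rw [e1, List.getLast?_map, List.head?_map]
  refine and_congr_right fun _ => ?_
  cases w.getLast? with
  | none => simp
  | some x =>
    cases w.head? with
    | none => simp
    | some y => simp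

theorem QQ_map (σ : Equiv.Perm (Fin 4)) (m : ℕ) (w : List (Fin 4)) : QQ m (w.map σ) = QQ m w := by
  induction m generalizing w with
  | zero =>
    unfold QQ
    by_cases h : CP w
    · rw [if_pos h, if_pos ((CP_map σ w).2 h)]
    · rw [if_neg h, if_neg (fun h' => h ((CP_map σ w).1 h'))]
  | succ m ih =>
    unfold QQ
    by_cases h : CP w
    · rw [if_pos h, if_pos ((CP_map σ w).2 h), del_map]
      congr 1
      exact del_congr 1 _ _ w fun v _ => ih v
    · rw [if_neg h, if_neg (fun h' => h ((CP_map σ w).1 h'))]

theorem del_rot (f : List (Fin 4) → ℝ) (a : Fin 4) (w : List (Fin 4))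
    (hf : ∀ v : List (Fin 4), v.length + 1 = w.length → f (v ++ [a]) = f (a :: v)) :
    del 1 f (w ++ [a]) = del 1 f (a :: w) := by
  rw [del_append, del_cons 1 f a w]
  have e1 : del 1 (fun u' => f (u' ++ [a])) w = del 1 (fun v => f (a :: v)) w :=
    del_congr 1 _ _ w hf
  rw [e1]
  simp [del_cons, add_comm]

theorem QQ_rot (m : ℕ) (a : Fin 4) (w : List (Fin 4)) (hl : w.length = m + 1) :
    QQ m (w ++ [a]) = QQ m (a :: w) := by
  induction m generalizing a w with
  | zero =>
    obtain ⟨b, w', rfl⟩ := List.exists_cons_of_length_eq_add_one hl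
    unfold QQ
    by_cases h : CP (b :: w' ++ [a])
    · rw [if_pos h, if_pos ((CP_rot a b w').1 h)]
    · rw [if_neg h, if_neg (fun h' => h ((CP_rot a b w').2 h'))]
  | succ m ih =>
    obtain ⟨b, w', rfl⟩ := List.exists_cons_of_length_eq_add_one hl
    have e : del 1 (QQ m) (b :: w' ++ [a]) = del 1 (QQ m) (a :: b :: w') :=
      del_rot (QQ m) a (b :: w') (fun v hv => ih a v (by omega))
    unfold QQ
    by_cases h : CP (b :: w' ++ [a])
    · rw [if_pos h, if_pos ((CP_rot a b w').1 h), e]
    · rw [if_neg h, if_neg (fun h' => h ((CP_rot a b w').2 h'))]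

theorem QQ_dbl (m : ℕ) (x y : List (Fin 4)) (c : Fin 4) : QQ m (x ++ c :: c :: y) = 0 :=
  QQ_not m _ fun h => not_proper_dbl x y c h.1

open Classical in
theorem QQ_star (m : ℕ) (w : List (Fin 4)) (hl : w.length = m + 2) (hw : Proper w) (c : Fin 4) :
    del 1 (QQ m) (w ++ [c]) = 2 * ((m : ℝ) + 3) * QQ (m + 1) (w ++ [c]) +
      2 * ((if w.getLast? = some c then 1 else 0) + (if w.head? = some c then 1 else 0)) *
        QQ m w := by
  have hz : ∀ (x y : List (Fin 4)) (d : Fin 4),
      del 1 (QQ m) (x ++ d :: d :: y) = 2 * QQ m (x ++ d :: y) := fun x y d =>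
    del_dbl (QQ m) (x ++ d :: y).length (fun x y c _ => QQ_dbl m x y c) x y d rfl
  by_cases h1 : w.getLast? = some c
  · have hcp : ¬ CP (w ++ [c]) := by
      intro h
      obtain ⟨x, rfl⟩ := List.getLast?_eq_some_iff.1 h1
      apply not_proper_dbl x [] c
      simpa using h.1
    rw [QQ_not _ _ hcp, if_pos h1]
    by_cases h2 : w.head? = some c
    · have hcp2 : ¬ CP w := fun h => h.2 c h1 c h2 rfl
      obtain ⟨x, rfl⟩ := List.getLast?_eq_some_iff.1 h1
      have e1 : x ++ [c] ++ [c] = x ++ c :: c :: [] := by simp
      have e2 : x ++ c :: [] = x ++ [c] := rfl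
      rw [e1, hz, e2, QQ_not _ _ hcp2]
      ring
    · obtain ⟨x, rfl⟩ := List.getLast?_eq_some_iff.1 h1
      have e1 : x ++ [c] ++ [c] = x ++ c :: c :: [] := by simp
      have e2 : x ++ c :: [] = x ++ [c] := rfl
      rw [if_neg h2, e1, hz, e2]
      ring
  · rw [if_neg h1]
    by_cases h2 : w.head? = some c
    · rw [if_pos h2]
      have hcp : ¬ CP (w ++ [c]) := by
        intro h
        refine h.2 c (by simp) c ?_ rfl
        rw [List.head?_append, h2]
        rfl
      rw [QQ_not _ _ hcp]
      obtain ⟨y, rfl⟩ : ∃ y, w = c :: y := by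
        cases w with
        | nil => simp at h2
        | cons b y => simp at h2; exact ⟨y, by rw [h2]⟩
      have e1 : del 1 (QQ m) (c :: y ++ [c]) = del 1 (QQ m) (c :: c :: y) :=
        del_rot (QQ m) c (c :: y) (fun v hv => QQ_rot m c v (by omega))
      have e2 := hz [] y c
      simp only [List.nil_append] at e2
      rw [e1, e2]
      ring
    · rw [if_neg h2]
      have hcp : CP (w ++ [c]) := by
        refine ⟨?_, ?_⟩
        · rw [proper_append]
          refine ⟨hw, trivial, ?_⟩
          intro x hx y hy hxy
          simp only [List.head?_cons, Option.mem_def, Option.some.injEq] at hy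
          apply h1
          rw [hy, ← hxy]
          exact hx
        · intro x hx y hy hxy
          have e3 : (w ++ [c]).getLast? = some c := by simp
          rw [e3] at hx
          have hx' : c = x := by simpa using hx
          cases w with
          | nil => simp at hl
          | cons b w' =>
            have hy' : b = y := by simpa using hy
            apply h2
            rw [List.head?_cons, hy', hx', hxy]
      rw [← QQ_succ _ _ hcp]
      ring

theorem QQ_marg (m : ℕ) : ∀ w : List (Fin 4), w.length = m + 1 →
    ∑ c : Fin 4, QQ m (w ++ [c]) = P w := by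
  classical
  induction m with
  | zero =>
    intro w hl
    obtain ⟨a, rfl⟩ := List.length_eq_one_iff.1 (by simpa using hl)
    have h1 : 2 * ((([a] : List (Fin 4)).length : ℝ) + 1) * P [a] = del 1 P [a] :=
      P_rec [a] trivial (by simp)
    have h2 : del 1 P [a] = 1 := by
      rw [del_cons]
      simp [P_nil]
    have h3 : P [a] = 1 / 4 := by
      rw [h2] at h1
      simp only [List.length_singleton, Nat.cast_one] at h1
      linarith
    have h4 : ∀ c : Fin 4, QQ 0 ([a] ++ [c]) = if a = c then 0 else 1 / 12 := by
      intro c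
      unfold QQ
      by_cases h : a = c
      · subst h
        rw [if_pos rfl, if_neg]
        intro h'
        exact h'.1.1 rfl
      · rw [if_neg h, if_pos]
        refine ⟨⟨h, trivial⟩, ?_⟩
        intro x hx y hy
        have hx' : c = x := by simpa using hx
        have hy' : a = y := by simpa using hy
        rw [← hx', ← hy']
        exact fun h'' => h h''.symm
    rw [Finset.sum_congr rfl fun c _ => h4 c, h3]
    have h5 : ∑ c : Fin 4, (if a = c then (0 : ℝ) else 1 / 12) =
        ∑ c : Fin 4, (1 / 12 - if a = c then (1 / 12 : ℝ) else 0) := by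
      refine Finset.sum_congr rfl fun c _ => ?_
      split_ifs <;> ring
    rw [h5, Finset.sum_sub_distrib]
    simp
    norm_num
  | succ m ih =>
    intro w hl
    by_cases hw : Proper w
    swap
    · rw [P_improper w hw]
      refine Finset.sum_eq_zero fun c _ => QQ_not _ _ fun h => hw ((proper_append _ _).1 h.1).1
    have hne : w ≠ [] := by
      rintro rfl
      simp at hl
    have key : ∑ c : Fin 4, del 1 (QQ m) (w ++ [c]) =
        2 * ((m : ℝ) + 3) * ∑ c : Fin 4, QQ (m + 1) (w ++ [c]) + 4 * QQ m w := by
      rw [Finset.sum_congr rfl fun c _ => QQ_star m w (by omega) hw c, Finset.sum_add_distrib,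
        Finset.mul_sum]
      congr 1
      rw [← Finset.sum_mul, ← Finset.mul_sum, Finset.sum_add_distrib, sum_ind, sum_ind]
      have e5 : w.getLast? ≠ none := by simpa using hne
      have e6 : w.head? ≠ none := by simpa using hne
      rw [if_neg e5, if_neg e6]
      ring
    have key2 : ∑ c : Fin 4, del 1 (QQ m) (w ++ [c]) = del 1 P w + 4 * QQ m w := by
      have e1 : ∀ c : Fin 4, del 1 (QQ m) (w ++ [c]) =
          del 1 (fun v => QQ m (v ++ [c])) w + QQ m w := by
        intro c
        rw [del_append, del_cons]
        simp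
      rw [Finset.sum_congr rfl fun c _ => e1 c, Finset.sum_add_distrib, ← del_sum]
      congr 1
      · refine del_congr 1 _ _ w fun v hv => ?_
        exact ih v (by omega)
      · simp
    rw [key2, ← P_rec w hw hne] at key
    have hlr : (w.length : ℝ) + 1 = (m : ℝ) + 3 := by
      rw [hl]
      push_cast
      ring
    rw [hlr] at key
    have h7 : (2 * ((m : ℝ) + 3)) * ∑ c : Fin 4, QQ (m + 1) (w ++ [c]) =
        (2 * ((m : ℝ) + 3)) * P w := by linarith
    exact mul_left_cancel₀ (by positivity) h7

theorem taskFour : TaskFour := by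
  refine ⟨P, pathLaw, ?_⟩
  intro n hn
  obtain ⟨m, rfl⟩ : ∃ m, n = m + 2 := ⟨n - 2, by omega⟩
  refine ⟨QQ m, ?_, ?_, ?_, ?_, ?_⟩
  · intro w _
    exact QQ_nonneg m w
  · intro σ w _
    exact QQ_map σ m w
  · intro a w hl
    exact QQ_rot m a w (by omega)
  · intro a w _
    have := QQ_dbl m [] w a
    simpa using this
  · intro w hl
    show ∑ c : Fin 4, QQ m (w ++ [c]) = P w
    exact QQ_marg m w (by omega)

end Pool.Agent.H581R3.CCFour
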