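import Mathlib
import Pool.Agent.Helper187.CC.Stmts

set_option autoImplicit false

/-! TaskPathInd of project H187-CYCLE (owner helper187). -/

open Finset

namespace Pool.Agent.H581R3.CCPath

open H187CC

variable {q : ℕ}

lemma E_nil (G : List (Fin q) → ℝ) : E G [] = G [] := rfl

lemma E_cons (G : List (Fin q) → ℝ) (f : Fin q → ℝ) (fs : List (Fin q → ℝ)) :
    E G (f :: fs) = ∑ a : Fin q, f a * E (fun w => G (a :: w)) fs := rfl

lemma E_sum {ι : Type} (s : Finset ι) (G : ι → List (Fin q) → ℝ) (fs : List (Fin q → ℝ)) :
    E (fun w => ∑ a ∈ s, G a w) fs = ∑ a ∈ s, E (G a) fs := by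
  induction fs generalizing G with
  | nil => rfl
  | cons f fs ih =>
    rw [E_cons]
    simp only [E_cons]
    rw [Finset.sum_comm]
    refine Finset.sum_congr rfl fun b _ => ?_
    rw [ih (fun a w => G a (b :: w)), Finset.mul_sum]

lemma E_mul (c : ℝ) (G : List (Fin q) → ℝ) (fs : List (Fin q → ℝ)) :
    E (fun w => c * G w) fs = c * E G fs := by
  induction fs generalizing G with
  | nil => rfl
  | cons f fs ih =>
    rw [E_cons, E_cons, Finset.mul_sum]
    refine Finset.sum_congr rfl fun b _ => ?_
    rw [ih (fun w => G (b :: w))]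
    ring

lemma sumr_E (s : ℕ) (G : List (Fin q) → List (Fin q) → ℝ) (gs : List (Fin q → ℝ)) :
    sumr q s (fun l => E (G l) gs) = E (fun w => sumr q s (fun l => G l w)) gs := by
  induction s generalizing G with
  | zero => rfl
  | succ s ih =>
    show ∑ c : Fin q, sumr q s (fun l => E (G (c :: l)) gs) =
      E (fun w => ∑ c : Fin q, sumr q s (fun l => G (c :: l) w)) gs
    rw [E_sum]
    refine Finset.sum_congr rfl fun c _ => ?_
    exact ih (fun l => G (c :: l))

/-- the first `s` entries are `1` -/
def Fst (s : ℕ) (fs : List (Fin q → ℝ)) : Prop := ∀ i, i < s → ∀ f, fs[i]? = some f → f = 1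

/-- separated lists -/
def Sep (r : ℕ) (fs gs : List (Fin q → ℝ)) : Prop :=
  ∀ i j f g, fs[i]? = some f → gs[j]? = some g → f ≠ 1 → g ≠ 1 → r + i < j ∨ r + j < i

lemma Fst.tail {s : ℕ} {f : Fin q → ℝ} {fs : List (Fin q → ℝ)} (h : Fst (s + 1) (f :: fs)) :
    Fst s fs := fun i hi g hg => h (i + 1) (by omega) g (by simpa using hg)

lemma Fst.head {s : ℕ} {f : Fin q → ℝ} {fs : List (Fin q → ℝ)} (hs : 0 < s)
    (h : Fst s (f :: fs)) : f = 1 := h 0 hs f (by simp)

lemma E_split (s : ℕ) (G : List (Fin q) → ℝ) (fs : List (Fin q → ℝ)) (hl : s ≤ fs.length)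
    (h : Fst s fs) : E G fs = sumr q s (fun l => E (fun w => G (l ++ w)) (fs.drop s)) := by
  induction s generalizing G fs with
  | zero => rfl
  | succ s ih =>
    cases fs with
    | nil => simp at hl
    | cons f fs =>
      rw [E_cons, h.head (Nat.succ_pos s)]
      show _ = ∑ c : Fin q, sumr q s (fun l => E (fun w => G (c :: l ++ w)) ((f :: fs).drop (s + 1)))
      refine Finset.sum_congr rfl fun c _ => ?_
      rw [Pi.one_apply, one_mul, ih (fun w => G (c :: w)) fs (by simpa using hl) h.tail]
      rfl

lemma E_one_head (r : ℕ) (P : List (Fin q) → ℝ) (hP : PathLaw q r P) (gs : List (Fin q → ℝ)) :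
    E P (1 :: gs) = E P gs := by
  rw [E_cons]
  simp only [Pi.one_apply, one_mul]
  rw [← E_sum]
  congr 1
  funext w
  exact hP.2.2.1 w

lemma E_all_one (r : ℕ) (P : List (Fin q) → ℝ) (hP : PathLaw q r P) (fs : List (Fin q → ℝ))
    (h : Fst fs.length fs) (u : List (Fin q)) : E (fun w => P (u ++ w)) fs = P u := by
  induction fs generalizing u with
  | nil => rw [E_nil, List.append_nil]
  | cons f fs ih =>
    rw [E_cons, h.head (by simp)]
    simp only [Pi.one_apply, one_mul]
    have h1 : ∀ a : Fin q, E (fun w => P (u ++ a :: w)) fs = P (u ++ [a]) := by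
      intro a
      have h2 := ih (by
        have h3 := h
        rw [List.length_cons] at h3
        exact h3.tail) (u ++ [a])
      simpa using h2
    rw [Finset.sum_congr rfl fun a _ => h1 a]
    exact hP.2.2.2.1 u

lemma E_first (r : ℕ) (P : List (Fin q) → ℝ) (hP : PathLaw q r P) (fs : List (Fin q → ℝ))
    (h : Fst r fs) (u : List (Fin q)) :
    E (fun w => P (u ++ w)) fs = P u * E P (fs.drop r) := by
  by_cases hl : r ≤ fs.length
  · rw [E_split r _ fs hl h, sumr_E, ← E_mul]
    congr 1
    funext w
    have h1 := hP.2.2.2.2 u w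
    rw [← h1]
    congr 1
    funext l
    rw [List.append_assoc]
  · push Not at hl
    rw [E_all_one r P hP fs (fun i hi => h i (by omega)) u, List.drop_eq_nil_of_le hl.le, E_nil,
      hP.1, mul_one]

lemma Sep.symm {r : ℕ} {fs gs : List (Fin q → ℝ)} (h : Sep r fs gs) : Sep r gs fs :=
  fun i j f g hf hg hf1 hg1 => (h j i g f hg hf hg1 hf1).symm

lemma Sep.drop {r : ℕ} {fs gs : List (Fin q → ℝ)} (h : Sep r fs gs) (s : ℕ) :
    Sep r (fs.drop s) (gs.drop s) := by
  intro i j f g hf hg hf1 hg1
  rw [List.getElem?_drop] at hf hg
  have := h _ _ f g hf hg hf1 hg1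
  omega

lemma zip_comm (fs gs : List (Fin q → ℝ)) :
    List.zipWith (fun f g => f * g) fs gs = List.zipWith (fun f g => f * g) gs fs := by
  induction fs generalizing gs with
  | nil => simp
  | cons f fs ih =>
    cases gs with
    | nil => simp
    | cons g gs => simp [ih gs, mul_comm]

lemma main (r : ℕ) (P : List (Fin q) → ℝ) (hr : 1 ≤ r) (hP : PathLaw q r P) (n : ℕ) :
    ∀ fs gs : List (Fin q → ℝ), fs.length = n → gs.length = n → Sep r fs gs → Fst r gs →
      ∀ u : List (Fin q), E (fun w => P (u ++ w)) (List.zipWith (fun f g => f * g) fs gs) =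
        E (fun w => P (u ++ w)) fs * E P gs := by
  induction n using Nat.strong_induction_on with
  | _ n ih =>
    have hun : ∀ m, m < n → ∀ fs gs : List (Fin q → ℝ), fs.length = m → gs.length = m →
        Sep r fs gs → E P (List.zipWith (fun f g => f * g) fs gs) = E P fs * E P gs := by
      intro m hm fs gs hf hg hs
      by_cases h1 : Fst r gs
      · exact ih m hm fs gs hf hg hs h1 []
      · have h2 : Fst r fs := by
          intro i hi f hfi
          by_contra hf1
          apply h1
          intro j hj g hgj
          by_contra hg1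
          have := hs i j f g hfi hgj hf1 hg1
          omega
        have h3 := ih m hm gs fs hg hf hs.symm h2 []
        simp only [List.nil_append] at h3
        rw [zip_comm, h3, mul_comm]
    intro fs gs hfl hgl hs hfst u
    by_cases h1 : Fst r fs
    · have hz : Fst r (List.zipWith (fun f g => f * g) fs gs) := by
        intro i hi k hk
        rw [List.getElem?_zipWith_eq_some] at hk
        obtain ⟨x, y, hx, hy, hxy⟩ := hk
        rw [← hxy, h1 i hi x hx, hfst i hi y hy, mul_one]
      rw [E_first r P hP _ hz u, E_first r P hP fs h1 u]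
      have hg0 := E_first r P hP gs hfst []
      simp only [List.nil_append] at hg0
      rw [hg0, hP.1, one_mul, List.drop_zipWith]
      by_cases hn : n = 0
      · subst hn
        have e1 : fs = [] := List.eq_nil_of_length_eq_zero hfl
        have e2 : gs = [] := List.eq_nil_of_length_eq_zero hgl
        subst e1 e2
        simp [E_nil, hP.1]
      · rw [hun (n - r) (by omega) (fs.drop r) (gs.drop r) (by simp [hfl]) (by simp [hgl])
          (hs.drop r)]
        ring
    · cases fs with
      | nil =>
        exact absurd (fun i _ f hf => by simp at hf) h1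
      | cons f fs =>
        cases gs with
        | nil => simp at hfl hgl; omega
        | cons g gs =>
          have hg1 : g = 1 := hfst.head (by omega)
          have hex : ∃ i, i < r ∧ ∃ k, (f :: fs)[i]? = some k ∧ k ≠ 1 := by
            by_contra hcon
            apply h1
            intro i hi k hk
            by_contra hk1
            exact hcon ⟨i, hi, k, hk, hk1⟩
          obtain ⟨i, hi, k, hk, hk1⟩ := hex
          have htail : Fst r gs := by
            intro j hj g' hg'
            by_contra hne
            have := hs i (j + 1) k g' hk (by simpa using hg') hk1 hne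
            omega
          have hs' : Sep r fs gs := by
            have := hs.drop 1
            simpa using this
          rw [List.length_cons] at hfl hgl
          show E (fun w => P (u ++ w)) ((f * g) :: List.zipWith (fun f g => f * g) fs gs) = _
          rw [hg1, mul_one, E_cons, E_cons, E_one_head r P hP, Finset.sum_mul]
          refine Finset.sum_congr rfl fun a _ => ?_
          have h3 := ih (n - 1) (by omega) fs gs (by omega) (by omega) hs' htail (u ++ [a])
          simp only [List.append_assoc, List.cons_append, List.nil_append] at h3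
          rw [h3]
          ring

theorem taskPathInd : TaskPathInd := by
  intro q r P hr hP fs gs hlen hsep
  have hs : Sep r fs gs := by
    intro i j f g hf hg hf1 hg1
    obtain ⟨hi, rfl⟩ := List.getElem?_eq_some_iff.1 hf
    obtain ⟨hj, rfl⟩ := List.getElem?_eq_some_iff.1 hg
    exact hsep i j hi hj hf1 hg1
  by_cases h1 : Fst r gs
  · exact main r P hr hP fs.length fs gs rfl hlen.symm hs h1 []
  · have h2 : Fst r fs := by
      intro i hi f hfi
      by_contra hf1
      apply h1
      intro j hj g hgj
      by_contra hg1
      have := hs i j f g hfi hgj hf1 hg1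
      omega
    have h3 := main r P hr hP fs.length gs fs hlen.symm rfl hs.symm h2 []
    simp only [List.nil_append] at h3
    rw [zip_comm, h3, mul_comm]

end Pool.Agent.H581R3.CCPath
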