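import Pool.Agent.H581R3.Ten

/-!
The dual module `Hom_E(M, I)` and its endomorphisms.
-/

set_option autoImplicit false

namespace Pool.Agent.H581R3

open Module (End)

section defs

variable {S T : Type} [Ring S] [Ring T] (φ : T ≃+* Sᵐᵒᵖ) (M I : Type) [AddCommGroup M]
  [Module S M] [AddCommGroup I] [Module (End S M) I]

/-- The dual module. -/
def DualM (_φ : T ≃+* Sᵐᵒᵖ) (M I : Type) [AddCommGroup M]
    [Module S M] [AddCommGroup I] [Module (End S M) I] : Type := M →ₗ[End S M] I

instance : AddCommGroup (DualM φ M I) := inferInstanceAs (AddCommGroup (M →ₗ[End S M] I))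

instance : Module T (DualM φ M I) := dualModule φ

variable {φ M I}

/-- The underlying map. -/
def ev (z : DualM φ M I) : M →ₗ[End S M] I := z

theorem ev_add (y z : DualM φ M I) : ev (y + z) = ev y + ev z := rfl
theorem ev_sub (y z : DualM φ M I) : ev (y - z) = ev y - ev z := rfl
theorem ev_zero : ev (0 : DualM φ M I) = 0 := rfl

theorem ev_smul (t : T) (z : DualM φ M I) (m : M) : ev (t • z) m = ev z ((φ t).unop • m) := rfl

theorem ev_sum {ι : Type*} (s : Finset ι) (z : ι → DualM φ M I) :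
    ev (∑ i ∈ s, z i) = ∑ i ∈ s, ev (z i) := rfl

theorem ev_inj {y z : DualM φ M I} (h : ∀ m, ev y m = ev z m) : y = z := LinearMap.ext h

/-- Make an element of the dual. -/
def mkD (φ : T ≃+* Sᵐᵒᵖ) (z : M →ₗ[End S M] I) : DualM φ M I := z

theorem ev_mkD (z : M →ₗ[End S M] I) : ev (mkD φ z) = z := rfl

end defs

section pres

variable {S T : Type} [Ring S] [Ring T] {φ : T ≃+* Sᵐᵒᵖ} {M I : Type} [AddCommGroup M]
  [Module S M] [AddCommGroup I] [Module (End S M) I] [IsArtinian (End S M) M]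

theorem pres (hI : Module.Injective (End S M) I) (h : DualM φ M I →ₗ[T] DualM φ M I)
    (A : Finset M) (ζ : M → DualM φ M I) (h0 : ∑ x ∈ A, ev (ζ x) x = 0) :
    ∑ x ∈ A, ev (h (ζ x)) x = 0 := by
  classical
  obtain ⟨R, hR1, hR2⟩ := exists_rels A (fun x => ev (ζ x)) h0
  let Φ : (M → M) →ₗ[End S M] (R → M) := LinearMap.pi fun ρ => Lam ρ.1
  let Z : (M → M) →ₗ[End S M] I := ∑ x ∈ A, (ev (ζ x)) ∘ₗ (LinearMap.proj x)
  have hZ : ∀ f, Z f = ∑ x ∈ A, ev (ζ x) (f x) := by
    intro f
    simp [Z, LinearMap.sum_apply]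
  obtain ⟨w, hw⟩ := inj_factor hI Φ Z (by
    intro f hf
    rw [LinearMap.mem_ker] at hf ⊢
    rw [hZ]
    exact hR2 f fun ρ hρ => congrFun hf ⟨ρ, hρ⟩)
  let W : R → DualM φ M I := fun ρ => mkD φ (w ∘ₗ LinearMap.single (End S M) (fun _ => M) ρ)
  have hW : ∀ g : R → M, w g = ∑ ρ, ev (W ρ) (g ρ) := by
    intro g
    have hg : g = ∑ ρ, LinearMap.single (End S M) (fun _ : R => M) ρ (g ρ) := by
      funext ρ'
      rw [Finset.sum_apply, Finset.sum_eq_single ρ']
      · simp
      · intro b _ hb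
        simp [Pi.single_eq_of_ne (Ne.symm hb)]
      · intro h; exact absurd (Finset.mem_univ _) h
    conv_lhs => rw [hg]
    rw [map_sum]
    rfl
  have key : ∀ f : M → M, ∑ x ∈ A, ev (ζ x) (f x) = ∑ ρ, ev (W ρ) (Lam ρ.1 f) := by
    intro f
    rw [← hZ, ← hw, hW]
    rfl
  have hsingle : ∀ (ρ : M →₀ S) (x m : M), Lam ρ (Pi.single x m) = ρ x • m := by
    intro ρ x m
    rw [Lam_apply, Finsupp.sum]
    rw [Finset.sum_eq_single x]
    · rw [Pi.single_eq_same]
    · intro y _ hyx
      rw [Pi.single_eq_of_ne hyx, smul_zero]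
    · intro hx
      rw [Finsupp.notMem_support_iff.mp hx, zero_smul]
  have hcoef : ∀ x : M, (if x ∈ A then ζ x else 0) =
      ∑ ρ, (φ.symm (MulOpposite.op (ρ.1 x))) • W ρ := by
    intro x
    apply ev_inj
    intro m
    have h1 := key (Pi.single x m)
    have h2 : ∑ y ∈ A, ev (ζ y) ((Pi.single x m : M → M) y) = ev (if x ∈ A then ζ x else 0) m := by
      by_cases hx : x ∈ A
      · rw [if_pos hx, Finset.sum_eq_single x]
        · rw [Pi.single_eq_same]
        · intro y _ hyx
          rw [Pi.single_eq_of_ne hyx, map_zero]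
        · intro h; exact absurd hx h
      · rw [if_neg hx]
        rw [Finset.sum_eq_zero]
        · rfl
        · intro y hy
          rw [Pi.single_eq_of_ne (by rintro rfl; exact hx hy), map_zero]
    rw [h2] at h1
    rw [h1, ev_sum, LinearMap.sum_apply]
    refine Finset.sum_congr rfl fun ρ _ => ?_
    rw [hsingle, ev_smul, RingEquiv.apply_symm_apply, MulOpposite.unop_op]
  have hh : ∀ x : M, ev (h (if x ∈ A then ζ x else 0)) x =
      ∑ ρ : R, ev (h (W ρ)) (ρ.1 x • x) := by
    intro x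
    rw [hcoef, map_sum, ev_sum, LinearMap.sum_apply]
    refine Finset.sum_congr rfl fun ρ _ => ?_
    rw [map_smul, ev_smul, RingEquiv.apply_symm_apply, MulOpposite.unop_op]
  let B : Finset M := A ∪ R.biUnion fun ρ => ρ.support
  have hB : ∑ x ∈ A, ev (h (ζ x)) x = ∑ x ∈ B, ev (h (if x ∈ A then ζ x else 0)) x := by
    rw [← Finset.sum_subset (Finset.subset_union_left : A ⊆ B)]
    · refine Finset.sum_congr rfl fun x hx => ?_
      rw [if_pos hx]
    · intro x _ hx
      rw [if_neg hx, map_zero]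
      rfl
  rw [hB, Finset.sum_congr rfl fun x _ => hh x, Finset.sum_comm]
  refine Finset.sum_eq_zero fun ρ _ => ?_
  rw [← map_sum]
  have h3 : ∑ x ∈ B, ρ.1 x • x = 0 := by
    have h4 : IsRel ρ.1 := hR1 _ ρ.2
    unfold IsRel at h4
    rw [Finsupp.sum] at h4
    rw [← h4]
    symm
    apply Finset.sum_subset
    · intro x hx
      apply Finset.mem_union_right
      rw [Finset.mem_biUnion]
      exact ⟨ρ.1, ρ.2, hx⟩
    · intro x _ hx
      rw [Finsupp.notMem_support_iff.mp hx, zero_smul]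
  rw [h3, map_zero]

theorem pres_two (hI : Module.Injective (End S M) I) (h : DualM φ M I →ₗ[T] DualM φ M I)
    (y z : DualM φ M I) (a b : M) (hab : ev y a = ev z b) : ev (h y) a = ev (h z) b := by
  classical
  by_cases hne : a = b
  · subst hne
    have h1 := pres hI h {a} (fun _ => y - z) (by simp [ev_sub, hab])
    simpa [ev_sub, sub_eq_zero] using h1
  · have h1 := pres hI h {a, b} (fun x => if x = a then y else -z) (by
      rw [Finset.sum_pair hne, if_pos rfl, if_neg (Ne.symm hne)]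
      change ev y a + - ev z b = 0
      rw [hab]; abel)
    rw [Finset.sum_pair hne, if_pos rfl, if_neg (Ne.symm hne), map_neg] at h1
    change ev (h y) a + - ev (h z) b = 0 at h1
    exact eq_of_sub_eq_zero (by rw [sub_eq_add_neg]; exact h1)

theorem pres_zero (hI : Module.Injective (End S M) I) (h : DualM φ M I →ₗ[T] DualM φ M I)
    (y : DualM φ M I) (a : M) (hab : ev y a = 0) : ev (h y) a = 0 := by
  have := pres_two hI h y 0 a a (by rw [hab]; rfl)
  rw [this, map_zero]
  rfl

end pres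

end Pool.Agent.H581R3
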