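import Pool.Agent.H581R3.AC

/-!
Ellis-Numakura lemma for linearly compact semigroups of endomorphisms, and the structure of the
endomorphism ring of an indecomposable module of finite endolength.
-/

set_option autoImplicit false

namespace Pool.Agent.H581R3

section closed

variable {E M : Type*} [Ring E] [AddCommGroup M] [Module E M] {ι : Type*}

variable (E) in
/-- An intersection of finitely determined cosets. -/
def IsCl (C : Set (ι → M)) : Prop :=
  ∃ 𝓒 : Set (Set (ι → M)), (∀ D ∈ 𝓒, IsFC E D) ∧ C = ⋂₀ 𝓒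

theorem IsFC.isCl {C : Set (ι → M)} (h : IsFC E C) : IsCl E C :=
  ⟨{C}, by simpa using h, by simp⟩

theorem IsCl.sInter {𝓓 : Set (Set (ι → M))} (h : ∀ D ∈ 𝓓, IsCl E D) : IsCl E (⋂₀ 𝓓) := by
  refine ⟨{D | IsFC E D ∧ ∃ C ∈ 𝓓, C ⊆ D}, fun D hD => hD.1, ?_⟩
  apply Set.Subset.antisymm
  · rintro x hx D ⟨-, C, hC, hCD⟩
    exact hCD (hx C hC)
  · intro x hx C hC
    obtain ⟨𝓒, h1, h2⟩ := h C hC
    rw [h2]
    intro D hD
    refine hx D ⟨h1 D hD, C, hC, ?_⟩
    rw [h2]
    exact Set.sInter_subset_of_mem hD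

theorem IsCl.inter {C D : Set (ι → M)} (hC : IsCl E C) (hD : IsCl E D) : IsCl E (C ∩ D) := by
  have := IsCl.sInter (E := E) (𝓓 := {C, D}) (by
    rintro X (rfl | rfl)
    · exact hC
    · exact hD)
  simpa using this

theorem compact_cl [IsArtinian E M] (𝓓 : Set (Set (ι → M))) (h : ∀ C ∈ 𝓓, IsCl E C)
    (fip : ∀ F : Finset (Set (ι → M)), (F : Set (Set (ι → M))) ⊆ 𝓓 →
      (⋂₀ (F : Set (Set (ι → M)))).Nonempty) : (⋂₀ 𝓓).Nonempty := by
  classical
  obtain ⟨x, hx⟩ := linear_compact (E := E) {D : Set (ι → M) | IsFC E D ∧ ∃ C ∈ 𝓓, C ⊆ D}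
    (fun D hD => hD.1) (by
      intro F hF
      have : ∀ D : Set (ι → M), ∃ C : Set (ι → M), D ∈ F → C ∈ 𝓓 ∧ C ⊆ D := by
        intro D
        by_cases hD : D ∈ F
        · obtain ⟨-, C, hC, hCD⟩ := hF hD
          exact ⟨C, fun _ => ⟨hC, hCD⟩⟩
        · exact ⟨∅, fun h => absurd h hD⟩
      choose c hc using this
      obtain ⟨x, hx⟩ := fip (F.image c) (by
        intro X hX
        rw [Finset.mem_coe, Finset.mem_image] at hX
        obtain ⟨D, hD, rfl⟩ := hX
        exact (hc D hD).1)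
      refine ⟨x, fun D hD => (hc D hD).2 (hx _ ?_)⟩
      rw [Finset.mem_coe, Finset.mem_image]
      exact ⟨D, hD, rfl⟩)
  refine ⟨x, fun C hC => ?_⟩
  obtain ⟨𝓒, h1, h2⟩ := h C hC
  rw [h2]
  intro D hD
  refine hx D ⟨h1 D hD, C, hC, ?_⟩
  rw [h2]
  exact Set.sInter_subset_of_mem hD

/-- A nonempty closed set is a coset of a submodule. -/
theorem IsCl.exists_coset {C : Set (ι → M)} (h : IsCl E C) (c : ι → M) (hc : c ∈ C) :
    ∃ V : Submodule E (ι → M), C = coset c V := by
  obtain ⟨𝓒, h1, h2⟩ := h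
  subst h2
  have h2 : ∀ D ∈ 𝓒, c ∈ D := hc
  refine ⟨{ carrier := {v | ∀ D ∈ 𝓒, c + v ∈ D}
            add_mem' := ?_
            zero_mem' := ?_
            smul_mem' := ?_ }, ?_⟩
  · intro a b ha hb D hD
    obtain ⟨x, V, -, rfl⟩ := h1 D hD
    have h3 := ha _ hD
    have h4 := hb _ hD
    have h5 := h2 _ hD
    simp only [coset, Set.mem_ofPred_eq] at *
    have h6 := V.sub_mem (V.add_mem h3 h4) h5
    have h7 : c + a - x + (c + b - x) - (c - x) = c + (a + b) - x := by abel
    rwa [h7] at h6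
  · intro D hD
    simpa using h2 D hD
  · intro e a ha D hD
    obtain ⟨x, V, -, rfl⟩ := h1 D hD
    have h3 := ha _ hD
    have h5 := h2 _ hD
    simp only [coset, Set.mem_ofPred_eq] at *
    have h6 := V.add_mem (V.smul_mem e (V.sub_mem h3 h5)) h5
    have h7 : e • (c + a - x - (c - x)) + (c - x) = c + e • a - x := by
      have : c + a - x - (c - x) = a := by abel
      rw [this]; abel
    rwa [h7] at h6
  · ext y
    have h3 : c + (y - c) = y := by abel
    constructor
    · intro hy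
      change ∀ D ∈ 𝓒, c + (y - c) ∈ D
      rw [h3]
      exact hy
    · intro hy
      change ∀ D ∈ 𝓒, c + (y - c) ∈ D at hy
      rw [h3] at hy
      exact hy

/-- Reindexing a closed set along a map gives a closed set. -/
theorem IsCl.image [IsArtinian E M] {C : Set (ι → M)} (h : IsCl E C) (hne : C.Nonempty)
    (f : ι → ι) : IsCl E ((fun t : ι → M => t ∘ f) '' C) := by
  classical
  obtain ⟨c, hc⟩ := hne
  obtain ⟨V, hV⟩ := h.exists_coset c hc
  refine ⟨{D | IsFC E D ∧ (fun t : ι → M => t ∘ f) '' C ⊆ D}, fun D hD => hD.1, ?_⟩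
  apply Set.Subset.antisymm
  · intro x hx D hD
    exact hD.2 hx
  · intro y hy
    obtain ⟨t, ht⟩ := compact_cl (E := E) (insert C (Set.range fun x : ι =>
      {t : ι → M | t (f x) = y x})) (by
        rintro D (rfl | ⟨x, rfl⟩)
        · exact h
        · refine IsFC.isCl ⟨fun _ => y x, LinearMap.ker (LinearMap.proj (f x) : (ι → M) →ₗ[E] M),
            ⟨{f x}, fun z hz => by simpa using hz⟩, ?_⟩
          ext y
          simp [coset, sub_eq_zero]) (by
        intro F hF
        -- the finitely many coordinates involved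
        have hJ : ∃ J : Finset ι, ∀ D ∈ F, D = C ∨ ∃ x ∈ J, D = {t : ι → M | t (f x) = y x} := by
          induction F using Finset.induction_on with
          | empty => exact ⟨∅, by simp⟩
          | insert D F hD ih =>
            obtain ⟨J, hJ⟩ := ih (fun X hX => hF (by
              rw [Finset.coe_insert]; exact Set.mem_insert_of_mem _ hX))
            rcases hF (Finset.mem_coe.mpr (Finset.mem_insert_self D F)) with h1 | ⟨x, h1⟩
            · refine ⟨J, fun X hX => ?_⟩
              rcases Finset.mem_insert.mp hX with rfl | hX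
              · exact Or.inl h1
              · exact hJ X hX
            · refine ⟨insert x J, fun X hX => ?_⟩
              rcases Finset.mem_insert.mp hX with rfl | hX
              · exact Or.inr ⟨x, Finset.mem_insert_self _ _, h1.symm⟩
              · rcases hJ X hX with h2 | ⟨z, hz, h2⟩
                · exact Or.inl h2
                · exact Or.inr ⟨z, Finset.mem_insert_of_mem hz, h2⟩
        obtain ⟨J, hJ⟩ := hJ
        let R : (ι → M) →ₗ[E] (ι → M) := LinearMap.funLeft E M f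
        let Z : Submodule E (ι → M) :=
          { carrier := {v | ∀ j ∈ J, v j = 0}
            add_mem' := fun {a b} ha hb j hj => by simp [ha j hj, hb j hj]
            zero_mem' := fun j hj => rfl
            smul_mem' := fun e a ha j hj => by simp [ha j hj] }
        have hy1 := hy (coset (c ∘ f) (V.map R ⊔ Z)) ⟨⟨c ∘ f, V.map R ⊔ Z,
          ⟨J, fun x hx => Submodule.mem_sup_right hx⟩, rfl⟩, by
            rintro _ ⟨t, ht, rfl⟩
            rw [hV] at ht
            simp only [coset, Set.mem_ofPred_eq] at ht ⊢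
            exact Submodule.mem_sup_left ⟨t - c, ht, rfl⟩⟩
        simp only [coset, Set.mem_ofPred_eq] at hy1
        obtain ⟨a, ⟨v, hv, rfl⟩, z, hz, haz⟩ := Submodule.mem_sup.mp hy1
        refine ⟨c + v, fun D hD => ?_⟩
        rcases hJ D hD with rfl | ⟨x, hx, rfl⟩
        · rw [hV]
          simpa [coset] using hv
        · have h1 := congrFun haz x
          have h2 : z x = 0 := hz x hx
          simp only [Pi.add_apply, Pi.sub_apply, Function.comp_apply, h2, add_zero, R,
            LinearMap.funLeft_apply] at h1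
          simp [h1])
    refine ⟨t, ht C (Set.mem_insert _ _), ?_⟩
    funext x
    exact ht {t : ι → M | t (f x) = y x} (Set.mem_insert_of_mem _ ⟨x, rfl⟩)

end closed

section EN

variable {E M : Type*} [Ring E] [AddCommGroup M] [Module E M]

/-- Ellis-Numakura: a nonempty linearly compact semigroup of maps contains an idempotent. -/
theorem ellis_numakura [IsArtinian E M] (𝓣 : Set (M → M)) (hcl : IsCl E 𝓣) (hne : 𝓣.Nonempty)
    (hmul : ∀ s ∈ 𝓣, ∀ t ∈ 𝓣, s ∘ t ∈ 𝓣) : ∃ t ∈ 𝓣, t ∘ t = t := by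
  classical
  let 𝓢 : Set (Set (M → M)) := {T | T.Nonempty ∧ IsCl E T ∧ ∀ s ∈ T, ∀ t ∈ T, s ∘ t ∈ T}
  obtain ⟨T, hT1, hT2⟩ := zorn_superset_nonempty 𝓢 (by
    intro c hc hchain hcne
    refine ⟨⋂₀ c, ⟨?_, IsCl.sInter fun D hD => (hc hD).2.1, ?_⟩,
      fun s hs => Set.sInter_subset_of_mem hs⟩
    · refine compact_cl (E := E) c (fun D hD => (hc hD).2.1) ?_
      intro F hF
      rcases F.eq_empty_or_nonempty with rfl | hFne
      · simp
      · have hch : IsChain (· ⊆ ·) (F : Set (Set (M → M))) := hchain.mono hF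
        obtain ⟨D, hD⟩ : ∃ D ∈ F, ∀ X ∈ F, D ⊆ X := by
          obtain ⟨D, hD⟩ := F.exists_minimal hFne
          refine ⟨D, hD.1, fun X hX => ?_⟩
          rcases hch.total hD.1 hX with h | h
          · exact h
          · exact hD.2 hX h
        obtain ⟨x, hx⟩ := (hc (hF hD.1)).1
        exact ⟨x, fun X hX => hD.2 X hX hx⟩
    · intro s hs t ht D hD
      exact (hc hD).2.2 s (hs D hD) t (ht D hD)) 𝓣 ⟨hne, hcl, hmul⟩
  obtain ⟨⟨⟨f, hf⟩, hTcl, hTmul⟩, hmin⟩ := hT2
  -- `T ∘ f = T`
  have h1 : (fun t : M → M => t ∘ f) '' T = T := by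
    have hsub : (fun t : M → M => t ∘ f) '' T ⊆ T := by
      rintro _ ⟨t, ht, rfl⟩
      exact hTmul t ht f hf
    refine Set.Subset.antisymm hsub (hmin ⟨⟨f ∘ f, f, hf, rfl⟩, hTcl.image ⟨f, hf⟩ f, ?_⟩ hsub)
    rintro _ ⟨s, hs, rfl⟩ _ ⟨t, ht, rfl⟩
    exact ⟨s ∘ (f ∘ t), hTmul s hs _ (hTmul f hf t ht), rfl⟩
  -- `{t ∈ T | t ∘ f = f} = T`
  have h2 : T ∩ {t | t ∘ f = f} = T := by
    refine Set.Subset.antisymm Set.inter_subset_left (hmin ⟨?_, ?_, ?_⟩ Set.inter_subset_left)
    · have : f ∈ (fun t : M → M => t ∘ f) '' T := by rw [h1]; exact hf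
      obtain ⟨t, ht, htf⟩ := this
      exact ⟨t, ht, htf⟩
    · apply hTcl.inter
      have : {t : M → M | t ∘ f = f} = ⋂₀ (Set.range fun x : M => {t : M → M | t (f x) = f x}) := by
        ext t
        simp only [Set.mem_ofPred_eq, Set.mem_sInter, Set.mem_range, forall_exists_index,
          forall_apply_eq_imp_iff]
        exact funext_iff
      rw [this]
      apply IsCl.sInter
      rintro _ ⟨x, rfl⟩
      refine IsFC.isCl ⟨fun _ => f x, LinearMap.ker (LinearMap.proj (f x) : (M → M) →ₗ[E] M),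
            ⟨{f x}, fun z hz => by simpa using hz⟩, ?_⟩
      ext y
      simp [coset, sub_eq_zero]
    · rintro s ⟨hs, hs'⟩ t ⟨ht, ht'⟩
      refine ⟨hTmul s hs t ht, ?_⟩
      change (s ∘ t) ∘ f = f
      rw [Function.comp_assoc]
      have ht'' : t ∘ f = f := ht'
      rw [ht'']
      exact hs'
  have h3 : f ∈ T ∩ {t | t ∘ f = f} := by rw [h2]; exact hf
  exact ⟨f, hT1 hf, h3.2⟩

end EN

end Pool.Agent.H581R3
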