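import Pool.Agent.H581R3.Main

/-!
Left-right symmetry of generic wildness.
-/

set_option autoImplicit false

namespace Pool.Agent.H581R3

open Module (End)

section fin

/-- `A` is finite over its centre. -/
def FC (A : Type) [Ring A] : Prop := Module.Finite (Subring.center A) A

theorem fc_iff {A D : Type} [Ring A] [Ring D] [Nontrivial D] (ψ : A →+* D)
    (hs : Function.Surjective ψ) (hD : ∀ d : D, d ≠ 0 → IsUnit d)
    (hn : ∀ a, ψ a = 0 → IsNilpotent a) : FC (A ⧸ Ring.jacobson A) ↔ FC D := by
  have hJ : Ring.jacobson A = RingHom.ker ψ := jacobson_eq_ker ψ hs hD hn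
  have e : (A ⧸ Ring.jacobson A) ≃+* D :=
    (Ideal.quotEquivOfEq hJ).trans (RingHom.quotientKerEquivOfSurjective hs)
  exact ⟨finite_center_of_ringEquiv e, finite_center_of_ringEquiv e.symm⟩

theorem fc_op {D : Type} [Ring D] (h : FC D) : FC Dᵐᵒᵖ :=
  finite_center_op (finite_center_of_ringEquiv (RingEquiv.opOp D) h)

/-- Finiteness over the centre of a quotient of a finite algebra. -/
theorem fc_of_finite {k A B : Type} [CommRing k] [Ring A] [Algebra k A] [Module.Finite k A]
    [Ring B] (q : A →+* B) (hq : Function.Surjective q) : FC B := by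
  classical
  have hA : Module.Finite k A := inferInstance
  obtain ⟨g, hg⟩ := hA
  refine ⟨g.image q, ?_⟩
  rw [eq_top_iff]
  intro b _
  obtain ⟨a, rfl⟩ := hq b
  have ha : a ∈ Submodule.span k (g : Set A) := by rw [hg]; trivial
  induction ha using Submodule.span_induction with
  | mem x hx => exact Submodule.subset_span (by rw [Finset.coe_image]; exact ⟨x, hx, rfl⟩)
  | zero => rw [map_zero]; exact Submodule.zero_mem _
  | add x y _ _ hx hy => rw [map_add]; exact Submodule.add_mem _ (hx trivial) (hy trivial)
  | smul c x _ hx =>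
    have hc : q (algebraMap k A c) ∈ Subring.center B := by
      rw [Subring.mem_center_iff]
      intro y
      obtain ⟨y, rfl⟩ := hq y
      rw [← map_mul, ← map_mul, Algebra.commutes]
    have h1 : q (c • x) = (⟨_, hc⟩ : Subring.center B) • q x := by
      change _ = q (algebraMap k A c) * q x
      rw [← map_mul, Algebra.smul_def]
    rw [h1]
    exact Submodule.smul_mem _ _ (hx trivial)

/-- The endomorphism ring modulo its radical of a finitely generated module over a noetherian
algebra is finite over its centre. -/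
theorem finite_of_fg {k T N : Type} [CommRing k] [IsNoetherianRing k] [Ring T] [Algebra k T]
    [Module.Finite k T] [AddCommGroup N] [Module T N] (hN : Module.Finite T N)
    : FC (End T N ⧸ Ring.jacobson (End T N)) := by
  classical
  let _ : Module k N := Module.compHom N (algebraMap k T)
  have : IsScalarTower k T N := ⟨fun c t n => by
    rw [Algebra.smul_def, mul_smul]; rfl⟩
  have : SMulCommClass T k N := ⟨fun t c n => by
    change t • (algebraMap k T c) • n = (algebraMap k T c) • t • n
    rw [smul_smul, smul_smul, Algebra.commutes]⟩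
  have : Module.Finite k N := Module.Finite.trans T N
  obtain ⟨s, hs⟩ := hN
  let F : End T N →ₗ[k] (s → N) :=
    { toFun := fun h x => h x
      map_add' := fun a b => rfl
      map_smul' := fun c a => rfl }
  have hF : Function.Injective F := by
    intro a b hab
    apply LinearMap.ext
    intro n
    have hn : n ∈ Submodule.span T (s : Set N) := by rw [hs]; trivial
    induction hn using Submodule.span_induction with
    | mem x hx => exact congrFun hab ⟨x, hx⟩
    | zero => rw [map_zero, map_zero]
    | add x y _ _ hx hy => rw [map_add, map_add, hx, hy]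
    | smul c x _ hx => rw [map_smul, map_smul, hx]
  have : Module.Finite k (End T N) := Module.Finite.of_injective F hF
  exact fc_of_finite (k := k) (A := End T N) (Ideal.Quotient.mk (Ring.jacobson (End T N)))
    Ideal.Quotient.mk_surjective

end fin

/-- The dual of an indecomposable module of finite endolength whose endomorphism ring modulo its
radical is not finite over its centre is again such a module. -/
theorem exists_dual {S T : Type} [Ring S] [Ring T] (φ : T ≃+* Sᵐᵒᵖ) (M : Type) [AddCommGroup M]
    [Module S M] (hM : Nontrivial M)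
    (hind : ∀ N₁ N₂ : Submodule S M, IsCompl N₁ N₂ → N₁ = ⊥ ∨ N₂ = ⊥)
    (hlen : IsFiniteLength (End S M) M)
    (hcen : ¬ FC (End S M ⧸ Ring.jacobson (End S M))) :
    ∃ (N : Type) (_ : AddCommGroup N) (_ : Module T N),
        Nontrivial N ∧
        (∀ N₁ N₂ : Submodule T N, IsCompl N₁ N₂ → N₁ = ⊥ ∨ N₂ = ⊥) ∧
        IsFiniteLength (End T N) N ∧
        ¬ FC (End T N ⧸ Ring.jacobson (End T N)) := by
  obtain ⟨s, hs0, hs1⟩ := isFiniteLength_iff_exists_compositionSeries.mp hlen
  have : IsArtinian (End S M) M := (isFiniteLength_iff_isNoetherian_isArtinian.mp hlen).2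
  -- only trivial idempotents
  have hid : ∀ e : End S M, e * e = e → e = 0 ∨ e = 1 := by
    intro e he
    have h1 : IsIdempotentElem e := he
    rcases hind _ _ (LinearMap.IsIdempotentElem.isCompl h1) with h | h
    · exact Or.inl (LinearMap.range_eq_bot.mp h)
    · right
      apply LinearMap.ext
      intro m
      have h2 : e (m - e m) = 0 := by
        rw [map_sub]
        have h3 : e (e m) = e m := LinearMap.congr_fun he m
        rw [h3, sub_self]
      have h3 : m - e m ∈ LinearMap.ker e := h2
      rw [h, Submodule.mem_bot, sub_eq_zero] at h3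
      exact h3.symm
  -- a simple submodule
  obtain ⟨X, hX⟩ : ∃ X : Submodule (End S M) M, ⊥ ⋖ X := by
    have : IsAtomic (Submodule (End S M) M) := inferInstance
    obtain ⟨X, hX, -⟩ := (eq_bot_or_exists_atom_le (⊤ : Submodule (End S M) M)).resolve_left
      top_ne_bot
    exact ⟨X, bot_covBy_iff.mpr hX⟩
  obtain ⟨x₀, hx₀, hx₀'⟩ := Submodule.exists_mem_ne_zero_of_ne_bot hX.lt.ne'
  have hXs : ∀ W : Submodule (End S M) X, W ≠ ⊥ → W = ⊤ := by
    intro W hW
    have h1 : W.map X.subtype ≤ X := by
      rintro _ ⟨w, -, rfl⟩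
      exact w.2
    rcases hX.eq_or_eq bot_le h1 with h | h
    · exfalso
      apply hW
      rw [eq_bot_iff]
      intro w hw
      have h5 : X.subtype w ∈ W.map X.subtype := ⟨w, hw, rfl⟩
      rw [h] at h5
      have h6 : (w : M) = 0 := by simpa using h5
      exact (Submodule.mem_bot _).mpr (Subtype.ext h6)
    · rw [eq_top_iff]
      intro w _
      have h5 : (w : M) ∈ W.map X.subtype := by rw [h]; exact w.2
      obtain ⟨v, hv, hvw⟩ := h5
      have : v = w := Subtype.ext hvw
      rw [← this]
      exact hv
  have : Nontrivial X := ⟨⟨⟨x₀, hx₀⟩, 0, fun h => hx₀' (congrArg Subtype.val h)⟩⟩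
  have : IsSimpleModule (End S M) X := (isSimpleModule_iff _ _).mpr
    { exists_pair_ne := ⟨⊥, ⊤, bot_ne_top⟩
      eq_bot_or_eq_top := fun W => by
        by_cases hW : W = ⊥
        · exact Or.inl hW
        · exact Or.inr (hXs W hW) }
  obtain ⟨I, _, _, j, hj, hI, hess⟩ := exists_hull (End S M) X hXs
  -- the division ring
  have hD : ∀ d : End (End S M) X, d ≠ 0 → IsUnit d := by
    intro d hd
    exact (Module.End.isUnit_iff d).mpr (LinearMap.bijective_of_ne_zero hd)
  have : Nontrivial (End (End S M) X) := inferInstance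
  have hDop : ∀ d : (End (End S M) X)ᵐᵒᵖ, d ≠ 0 → IsUnit d := by
    intro d hd
    have h1 : IsUnit d.unop := hD _ (fun h => hd (MulOpposite.unop_injective h))
    exact h1.op
  let R := rho hI hX hx₀ hx₀' hj hess φ
  have hRs : Function.Surjective R := rho_surjective hI hX hx₀ hx₀' hj hess φ
  have hRn : ∀ h, R h = 0 → IsNilpotent h := fun h hh =>
    rho_nil hI hX hx₀ hx₀' hj hess s hs0 hs1 hh
  have hidem : ∀ p : End T (DualM φ M I), p * p = p → p = 0 ∨ p = 1 := by
    intro p hp
    have hnil : ∀ q : End T (DualM φ M I), q * q = q → R q = 0 → q = 0 := by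
      intro q hq hRq
      obtain ⟨n, hn⟩ := hRn q hRq
      have h1 : IsIdempotentElem q := hq
      rcases Nat.eq_zero_or_pos n with rfl | hn0
      · rw [pow_zero] at hn
        rw [← mul_one q, hn, mul_zero]
      · rwa [h1.pow_eq hn0.ne'] at hn
    by_cases h0 : R p = 0
    · exact Or.inl (hnil p hp h0)
    · right
      have h1 : R (1 - p) = 0 := by
        obtain ⟨u, hu⟩ := hD _ h0
        have h2 : R p * R (1 - p) = 0 := by
          rw [← map_mul, mul_sub, mul_one, hp, sub_self, map_zero]
        rw [← hu] at h2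
        have h3 := congrArg (fun y => (↑u⁻¹ : End (End S M) X) * y) h2
        simpa using h3
      have h2 : (1 - p) * (1 - p) = 1 - p := by
        rw [mul_sub, mul_one, sub_mul, one_mul, hp, sub_self, sub_zero]
      have h3 := hnil _ h2 h1
      exact (sub_eq_zero.mp h3).symm
  refine ⟨DualM φ M I, inferInstance, inferInstance, ?_, ?_,
    dual_finiteLength hI φ s hs0 hs1, ?_⟩
  · obtain ⟨t, ht⟩ := exists_iota (φ := φ) (j := j) hI
    refine ⟨⟨t, 0, fun h => ?_⟩⟩
    have h1 := ht ⟨x₀, hx₀⟩
    rw [h] at h1
    have h2 : j ⟨x₀, hx₀⟩ = 0 := h1.symm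
    have h3 : (⟨x₀, hx₀⟩ : X) = 0 := hj (by rw [h2, map_zero])
    exact hx₀' (congrArg Subtype.val h3)
  · intro N₁ N₂ hN
    have h1 : (N₁.projection N₂ hN : End T (DualM φ M I)) * N₁.projection N₂ hN =
        N₁.projection N₂ hN := by
      apply LinearMap.ext
      intro z
      exact Submodule.projection_apply_of_mem_left hN (Submodule.projection_apply_mem hN z)
    rcases hidem _ h1 with h | h
    · left
      rw [eq_bot_iff]
      intro z hz
      have h2 := Submodule.projection_apply_of_mem_left hN hz
      rw [h] at h2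
      rw [Submodule.mem_bot, ← h2]
      rfl
    · right
      rw [eq_bot_iff]
      intro z hz
      have h2 := (Submodule.projection_apply_eq_zero_iff hN).mpr hz
      rw [h] at h2
      rw [Submodule.mem_bot]
      exact h2
  · intro hfin
    apply hcen
    -- the two residue rings
    have h1 : FC (End (End S M) X) :=
      (fc_iff (A := End T (DualM φ M I)) (D := End (End S M) X)
        (rho hI hX hx₀ hx₀' hj hess φ) hRs hD hRn).mp hfin
    exact (fc_iff (A := End S M) (D := (End (End S M) X)ᵐᵒᵖ) (psi hid hX hx₀ hx₀')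
      (psi_surjective hid hX hx₀ hx₀') hDop (fun f hf =>
        nilpotent_of_kill hid hx₀' s hs0 hs1 (psi_eq_zero hid hX hx₀ hx₀' hf))).mpr (fc_op h1)

/-- Generic wildness passes to the other side. -/
theorem generic_dual {k S T : Type} [CommRing k] [IsNoetherianRing k] [Ring S] [Ring T]
    [Algebra k T] [Module.Finite k T] (φ : T ≃+* Sᵐᵒᵖ)
    (h : ∃ (M : Type) (_ : AddCommGroup M) (_ : Module S M),
        Nontrivial M ∧
        (∀ N₁ N₂ : Submodule S M, IsCompl N₁ N₂ → N₁ = ⊥ ∨ N₂ = ⊥) ∧
        IsFiniteLength (Module.End S M) M ∧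
        ¬ Module.Finite S M ∧
        ¬ FC (Module.End S M ⧸ Ring.jacobson (Module.End S M))) :
    ∃ (M : Type) (_ : AddCommGroup M) (_ : Module T M),
        Nontrivial M ∧
        (∀ N₁ N₂ : Submodule T M, IsCompl N₁ N₂ → N₁ = ⊥ ∨ N₂ = ⊥) ∧
        IsFiniteLength (Module.End T M) M ∧
        ¬ Module.Finite T M ∧
        ¬ FC (Module.End T M ⧸ Ring.jacobson (Module.End T M)) := by
  obtain ⟨M, _, _, h1, h2, h3, -, h5⟩ := h
  obtain ⟨N, _, _, g1, g2, g3, g4⟩ := exists_dual φ M h1 h2 h3 h5
  exact ⟨N, _, _, g1, g2, g3, fun hN => g4 (finite_of_fg (k := k) hN), g4⟩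

end Pool.Agent.H581R3
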