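import Mathlib

/-!
Injective modules: factorisation lemma, and injective hulls of simple modules.
-/

set_option autoImplicit false

namespace Pool.Agent.H581R3

universe u

section factor

variable {E : Type u} [Ring E] {I : Type u} [AddCommGroup I] [Module E I]
  {A B : Type*} [AddCommGroup A] [Module E A] [AddCommGroup B] [Module E B]

/-- Factorisation through a map with smaller kernel, for maps to an injective module. -/
theorem inj_factor (hI : Module.Injective E I) (f : A →ₗ[E] B) (g : A →ₗ[E] I)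
    (h : LinearMap.ker f ≤ LinearMap.ker g) : ∃ w : B →ₗ[E] I, ∀ a, w (f a) = g a := by
  let g' : LinearMap.range f →ₗ[E] I :=
    (LinearMap.ker f).liftQ g h ∘ₗ (f.quotKerEquivRange).symm.toLinearMap
  obtain ⟨w, hw⟩ := Module.Injective.extension_property E I (LinearMap.range f) B
    (LinearMap.range f).subtype (Submodule.injective_subtype _) g'
  refine ⟨w, fun a => ?_⟩
  have h1 := LinearMap.congr_fun hw ⟨f a, a, rfl⟩
  simp only [LinearMap.coe_comp, Function.comp_apply, Submodule.coe_subtype] at h1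
  rw [h1]
  have h2 : (f.quotKerEquivRange).symm ⟨f a, a, rfl⟩ = Submodule.Quotient.mk a := by
    rw [LinearEquiv.symm_apply_eq]
    rfl
  simp only [g', LinearMap.coe_comp, LinearEquiv.coe_coe, Function.comp_apply, h2]
  rfl

end factor

section hull

variable (E : Type) [Ring E] (X : Type) [AddCommGroup X] [Module E X]

theorem exists_injective : ∃ (I : Type) (_ : AddCommGroup I) (_ : Module E I) (j : X →ₗ[E] I),
    Function.Injective j ∧ Module.Injective E I := by
  obtain ⟨⟨J, inj, f, hf⟩⟩ := CategoryTheory.EnoughInjectives.presentation (ModuleCat.of E X)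
  refine ⟨J, inferInstance, inferInstance, f.hom, ?_, ?_⟩
  · exact (ModuleCat.mono_iff_injective f).mp hf
  · exact (Module.injective_iff_injective_object E J).mpr inj

/-- Injective hull of a simple module. -/
theorem exists_hull [Nontrivial X] (hsimple : ∀ W : Submodule E X, W ≠ ⊥ → W = ⊤) :
    ∃ (I : Type) (_ : AddCommGroup I) (_ : Module E I) (j : X →ₗ[E] I),
    Function.Injective j ∧ Module.Injective E I ∧
    ∀ W : Submodule E I, W ≠ ⊥ → LinearMap.range j ≤ W := by
  classical
  obtain ⟨I, _, _, j, hj, hI⟩ := exists_injective E X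
  let Z : Submodule E I := LinearMap.range j
  -- `Z` is simple
  have hZ : ∀ W : Submodule E I, W ≤ Z → W ≠ ⊥ → W = Z := by
    intro W hW hne
    have h1 : W.comap j = ⊤ := by
      apply hsimple
      intro h
      apply hne
      rw [eq_bot_iff]
      intro w hw
      obtain ⟨x, rfl⟩ := hW hw
      have : x ∈ W.comap j := hw
      rw [h] at this
      have hx : x = 0 := by simpa using this
      simp [hx]
    apply le_antisymm hW
    rintro _ ⟨x, rfl⟩
    have : x ∈ W.comap j := by rw [h1]; trivial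
    exact this
  have hZne : Z ≠ ⊥ := by
    intro h
    obtain ⟨x, hx⟩ := exists_ne (0 : X)
    have h1 : j x ∈ Z := ⟨x, rfl⟩
    rw [h] at h1
    exact hx (hj (by simpa using h1))
  -- a maximal essential extension
  let 𝓗 : Set (Submodule E I) := {H | Z ≤ H ∧ ∀ W ≤ H, W ≠ ⊥ → Z ≤ W}
  obtain ⟨H, hH1, hH2⟩ := zorn_le_nonempty₀ 𝓗 (by
    intro c hc hchain y hy
    refine ⟨sSup c, ⟨(hc hy).1.trans (le_sSup hy), ?_⟩, fun z hz => le_sSup hz⟩
    intro W hW hne
    obtain ⟨w, hw, hw0⟩ := Submodule.exists_mem_ne_zero_of_ne_bot hne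
    have h1 : w ∈ sSup c := hW hw
    rw [Submodule.mem_sSup_of_directed ⟨y, hy⟩ hchain.directedOn] at h1
    obtain ⟨K, hK, hwK⟩ := h1
    refine ((hc hK).2 (Submodule.span E {w}) (by rwa [Submodule.span_singleton_le_iff_mem])
      (by rwa [ne_eq, Submodule.span_singleton_eq_bot])).trans ?_
    rwa [Submodule.span_singleton_le_iff_mem]) Z ⟨le_rfl, fun W hW hne => (hZ W hW hne).ge⟩
  obtain ⟨⟨-, hHess⟩, hHmax⟩ := hH2
  -- a maximal complement
  obtain ⟨C, -, hC1, hCmax⟩ := zorn_le_nonempty₀ {C : Submodule E I | C ⊓ H = ⊥} (by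
    intro c hc hchain y hy
    refine ⟨sSup c, ?_, fun z hz => le_sSup hz⟩
    change sSup c ⊓ H = ⊥
    rw [eq_bot_iff]
    rintro w ⟨hw1, hw2⟩
    rw [SetLike.mem_coe, Submodule.mem_sSup_of_directed ⟨y, hy⟩ hchain.directedOn] at hw1
    obtain ⟨K, hK, hwK⟩ := hw1
    have h1 : K ⊓ H = ⊥ := hc hK
    rw [← h1]
    exact ⟨hwK, hw2⟩) ⊥ (by simp)
  -- essential image of `Z` in `I ⧸ C`
  have hess : ∀ W : Submodule E I, C < W → Z ≤ W := by
    intro W hW
    have h1 : W ⊓ H ≠ ⊥ := by
      intro h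
      exact absurd (hCmax h hW.le) (not_le_of_gt hW)
    exact (hHess _ inf_le_right h1).trans inf_le_left
  obtain ⟨ε, hε⟩ := inj_factor hI (C.mkQ ∘ₗ H.subtype) H.subtype (by
    intro h hh
    rw [LinearMap.mem_ker] at hh ⊢
    simp only [LinearMap.coe_comp, Function.comp_apply, Submodule.coe_subtype,
      Submodule.mkQ_apply, Submodule.Quotient.mk_eq_zero] at hh
    have : (h : I) ∈ C ⊓ H := ⟨hh, h.2⟩
    have hC1' : C ⊓ H = ⊥ := hC1
    rw [hC1'] at this
    simpa using this)
  have hε' : ∀ h ∈ H, ε (C.mkQ h) = h := fun h hh => hε ⟨h, hh⟩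
  let e : I →ₗ[E] I := ε ∘ₗ C.mkQ
  have he : ∀ h ∈ H, e h = h := hε'
  have hZH : Z ≤ H := hH1
  have hkere : ∀ y, e y = 0 → y ∈ C := by
    intro y hy
    by_contra hyC
    have h1 : C < LinearMap.ker e := by
      refine lt_of_le_of_ne ?_ ?_
      · intro c hc
        rw [LinearMap.mem_ker]
        change ε (C.mkQ c) = 0
        rw [(Submodule.Quotient.mk_eq_zero C).mpr hc |> fun h => (show C.mkQ c = 0 from h), map_zero]
      · intro h
        apply hyC
        rw [h]
        exact hy
    have h2 := hess _ h1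
    apply hZne
    rw [eq_bot_iff]
    intro z hz
    have h3 := h2 hz
    rw [LinearMap.mem_ker, he z (hZH hz)] at h3
    simpa using h3
  have hHr : H ≤ LinearMap.range e := fun h hh => ⟨h, he h hh⟩
  have hHeq : LinearMap.range e ≤ H := by
    apply hHmax ⟨hZH.trans hHr, ?_⟩ hHr
    intro W hW hne
    obtain ⟨w, hw, hw0⟩ := Submodule.exists_mem_ne_zero_of_ne_bot hne
    obtain ⟨y, rfl⟩ := hW hw
    have h1 : C < W.comap e := by
      refine lt_of_le_of_ne ?_ ?_
      · intro c hc
        change ε (C.mkQ c) ∈ W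
        rw [(Submodule.Quotient.mk_eq_zero C).mpr hc |> fun h => (show C.mkQ c = 0 from h), map_zero]
        exact W.zero_mem
      · intro h
        apply hw0
        have h3 : y ∈ C := by rw [h]; exact hw
        change ε (C.mkQ y) = 0
        rw [(Submodule.Quotient.mk_eq_zero C).mpr h3 |> fun h => (show C.mkQ y = 0 from h), map_zero]
    intro z hz
    have h2 : z ∈ W.comap e := hess _ h1 hz
    rw [Submodule.mem_comap, he z (hZH hz)] at h2
    exact h2
  -- `e` is a projection onto `H`
  let e' : I →ₗ[E] H := e.codRestrict H fun y => hHeq ⟨y, rfl⟩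
  have he' : ∀ h : H, e' (h : I) = h := fun h => Subtype.ext (he h h.2)
  refine ⟨H, inferInstance, inferInstance, j.codRestrict H fun x => hZH ⟨x, rfl⟩, ?_, ?_, ?_⟩
  · intro x y hxy
    exact hj (congrArg Subtype.val hxy)
  · refine ⟨fun A B _ _ _ _ f hf g => ?_⟩
    obtain ⟨w, hw⟩ := hI.out f hf (H.subtype ∘ₗ g)
    refine ⟨e' ∘ₗ w, fun x => ?_⟩
    rw [LinearMap.comp_apply, hw]
    exact he' _
  · intro W hW
    have h1 : W.map H.subtype ≠ ⊥ := by
      intro h
      apply hW
      rw [eq_bot_iff]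
      intro w hw
      have h5 : H.subtype w ∈ W.map H.subtype := ⟨w, hw, rfl⟩
      rw [h] at h5
      have h6 : (w : I) = 0 := by simpa using h5
      exact (Submodule.mem_bot E).mpr (Subtype.ext h6)
    have h2 : Z ≤ W.map H.subtype := hHess _ (by
      rintro _ ⟨w, -, rfl⟩
      exact w.2) h1
    rintro _ ⟨x, rfl⟩
    obtain ⟨w, hw, hwx⟩ := h2 ⟨x, rfl⟩
    have h3 : w = (j.codRestrict H fun x => hZH ⟨x, rfl⟩) x := Subtype.ext hwx
    rw [← h3]
    exact hw

end hull

end Pool.Agent.H581R3
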