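import Mathlib

set_option autoImplicit false

/-! Task A2fwd of project H74-LW (helper74): if the ring of integers of the splitting field of the monic `f`
has a homomorphism to `ZMod p` then `f` splits modulo `p` (helper581). -/

namespace Pool.Agent.H581R3.LW

open Polynomial NumberField

theorem a2_fwd : ∀ (L : Type) [Field L] [NumberField L] (f : ℤ[X]), f.Monic →
    IsSplittingField ℚ L (f.map (Int.castRingHom ℚ)) →
    ∀ p : ℕ, p.Prime → Nonempty (𝓞 L →+* ZMod p) →
      (f.map (Int.castRingHom (ZMod p))).Splits := by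
  intro L _ _ f hf hL p hp ⟨φ⟩
  have h1 : ((f.map (Int.castRingHom ℚ)).map (algebraMap ℚ L)).Splits := hL.splits
  have e1 : (f.map (Int.castRingHom ℚ)).map (algebraMap ℚ L) =
      (f.map (algebraMap ℤ (𝓞 L))).map (algebraMap (𝓞 L) L) := by
    rw [Polynomial.map_map, Polynomial.map_map]
    congr 1
    exact RingHom.ext_int _ _
  rw [e1] at h1
  have h2 : (f.map (algebraMap ℤ (𝓞 L))).Splits := by
    refine Splits.of_splits_map_of_injective (RingOfIntegers.coe_injective) h1 ?_
    intro a ha
    have h3 : IsIntegral ℤ a := by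
      refine ⟨f, hf, ?_⟩
      have h4 := (Polynomial.mem_roots'.1 ha).2
      rw [Polynomial.IsRoot.def, Polynomial.map_map, Polynomial.eval_map] at h4
      rw [← h4]
      congr 1
    exact ⟨⟨a, h3⟩, rfl⟩
  have h5 := h2.map φ
  rw [Polynomial.map_map] at h5
  have e2 : φ.comp (algebraMap ℤ (𝓞 L)) = Int.castRingHom (ZMod p) := RingHom.ext_int _ _
  rw [e2] at h5
  exact h5

end Pool.Agent.H581R3.LW
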