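import Pool.Agent.H581R3.Dual

/-!
The dual of an indecomposable module of finite endolength.
-/

set_option autoImplicit false

namespace Pool.Agent.H581R3

open Module (End)

section main

variable {S T : Type} [Ring S] [Ring T] {φ : T ≃+* Sᵐᵒᵖ} {M I : Type} [AddCommGroup M]
  [Module S M] [AddCommGroup I] [Module (End S M) I] [IsArtinian (End S M) M]
  (hI : Module.Injective (End S M) I) {X : Submodule (End S M) M} (hX : ⊥ ⋖ X)
  {x₀ : M} (hx₀ : x₀ ∈ X) (hx₀' : x₀ ≠ 0) {j : X →ₗ[End S M] I} (hj : Function.Injective j)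
  (hess : ∀ W : Submodule (End S M) I, W ≠ ⊥ → LinearMap.range j ≤ W)

omit [IsArtinian (End S M) M] in
include hI in
theorem exists_iota : ∃ t : DualM φ M I, ∀ a : X, ev t a = j a := by
  obtain ⟨w, hw⟩ := inj_factor hI X.subtype j (by
    rw [Submodule.ker_subtype]; exact bot_le)
  exact ⟨mkD φ w, hw⟩

omit [IsArtinian (End S M) M] in
include hx₀' hj hess in
/-- Values of a map vanishing on `V`, on a submodule `U` covering `V`, lie in the socle. -/
theorem soc {V U : Submodule (End S M) M} (hVU : V ⋖ U) (z : M →ₗ[End S M] I)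
    (hz : ∀ a ∈ V, z a = 0) {u : M} (hu : u ∈ U) (hx₀ : x₀ ∈ X) : ∃ a : X, z u = j a := by
  by_cases hW : U.map z = ⊥
  · refine ⟨0, ?_⟩
    have h1 : z u ∈ U.map z := ⟨u, hu, rfl⟩
    rw [hW] at h1
    rw [map_zero]
    simpa using h1
  · have h1 := hess _ hW
    have h2 : V ≤ U ⊓ (LinearMap.range j).comap z := by
      intro v hv
      refine ⟨hVU.le hv, ?_⟩
      change z v ∈ LinearMap.range j
      rw [hz v hv]
      exact Submodule.zero_mem _
    rcases hVU.eq_or_eq h2 inf_le_left with h3 | h3
    · exfalso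
      obtain ⟨v, hv, hvx⟩ := h1 ⟨⟨x₀, hx₀⟩, rfl⟩
      have h4 : v ∈ U ⊓ (LinearMap.range j).comap z := ⟨hv, by
        change z v ∈ LinearMap.range j
        rw [hvx]; exact ⟨_, rfl⟩⟩
      rw [h3] at h4
      rw [hz v h4] at hvx
      have h5 : (⟨x₀, hx₀⟩ : X) = 0 := hj (by rw [← hvx, map_zero])
      exact hx₀' (congrArg Subtype.val h5)
    · have h4 : u ∈ U ⊓ (LinearMap.range j).comap z := by rw [h3]; exact hu
      obtain ⟨a, ha⟩ := h4.2
      exact ⟨a, ha.symm⟩

omit [IsArtinian (End S M) M] in
include hX hx₀ hx₀' hj hess in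
theorem exists_gamma (z : M →ₗ[End S M] I) : ∃ γ : End (End S M) X, ∀ a : X, z a = j (γ a) := by
  have h1 : ∀ a : X, z a ∈ LinearMap.range j := by
    intro a
    obtain ⟨b, hb⟩ := soc hx₀' hj hess hX z (fun a ha => by
      rw [Submodule.mem_bot] at ha
      rw [ha, map_zero]) a.2 hx₀
    exact ⟨b, hb.symm⟩
  refine ⟨(LinearEquiv.ofInjective j hj).symm.toLinearMap ∘ₗ
    (z ∘ₗ X.subtype).codRestrict (LinearMap.range j) h1, fun a => ?_⟩
  have h2 := LinearEquiv.apply_symm_apply (LinearEquiv.ofInjective j hj)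
    ((z ∘ₗ X.subtype).codRestrict (LinearMap.range j) h1 a)
  exact (congrArg Subtype.val h2).symm

/-- The ring homomorphism `End_T (Hom_E(M, I)) → End_E X`. -/
noncomputable def rho (φ : T ≃+* Sᵐᵒᵖ) : End T (DualM φ M I) →+* End (End S M) X where
  toFun h := (exists_gamma hX hx₀ hx₀' hj hess
    (ev (h (exists_iota (φ := φ) (j := j) hI).choose))).choose
  map_one' := by
    apply LinearMap.ext
    intro a
    apply hj
    rw [← (exists_gamma hX hx₀ hx₀' hj hess
      (ev ((1 : End T (DualM φ M I)) (exists_iota (φ := φ) (j := j) hI).choose))).choose_spec]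
    exact (exists_iota (φ := φ) (j := j) hI).choose_spec a
  map_mul' h h' := by
    apply LinearMap.ext
    intro a
    apply hj
    rw [← (exists_gamma hX hx₀ hx₀' hj hess
      (ev ((h * h') (exists_iota (φ := φ) (j := j) hI).choose))).choose_spec]
    change _ = j ((exists_gamma hX hx₀ hx₀' hj hess
      (ev (h (exists_iota (φ := φ) (j := j) hI).choose))).choose
      ((exists_gamma hX hx₀ hx₀' hj hess
      (ev (h' (exists_iota (φ := φ) (j := j) hI).choose))).choose a))
    rw [← (exists_gamma hX hx₀ hx₀' hj hess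
      (ev (h (exists_iota (φ := φ) (j := j) hI).choose))).choose_spec]
    apply pres_two hI h
    rw [(exists_gamma hX hx₀ hx₀' hj hess
      (ev (h' (exists_iota (φ := φ) (j := j) hI).choose))).choose_spec]
    exact ((exists_iota (φ := φ) (j := j) hI).choose_spec _).symm
  map_zero' := by
    apply LinearMap.ext
    intro a
    apply hj
    rw [← (exists_gamma hX hx₀ hx₀' hj hess
      (ev ((0 : End T (DualM φ M I)) (exists_iota (φ := φ) (j := j) hI).choose))).choose_spec]
    rw [LinearMap.zero_apply, LinearMap.zero_apply, map_zero]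
    rfl
  map_add' h h' := by
    apply LinearMap.ext
    intro a
    apply hj
    rw [← (exists_gamma hX hx₀ hx₀' hj hess
      (ev ((h + h') (exists_iota (φ := φ) (j := j) hI).choose))).choose_spec]
    rw [LinearMap.add_apply, LinearMap.add_apply, map_add, ev_add, LinearMap.add_apply]
    rw [(exists_gamma hX hx₀ hx₀' hj hess
      (ev (h (exists_iota (φ := φ) (j := j) hI).choose))).choose_spec]
    rw [(exists_gamma hX hx₀ hx₀' hj hess
      (ev (h' (exists_iota (φ := φ) (j := j) hI).choose))).choose_spec]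

theorem rho_spec (φ : T ≃+* Sᵐᵒᵖ) (h : End T (DualM φ M I)) (a : X) :
    ev (h (exists_iota (φ := φ) (j := j) hI).choose) a =
      j (rho hI hX hx₀ hx₀' hj hess φ h a) :=
  (exists_gamma hX hx₀ hx₀' hj hess
      (ev (h (exists_iota (φ := φ) (j := j) hI).choose))).choose_spec a

/-- Post-composition with an endomorphism of `I`. -/
def post (φ : T ≃+* Sᵐᵒᵖ) (w : I →ₗ[End S M] I) : End T (DualM φ M I) where
  toFun z := mkD φ (w ∘ₗ ev z)
  map_add' y z := by
    apply ev_inj
    intro m
    exact map_add w _ _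
  map_smul' t z := rfl

omit [IsArtinian (End S M) M] in
theorem ev_post (w : I →ₗ[End S M] I) (z : DualM φ M I) (m : M) :
    ev (post φ w z) m = w (ev z m) := rfl

theorem rho_surjective (φ : T ≃+* Sᵐᵒᵖ) :
    Function.Surjective (rho hI hX hx₀ hx₀' hj hess φ) := by
  intro γ
  obtain ⟨w, hw⟩ := inj_factor hI j (j ∘ₗ γ) (by
    rw [LinearMap.ker_eq_bot.mpr hj]; exact bot_le)
  refine ⟨post φ w, ?_⟩
  apply LinearMap.ext
  intro a
  apply hj
  rw [← rho_spec, ev_post, (exists_iota (φ := φ) (j := j) hI).choose_spec, hw]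
  rfl

theorem rho_lower {h : End T (DualM φ M I)} (hh : rho hI hX hx₀ hx₀' hj hess φ h = 0)
    {V U : Submodule (End S M) M} (hVU : V ⋖ U) (z : DualM φ M I)
    (hz : ∀ a ∈ V, ev z a = 0) : ∀ u ∈ U, ev (h z) u = 0 := by
  intro u hu
  obtain ⟨a, ha⟩ := soc hx₀' hj hess hVU (ev z) hz hu hx₀
  rw [pres_two hI h z (exists_iota (φ := φ) (j := j) hI).choose u a (by
    rw [ha, (exists_iota (φ := φ) (j := j) hI).choose_spec]), rho_spec hI hX hx₀ hx₀' hj hess, hh]
  rw [LinearMap.zero_apply, map_zero]

theorem rho_nil (s : CompositionSeries (Submodule (End S M) M)) (hs0 : s.head = ⊥)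
    (hs1 : s.last = ⊤) {h : End T (DualM φ M I)} (hh : rho hI hX hx₀ hx₀' hj hess φ h = 0) :
    IsNilpotent h := by
  have key : ∀ i : Fin (s.length + 1), ∀ z : DualM φ M I, ∀ u ∈ s i,
      ev ((h ^ (i : ℕ)) z) u = 0 := by
    intro i
    induction i using Fin.induction with
    | zero =>
      intro z u hu
      have : s 0 = ⊥ := hs0
      rw [this, Submodule.mem_bot] at hu
      rw [hu, map_zero]
    | succ i ih =>
      intro z u hu
      have h1 := rho_lower hI hX hx₀ hx₀' hj hess hh (s.step i) ((h ^ (i : ℕ)) z)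
        (fun a ha => ih z a ha) u hu
      rw [Fin.val_succ, pow_succ']
      exact h1
  refine ⟨s.length, ?_⟩
  apply LinearMap.ext
  intro z
  apply ev_inj
  intro m
  have := key (Fin.last _) z m (by
    have h1 : s (Fin.last s.length) = ⊤ := hs1
    rw [h1]; trivial)
  exact this

/-- The elements of the dual vanishing on `V`, as a submodule over the endomorphism ring. -/
def annSub (φ : T ≃+* Sᵐᵒᵖ) (V : Submodule (End S M) M) :
    Submodule (End T (DualM φ M I)) (DualM φ M I) where
  carrier := {z | ∀ a ∈ V, ev z a = 0}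
  add_mem' := by
    intro y z hy hz a ha
    rw [ev_add, LinearMap.add_apply, hy a ha, hz a ha, add_zero]
  zero_mem' := fun a _ => rfl
  smul_mem' := by
    intro h z hz a ha
    exact pres_zero hI h z a (hz a ha)

theorem mem_annSub (V : Submodule (End S M) M) (z : DualM φ M I) :
    z ∈ annSub hI φ V ↔ ∀ a ∈ V, ev z a = 0 := Iff.rfl

theorem annSub_step {V U : Submodule (End S M) M} (hVU : V ⋖ U) :
    annSub hI φ U = annSub hI φ V ∨ annSub hI φ U ⋖ annSub hI φ V := by
  by_cases heq : annSub hI φ U = annSub hI φ V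
  · exact Or.inl heq
  · right
    have hle : annSub hI φ U ≤ annSub hI φ V := fun z hz a ha => hz a (hVU.le ha)
    refine ⟨lt_of_le_of_ne hle heq, ?_⟩
    intro Q hQ1 hQ2
    apply absurd hQ2
    apply not_lt_of_ge
    obtain ⟨z, hzQ, hzU⟩ := Set.exists_of_ssubset hQ1
    intro z' hz'
    have hz := hQ2.le hzQ
    obtain ⟨w, hw⟩ := inj_factor hI (ev z ∘ₗ U.subtype) (ev z' ∘ₗ U.subtype) (by
      intro u hu
      rw [LinearMap.mem_ker] at hu ⊢
      have h1 : V ≤ U ⊓ LinearMap.ker (ev z) := fun v hv => ⟨hVU.le hv, hz v hv⟩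
      rcases hVU.eq_or_eq h1 inf_le_left with h2 | h2
      · have h3 : (u : M) ∈ U ⊓ LinearMap.ker (ev z) := ⟨u.2, hu⟩
        rw [h2] at h3
        exact hz' _ h3
      · exfalso
        apply hzU
        intro a ha
        have h3 : a ∈ U ⊓ LinearMap.ker (ev z) := by rw [h2]; exact ha
        exact h3.2)
    have h4 : z' - post φ w z ∈ annSub hI φ U := by
      intro a ha
      rw [ev_sub, LinearMap.sub_apply, ev_post]
      have := hw ⟨a, ha⟩
      simp only [LinearMap.coe_comp, Function.comp_apply, Submodule.coe_subtype] at this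
      rw [this, sub_self]
    have h5 : post φ w z ∈ Q := Q.smul_mem (post φ w) hzQ
    have := Q.add_mem (hQ1.le h4) h5
    simpa using this

theorem finiteLength_step {A N : Type*} [Ring A] [AddCommGroup N] [Module A N]
    {P Q : Submodule A N} (h : P = Q ∨ P ⋖ Q) (hP : IsFiniteLength A P) : IsFiniteLength A Q := by
  rcases h with rfl | cov
  · exact hP
  · have h1 := (covBy_iff_quot_is_simple cov.le).mp cov
    have h2 := (P.comap Q.subtype).equivMapOfInjective _ (Submodule.injective_subtype _)
    rw [Submodule.map_comap_subtype, inf_of_le_right cov.le] at h2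
    exact .of_simple_quotient (h2.symm.isFiniteLength hP)

include hI in
theorem dual_finiteLength (φ : T ≃+* Sᵐᵒᵖ) (s : CompositionSeries (Submodule (End S M) M))
    (hs0 : s.head = ⊥) (hs1 : s.last = ⊤) :
    IsFiniteLength (End T (DualM φ M I)) (DualM φ M I) := by
  have key : ∀ i : Fin (s.length + 1),
      IsFiniteLength (End T (DualM φ M I)) (annSub hI φ (s i)) := by
    intro i
    induction i using Fin.reverseInduction with
    | last =>
      have h1 : s (Fin.last s.length) = ⊤ := hs1
      have h2 : annSub hI φ (s (Fin.last s.length)) = ⊥ := by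
        rw [eq_bot_iff]
        intro z hz
        rw [Submodule.mem_bot]
        apply ev_inj
        intro m
        exact hz m (by rw [h1]; trivial)
      rw [h2]
      exact .of_subsingleton
    | cast i ih =>
      exact finiteLength_step (annSub_step hI (s.step i)) ih
  have h0 := key 0
  have h1 : s 0 = ⊥ := hs0
  have h2 : annSub hI φ (s 0) = ⊤ := by
    rw [eq_top_iff]
    intro z _ a ha
    rw [h1, Submodule.mem_bot] at ha
    rw [ha, map_zero]
  rw [h2] at h0
  exact Submodule.topEquiv.isFiniteLength h0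

end main

end Pool.Agent.H581R3
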