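import Pool.Agent.H39R3.PB.Basic

/-!
Task PB of project H39-PAL (helper39): the collision probability (helper581).
-/

set_option autoImplicit false

namespace Pool.Agent.H581R3.PB

open Finset Filter Topology Pool.Agent.Helper112 Pool.Agent.H39R3.PB

/-! ### the function `sin t / t * exp (t² / 6)` is decreasing -/

lemma m_nonneg {t : ℝ} (h0 : 0 ≤ t) (h1 : t ≤ Real.pi) : 0 ≤ Real.sin t - t * Real.cos t := by
  have hd : ∀ x : ℝ, HasDerivAt (fun t => Real.sin t - t * Real.cos t) (x * Real.sin x) x := by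
    intro x
    have h := (Real.hasDerivAt_sin x).sub ((hasDerivAt_id x).mul (Real.hasDerivAt_cos x))
    refine h.congr_deriv ?_
    simp only [id]
    ring
  have hm : MonotoneOn (fun t => Real.sin t - t * Real.cos t) (Set.Icc 0 Real.pi) := by
    apply monotoneOn_of_deriv_nonneg (convex_Icc _ _)
    · exact fun x _ => (hd x).continuousAt.continuousWithinAt
    · exact fun x _ => (hd x).differentiableAt.differentiableWithinAt
    · intro x hx
      rw [(hd x).deriv]
      rw [interior_Icc] at hx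
      exact mul_nonneg hx.1.le (Real.sin_nonneg_of_nonneg_of_le_pi hx.1.le hx.2.le)
  have h := hm (Set.left_mem_Icc.2 Real.pi_pos.le) ⟨h0, h1⟩ h0
  simpa using h

lemma k_nonneg {t : ℝ} (h0 : 0 ≤ t) (h1 : t ≤ Real.pi) :
    0 ≤ (1 - t ^ 2 / 3) * Real.sin t - t * Real.cos t := by
  have hd : ∀ x : ℝ, HasDerivAt (fun t => (1 - t ^ 2 / 3) * Real.sin t - t * Real.cos t)
      (x / 3 * (Real.sin x - x * Real.cos x)) x := by
    intro x
    have h1 : HasDerivAt (fun t : ℝ => 1 - t ^ 2 / 3) (-(2 * x / 3)) x := by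
      have h := ((hasDerivAt_pow 2 x).div_const 3).const_sub 1
      refine h.congr_deriv ?_
      norm_num
    have h := (h1.mul (Real.hasDerivAt_sin x)).sub ((hasDerivAt_id x).mul (Real.hasDerivAt_cos x))
    refine h.congr_deriv ?_
    simp only [id]
    ring
  have hm : MonotoneOn (fun t => (1 - t ^ 2 / 3) * Real.sin t - t * Real.cos t)
      (Set.Icc 0 Real.pi) := by
    apply monotoneOn_of_deriv_nonneg (convex_Icc _ _)
    · exact fun x _ => (hd x).continuousAt.continuousWithinAt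
    · exact fun x _ => (hd x).differentiableAt.differentiableWithinAt
    · intro x hx
      rw [(hd x).deriv]
      rw [interior_Icc] at hx
      exact mul_nonneg (by have := hx.1; positivity) (m_nonneg hx.1.le hx.2.le)
  have h := hm (Set.left_mem_Icc.2 Real.pi_pos.le) ⟨h0, h1⟩ h0
  simpa using h

lemma F_anti : AntitoneOn (fun t : ℝ => Real.sin t / t * Real.exp (t ^ 2 / 6))
    (Set.Ioc 0 Real.pi) := by
  have hd : ∀ x : ℝ, x ≠ 0 → HasDerivAt (fun t : ℝ => Real.sin t / t * Real.exp (t ^ 2 / 6))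
      (-(Real.exp (x ^ 2 / 6) / x ^ 2 * ((1 - x ^ 2 / 3) * Real.sin x - x * Real.cos x))) x := by
    intro x hx
    have h1 : HasDerivAt (fun t : ℝ => Real.exp (t ^ 2 / 6))
        (Real.exp (x ^ 2 / 6) * (x / 3)) x := by
      have h := ((hasDerivAt_pow 2 x).div_const 6).exp
      refine h.congr_deriv ?_
      norm_num
      ring
    have h2 := (Real.hasDerivAt_sin x).div (hasDerivAt_id x) hx
    have h := h2.mul h1
    refine h.congr_deriv ?_
    simp only [id, Pi.div_apply]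
    field_simp
    ring
  apply antitoneOn_of_deriv_nonpos (convex_Ioc _ _)
  · exact fun x hx => (hd x hx.1.ne').continuousAt.continuousWithinAt
  · intro x hx
    rw [interior_Ioc] at hx
    exact (hd x hx.1.ne').differentiableAt.differentiableWithinAt
  · intro x hx
    rw [interior_Ioc] at hx
    rw [(hd x hx.1.ne').deriv]
    have := k_nonneg hx.1.le hx.2.le
    have h3 : 0 ≤ Real.exp (x ^ 2 / 6) / x ^ 2 := by positivity
    have := mul_nonneg h3 this
    linarith

/-! ### bounds for `ph` -/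

lemma norm_D (b : ℕ) (x : ℝ) : ‖∑ m ∈ range b, ee (m * x)‖ * |Real.sin (Real.pi * x)| =
    |Real.sin (Real.pi * (b * x))| := by
  have h1 : (∑ m ∈ range b, ee (m * x)) * (ee x - 1) = ee (b * x) - 1 := by
    simp only [ls_ee_nat_mul]
    exact geom_sum_mul _ _
  have h2 := congrArg norm h1
  rw [norm_mul, ls_norm_ee_sub_one, ls_norm_ee_sub_one, abs_mul, abs_mul] at h2
  have h3 : |(2:ℝ)| = 2 := by norm_num
  rw [h3] at h2
  linarith

lemma ph_neg (b : ℕ) (x : ℝ) : ph b (-x) = ph b x := by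
  unfold ph
  congr 1
  have : ∑ m ∈ range b, ee (m * -x) = (starRingEnd ℂ) (∑ m ∈ range b, ee (m * x)) := by
    rw [map_sum]
    refine sum_congr rfl fun m _ => ?_
    rw [ls_conj_ee]
    congr 1
    ring
  rw [this, RCLike.norm_conj]

lemma ph_gauss {b : ℕ} (hb : 2 ≤ b) {x : ℝ} (h0 : 0 < x) (h1 : x ≤ 1 / b) :
    ph b x ≤ Real.exp (-(((b : ℝ) ^ 2 - 1) * (Real.pi * x) ^ 2 / 6)) := by
  have hb' : (2 : ℝ) ≤ b := by exact_mod_cast hb
  have hb0 : (0 : ℝ) < b := by linarith
  have hpi := Real.pi_pos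
  have hbx : (b : ℝ) * x ≤ 1 := by
    rw [le_div_iff₀ hb0] at h1; linarith
  set θ : ℝ := Real.pi * x with hθ
  have hθ0 : 0 < θ := by positivity
  have hbθ : (b : ℝ) * θ ≤ Real.pi := by
    have : (b : ℝ) * θ = Real.pi * (b * x) := by rw [hθ]; ring
    rw [this]
    nlinarith
  have hθ1 : θ < Real.pi := by nlinarith
  have hF := F_anti ⟨hθ0, hθ1.le⟩ (⟨by positivity, hbθ⟩ : (b : ℝ) * θ ∈ Set.Ioc 0 Real.pi)
    (by nlinarith)
  have hs : 0 < Real.sin θ := Real.sin_pos_of_pos_of_lt_pi hθ0 hθ1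
  have hs2 : 0 ≤ Real.sin (b * θ) := Real.sin_nonneg_of_nonneg_of_le_pi (by positivity) hbθ
  have hD := norm_D b x
  have e1 : Real.pi * ((b : ℝ) * x) = b * θ := by rw [hθ]; ring
  rw [e1, ← hθ, abs_of_pos hs, abs_of_nonneg hs2] at hD
  simp only at hF
  unfold ph
  have hexp : Real.exp (-(((b : ℝ) ^ 2 - 1) * θ ^ 2 / 6)) =
      Real.exp (θ ^ 2 / 6) / Real.exp ((b * θ) ^ 2 / 6) := by
    rw [← Real.exp_sub]
    congr 1
    ring
  rw [hexp, div_le_div_iff₀ hb0 (Real.exp_pos _)]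
  rw [← hD] at hF
  generalize ‖∑ m ∈ range b, ee (m * x)‖ = D at *
  have h5 : D * Real.sin θ / (b * θ) * Real.exp ((b * θ) ^ 2 / 6) =
      (D * Real.exp ((b * θ) ^ 2 / 6) / b) * (Real.sin θ / θ) := by
    field_simp
  have h6 : Real.sin θ / θ * Real.exp (θ ^ 2 / 6) = Real.exp (θ ^ 2 / 6) * (Real.sin θ / θ) := by
    ring
  rw [h5, h6] at hF
  have h7 : 0 < Real.sin θ / θ := by positivity
  have h8 := le_of_mul_le_mul_right hF h7
  rw [div_le_iff₀ hb0] at h8
  exact h8

lemma ph_tail {b : ℕ} (hb : 2 ≤ b) {x : ℝ} (h0 : 1 / b ≤ x) (h1 : x ≤ 1 / 2) :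
    ph b x ≤ 1 / 2 := by
  have hb' : (2 : ℝ) ≤ b := by exact_mod_cast hb
  have hb0 : (0 : ℝ) < b := by linarith
  have hpi := Real.pi_pos
  have hx0 : 0 < x := lt_of_lt_of_le (by positivity) h0
  have hs : 2 * x ≤ Real.sin (Real.pi * x) := by
    have h := Real.mul_le_sin (x := Real.pi * x) (by positivity) (by nlinarith)
    have e : 2 / Real.pi * (Real.pi * x) = 2 * x := by field_simp
    rw [e] at h
    exact h
  have hD := norm_D b x
  rw [abs_of_pos (lt_of_lt_of_le (by positivity) hs)] at hD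
  have h2 : |Real.sin (Real.pi * (b * x))| ≤ 1 := Real.abs_sin_le_one _
  have h3 : 2 / b ≤ Real.sin (Real.pi * x) := by
    refine le_trans ?_ hs
    have : 2 / (b : ℝ) = 2 * (1 / b) := by ring
    rw [this]
    linarith
  unfold ph
  rw [div_le_iff₀ hb0]
  set D := ‖∑ m ∈ range b, ee (m * x)‖
  have hD0 : 0 ≤ D := norm_nonneg _
  have h4 : D * (2 / b) ≤ 1 := by
    calc D * (2 / b) ≤ D * Real.sin (Real.pi * x) := by gcongr
      _ ≤ 1 := by rw [hD]; exact h2
  have h5 : D * 2 ≤ b := by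
    have : D * (2 / b) = D * 2 / b := by ring
    rw [this, div_le_one hb0] at h4
    exact h4
  linarith

/-- the constant in the Gaussian bound -/
noncomputable def cG (b : ℕ) : ℝ := b * ((b : ℝ) ^ 2 - 1) * Real.pi ^ 2 / 3

lemma ph_bound {b : ℕ} (hb : 2 ≤ b) {x : ℝ} (h : |x| ≤ 1 / 2) :
    ph b x ^ (2 * b) ≤ Real.exp (-cG b * x ^ 2) + (1 / 4) ^ b := by
  have key : ∀ y : ℝ, 0 ≤ y → y ≤ 1 / 2 →
      ph b y ^ (2 * b) ≤ Real.exp (-cG b * y ^ 2) + (1 / 4) ^ b := by
    intro y hy0 hy1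
    have hp : 0 ≤ ((1:ℝ) / 4) ^ b := by positivity
    rcases eq_or_lt_of_le hy0 with hy | hy
    · subst hy
      have h1 : ph b 0 ^ (2 * b) ≤ 1 := pow_le_one₀ (ph_nonneg _ _) (ph_le_one _ _)
      have h2 : Real.exp (-cG b * 0 ^ 2) = 1 := by simp
      rw [h2]
      exact h1.trans (le_add_of_nonneg_right hp)
    · rcases le_total y (1 / b) with hyb | hyb
      · have h1 := ph_gauss hb hy hyb
        have h2 : ph b y ^ (2 * b) ≤
            Real.exp (-(((b : ℝ) ^ 2 - 1) * (Real.pi * y) ^ 2 / 6)) ^ (2 * b) :=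
          pow_le_pow_left₀ (ph_nonneg _ _) h1 _
        have h3 : Real.exp (-(((b : ℝ) ^ 2 - 1) * (Real.pi * y) ^ 2 / 6)) ^ (2 * b) =
            Real.exp (-cG b * y ^ 2) := by
          rw [← Real.exp_nat_mul]
          congr 1
          unfold cG
          push_cast
          ring
        rw [h3] at h2
        linarith
      · have h1 := ph_tail hb hyb hy1
        have h2 : ph b y ^ (2 * b) ≤ (1 / 2) ^ (2 * b) :=
          pow_le_pow_left₀ (ph_nonneg _ _) h1 _
        have h3 : ((1:ℝ) / 2) ^ (2 * b) = (1 / 4) ^ b := by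
          rw [pow_mul]; norm_num
        rw [h3] at h2
        have := Real.exp_pos (-cG b * y ^ 2)
        linarith
  rcases abs_cases x with hx | hx
  · exact key x hx.2 (by rw [hx.1] at h; exact h)
  · have h1 := key (-x) (by linarith [hx.2]) (by rw [hx.1] at h; exact h)
    rw [ph_neg] at h1
    simpa using h1

/-! ### Parseval -/

lemma ee_cont : Continuous ee := by
  unfold ee
  fun_prop

lemma ph_cont (b : ℕ) : Continuous (ph b) := by
  unfold ph
  have h : Continuous fun β : ℝ => ∑ m ∈ range b, ee (m * β) :=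
    continuous_finsetSum _ fun m _ => ee_cont.comp (continuous_const.mul continuous_id)
  exact h.norm.div_const _

lemma int_ee (k : ℤ) : ∫ x in (0:ℝ)..1, ee (k * x) = if k = 0 then 1 else 0 := by
  split_ifs with h
  · subst h
    simp [ls_ee_zero]
  · have hc : (2 * Real.pi * k * Complex.I : ℂ) ≠ 0 := by
      have h1 : (k : ℂ) ≠ 0 := by exact_mod_cast h
      have h2 : (Real.pi : ℂ) ≠ 0 := by exact_mod_cast Real.pi_ne_zero
      simp [h1, h2, Complex.I_ne_zero]
    have e : ∀ x : ℝ, ee (k * x) = Complex.exp ((2 * Real.pi * k * Complex.I) * x) := by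
      intro x
      unfold ee
      congr 1
      push_cast
      ring
    simp only [e]
    rw [integral_exp_mul_complex hc]
    have h3 : Complex.exp (2 * Real.pi * k * Complex.I * (1 : ℝ)) = 1 := by
      have := ls_ee_int k
      unfold ee at this
      rw [← this]
      congr 1
      push_cast
      ring
    rw [h3]
    simp

lemma parseval (w : ℕ → ℝ) (N : ℕ) :
    ∫ x in (0:ℝ)..1, ‖∑ s ∈ range N, (w s : ℂ) * ee (s * x)‖ ^ 2 = ∑ s ∈ range N, w s ^ 2 := by
  have h1 : ∀ x : ℝ, ((‖∑ s ∈ range N, (w s : ℂ) * ee (s * x)‖ ^ 2 : ℝ) : ℂ) =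
      ∑ s ∈ range N, ∑ t ∈ range N, ((w s * w t : ℝ) : ℂ) * ee (((s : ℤ) - (t : ℤ) : ℤ) * x) := by
    intro x
    rw [← Complex.normSq_eq_norm_sq, ← Complex.mul_conj, map_sum, sum_mul_sum]
    refine sum_congr rfl fun s _ => sum_congr rfl fun t _ => ?_
    rw [map_mul, Complex.conj_ofReal, ls_conj_ee]
    have : ee ((((s : ℤ) - (t : ℤ) : ℤ) : ℝ) * x) = ee (s * x) * ee (-(t * x)) := by
      rw [← ls_ee_add]
      congr 1
      push_cast
      ring
    rw [this]
    push_cast
    ring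
  have h2 : ((∫ x in (0:ℝ)..1, ‖∑ s ∈ range N, (w s : ℂ) * ee (s * x)‖ ^ 2 : ℝ) : ℂ) =
      ((∑ s ∈ range N, w s ^ 2 : ℝ) : ℂ) := by
    rw [← intervalIntegral.integral_ofReal]
    simp only [h1]
    have hint : ∀ s t : ℕ, IntervalIntegrable
        (fun x : ℝ => ((w s * w t : ℝ) : ℂ) * ee ((((s : ℤ) - (t : ℤ) : ℤ) : ℝ) * x))
        MeasureTheory.volume 0 1 := by
      intro s t
      exact (continuous_const.mul
        (ee_cont.comp (continuous_const.mul continuous_id))).intervalIntegrable _ _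
    rw [intervalIntegral.integral_finsetSum (fun s _ => ?_)]
    · push_cast
      refine sum_congr rfl fun s hs => ?_
      rw [intervalIntegral.integral_finsetSum (fun t _ => ?_)]
      · have h3 : ∀ t ∈ range N, ∫ x in (0:ℝ)..1,
            ((w s : ℂ) * (w t : ℂ)) * ee (((s : ℝ) - (t : ℝ)) * x) =
            if t = s then (w s : ℂ) ^ 2 else 0 := by
          intro t _
          rw [intervalIntegral.integral_const_mul]
          have h4 := int_ee ((s : ℤ) - (t : ℤ))
          push_cast at h4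
          rw [h4]
          by_cases hst : t = s
          · subst hst
            simp
            ring
          · have : ¬ ((s : ℤ) - (t : ℤ) = 0) := by omega
            rw [if_neg this, if_neg hst, mul_zero]
        rw [sum_congr rfl h3, sum_ite_eq' (range N) s, if_pos hs]
      · have := hint s t
        push_cast at this
        exact this
    · exact (continuous_finsetSum _ fun t _ => continuous_const.mul
        (ee_cont.comp (continuous_const.mul continuous_id))).intervalIntegrable _ _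
  exact_mod_cast h2

/-- the polynomial `1 + X + ... + X^(b-1)` -/
noncomputable def Pb (b : ℕ) : Polynomial ℕ := ∑ i ∈ range b, (Polynomial.X : Polynomial ℕ) ^ i

lemma deg_Pb {b : ℕ} (hb : 1 ≤ b) : (Pb b ^ b).natDegree < b * b := by
  have h1 : (Pb b).natDegree ≤ b - 1 := by
    unfold Pb
    refine Polynomial.natDegree_sum_le_of_forall_le _ _ fun i hi => ?_
    rw [mem_range] at hi
    refine (Polynomial.natDegree_X_pow_le i).trans ?_
    omega
  have h2 : (Pb b ^ b).natDegree ≤ b * (b - 1) :=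
    (Polynomial.natDegree_pow_le).trans (Nat.mul_le_mul_left b h1)
  have h3 : b * (b - 1) < b * b := Nat.mul_lt_mul_of_pos_left (by omega) (by omega)
  omega

lemma D_pow {b : ℕ} (hb : 1 ≤ b) (x : ℝ) : (∑ m ∈ range b, ee (m * x)) ^ b =
    ∑ s ∈ range (b * b), ((((Pb b ^ b).coeff s : ℕ) : ℝ) : ℂ) * ee (s * x) := by
  have h1 := Polynomial.eval₂_eq_sum_range' (Nat.castRingHom ℂ) (deg_Pb hb) (ee x)
  have h2 : Polynomial.eval₂ (Nat.castRingHom ℂ) (ee x) (Pb b ^ b) =
      (∑ m ∈ range b, ee (m * x)) ^ b := by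
    rw [Polynomial.eval₂_pow]
    congr 1
    unfold Pb
    rw [Polynomial.eval₂_finsetSum]
    refine sum_congr rfl fun m _ => ?_
    rw [Polynomial.eval₂_X_pow, ls_ee_nat_mul]
  rw [← h2, h1]
  refine sum_congr rfl fun s _ => ?_
  rw [ls_ee_nat_mul]
  simp

lemma PP_eq {b : ℕ} (hb : 1 ≤ b) : PP b = ∫ x in (0:ℝ)..1, ph b x ^ (2 * b) := by
  have hb0 : (0 : ℝ) < b := by exact_mod_cast hb
  have h1 := parseval (fun s => (((Pb b ^ b).coeff s : ℕ) : ℝ)) (b * b)
  have h2 : ∀ x : ℝ, ph b x ^ (2 * b) =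
      ‖∑ s ∈ range (b * b), ((((Pb b ^ b).coeff s : ℕ) : ℝ) : ℂ) * ee (s * x)‖ ^ 2 *
        ((b : ℝ) ^ (2 * b))⁻¹ := by
    intro x
    rw [← D_pow hb]
    unfold ph
    rw [div_pow, norm_pow, ← pow_mul, mul_comm b 2, div_eq_mul_inv]
  simp only [h2]
  rw [intervalIntegral.integral_mul_const, h1]
  unfold PP Pb
  rw [div_eq_mul_inv]

lemma PP_le {b : ℕ} (hb : 2 ≤ b) : PP b ≤ Real.sqrt (Real.pi / cG b) + (1 / 4) ^ b := by
  have hb' : (2 : ℝ) ≤ b := by exact_mod_cast hb
  have hc : 0 < cG b := by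
    unfold cG
    have h1 : 0 < (b : ℝ) ^ 2 - 1 := by nlinarith
    have := Real.pi_pos
    positivity
  have hper : Function.Periodic (fun x => ph b x ^ (2 * b)) 1 := by
    intro x
    have h := ph_add_int (b := b) x 1
    simp only [Int.cast_one] at h
    simp only [h]
  have h1 : PP b = ∫ x in (-(1/2) : ℝ)..(1/2), ph b x ^ (2 * b) := by
    rw [PP_eq (by omega)]
    have h := hper.intervalIntegral_add_eq 0 (-(1/2))
    rw [zero_add] at h
    rw [h]
    norm_num
  have hcont : Continuous (fun x : ℝ => Real.exp (-cG b * x ^ 2)) := by fun_prop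
  have h2 : ∫ x in (-(1/2) : ℝ)..(1/2), ph b x ^ (2 * b) ≤
      ∫ x in (-(1/2) : ℝ)..(1/2), (Real.exp (-cG b * x ^ 2) + (1 / 4) ^ b) := by
    refine intervalIntegral.integral_mono_on (by norm_num)
      (((ph_cont b).pow _).intervalIntegrable _ _)
      ((hcont.add continuous_const).intervalIntegrable _ _) fun x hx => ?_
    exact ph_bound hb (abs_le.2 ⟨by linarith [hx.1], hx.2⟩)
  have h3 : ∫ x in (-(1/2) : ℝ)..(1/2), (Real.exp (-cG b * x ^ 2) + (1 / 4) ^ b) =
      (∫ x in (-(1/2) : ℝ)..(1/2), Real.exp (-cG b * x ^ 2)) + (1 / 4) ^ b := by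
    rw [intervalIntegral.integral_add (hcont.intervalIntegrable _ _)
      (continuous_const.intervalIntegrable _ _), intervalIntegral.integral_const]
    norm_num
  have h4 : ∫ x in (-(1/2) : ℝ)..(1/2), Real.exp (-cG b * x ^ 2) ≤ Real.sqrt (Real.pi / cG b) := by
    rw [← integral_gaussian (cG b), intervalIntegral.integral_of_le (by norm_num)]
    exact MeasureTheory.setIntegral_le_integral (integrable_exp_neg_mul_sq hc)
      (Eventually.of_forall fun x => (Real.exp_pos _).le)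
  linarith

lemma four_pow {b : ℕ} (hb : 5 ≤ b) : 25 * b ^ 2 ≤ 4 ^ b := by
  induction b, hb using Nat.le_induction with
  | base => norm_num
  | succ n hn ih =>
    have e : 4 ^ (n + 1) = 4 * 4 ^ n := by ring
    rw [e]
    nlinarith

lemma big_case {b : ℕ} (hb : 5 ≤ b) : PP b ^ 2 * (b : ℝ) ^ 3 ≤ (26 / 25) ^ 2 := by
  have hb' : (5 : ℝ) ≤ b := by exact_mod_cast hb
  have hb0 : (0 : ℝ) < b := by linarith
  have hP0 : 0 ≤ PP b := by unfold PP; positivity
  have h := PP_le (b := b) (by omega)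
  set s := Real.sqrt ((b : ℝ) ^ 3) with hs
  have hs0 : 0 ≤ s := Real.sqrt_nonneg _
  have hss : s ^ 2 = (b : ℝ) ^ 3 := Real.sq_sqrt (by positivity)
  have h1 : Real.sqrt (Real.pi / cG b) * s ≤ 1 := by
    rw [hs, ← Real.sqrt_mul (by unfold cG; have : 0 ≤ (b:ℝ)^2 - 1 := by nlinarith
                                have := Real.pi_pos; positivity)]
    rw [Real.sqrt_le_one]
    have h2 : 0 < (b : ℝ) ^ 2 - 1 := by nlinarith
    have hpi := Real.pi_pos
    have h3 : Real.pi / cG b * (b : ℝ) ^ 3 = 3 * (b : ℝ) ^ 2 / (Real.pi * ((b : ℝ) ^ 2 - 1)) := by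
      unfold cG
      field_simp
    rw [h3, div_le_one (by positivity)]
    have h4 : (3.14 : ℝ) < Real.pi := Real.pi_gt_d2
    have h5 : (25 : ℝ) ≤ (b : ℝ) ^ 2 := by nlinarith
    nlinarith
  have h2 : ((1:ℝ) / 4) ^ b * s ≤ 1 / 25 := by
    have h3 : s ≤ (b : ℝ) ^ 2 := by
      rw [hs, Real.sqrt_le_left (by positivity)]
      nlinarith [pow_pos hb0 3]
    have h4 : (25 : ℝ) * (b : ℝ) ^ 2 ≤ 4 ^ b := by exact_mod_cast four_pow hb
    have h5 : (0 : ℝ) < 4 ^ b := by positivity
    rw [div_pow, one_pow, one_div_mul_eq_div, div_le_div_iff₀ h5 (by norm_num)]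
    nlinarith
  have h3 : PP b * s ≤ 26 / 25 := by
    calc PP b * s ≤ (Real.sqrt (Real.pi / cG b) + (1 / 4) ^ b) * s := by gcongr
      _ = Real.sqrt (Real.pi / cG b) * s + (1 / 4) ^ b * s := by ring
      _ ≤ 1 + 1 / 25 := add_le_add h1 h2
      _ = 26 / 25 := by norm_num
  calc PP b ^ 2 * (b : ℝ) ^ 3 = (PP b * s) ^ 2 := by rw [mul_pow, hss]
    _ ≤ (26 / 25) ^ 2 := by
      have : 0 ≤ PP b * s := by positivity
      gcongr

open Polynomial in
lemma poly3 : (∑ i ∈ range 3, (X : Polynomial ℕ) ^ i) ^ 3 =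
    C 1 * X ^ 0 + C 3 * X ^ 1 + C 6 * X ^ 2 + C 7 * X ^ 3 + C 6 * X ^ 4 + C 3 * X ^ 5 +
      C 1 * X ^ 6 := by
  simp only [sum_range_succ, range_zero, sum_empty, map_ofNat, map_one]
  ring

open Polynomial in
lemma poly4 : (∑ i ∈ range 4, (X : Polynomial ℕ) ^ i) ^ 4 =
    C 1 * X ^ 0 + C 4 * X ^ 1 + C 10 * X ^ 2 + C 20 * X ^ 3 + C 31 * X ^ 4 + C 40 * X ^ 5 +
      C 44 * X ^ 6 + C 40 * X ^ 7 + C 31 * X ^ 8 + C 20 * X ^ 9 + C 10 * X ^ 10 + C 4 * X ^ 11 +
      C 1 * X ^ 12 := by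
  simp only [sum_range_succ, range_zero, sum_empty, map_ofNat, map_one]
  ring

lemma case3 : PP 3 ^ 2 * ((3 : ℕ) : ℝ) ^ 3 ≤ (26 / 25) ^ 2 := by
  have h : PP 3 = 141 / 729 := by
    unfold PP
    rw [poly3]
    simp only [Polynomial.coeff_add, Polynomial.coeff_C_mul, Polynomial.coeff_X_pow]
    norm_num [sum_range_succ]
  rw [h]
  norm_num

lemma case4 : PP 4 ^ 2 * ((4 : ℕ) : ℝ) ^ 3 ≤ (26 / 25) ^ 2 := by
  have h : PP 4 = 8092 / 65536 := by
    unfold PP
    rw [poly4]
    simp only [Polynomial.coeff_add, Polynomial.coeff_C_mul, Polynomial.coeff_X_pow]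
    norm_num [sum_range_succ]
  rw [h]
  norm_num

theorem taskPB : TaskPB := by
  intro b hb
  rcases Nat.lt_or_ge b 5 with h | h
  · interval_cases b
    · exact case3
    · exact case4
  · exact big_case h

end Pool.Agent.H581R3.PB
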