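import Mathlib

/-!
A finite CW structure with cells of dimensions `0, 3, 3, 6` on `S × S`, where `S` is homeomorphic to the
one-point compactification of `ℝ³` (helper581).
-/

set_option autoImplicit false

open Set Metric Topology Filter

noncomputable section

namespace Pool.Agent.H581R3.SCW

abbrev E3 : Type := Fin 3 → ℝ

/-- the homeomorphism from the space onto the open unit ball -/
abbrev BB : OpenPartialHomeomorph E3 E3 := OpenPartialHomeomorph.univUnitBall

lemma BB_source : BB.source = univ := rfl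

lemma BB_target : BB.target = ball 0 1 := rfl

lemma BB_cont : Continuous (BB : E3 → E3) := by
  have h := BB.continuousOn
  rw [BB_source] at h
  exact continuousOn_univ.1 h

/-- the collapse of the cube -/
def ff (x : E3) : OnePoint E3 := by
  classical
  exact if ‖x‖ < 1 then ((BB.symm x : E3) : OnePoint E3) else OnePoint.infty

lemma ff_lt {x : E3} (h : ‖x‖ < 1) : ff x = ((BB.symm x : E3) : OnePoint E3) := by
  unfold ff; rw [if_pos h]

lemma ff_ge {x : E3} (h : 1 ≤ ‖x‖) : ff x = OnePoint.infty := by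
  unfold ff; rw [if_neg (not_lt.2 h)]

lemma ff_cont : Continuous ff := by
  rw [continuous_iff_continuousAt]
  intro x
  rcases lt_or_ge ‖x‖ 1 with h | h
  · have hb : ball (0 : E3) 1 ∈ 𝓝 x := isOpen_ball.mem_nhds (by simpa using h)
    have h1 : ContinuousAt (fun y : E3 => ((BB.symm y : E3) : OnePoint E3)) x := by
      have h2 : ContinuousAt (BB.symm : E3 → E3) x :=
        (BB.continuousOn_symm).continuousAt (by rw [BB_target]; exact hb)
      exact OnePoint.continuous_coe.continuousAt.comp h2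
    refine h1.congr ?_
    filter_upwards [hb] with y hy
    rw [ff_lt (by simpa using hy)]
  · show Tendsto ff (𝓝 x) (𝓝 (ff x))
    rw [ff_ge h]
    show map ff (𝓝 x) ≤ 𝓝 OnePoint.infty
    rw [OnePoint.le_nhds_infty]
    intro s _ hs
    have hK : IsCompact ((BB : E3 → E3) '' s) := hs.image BB_cont
    have hx : x ∉ (BB : E3 → E3) '' s := by
      rintro ⟨y, _, hy⟩
      have h2 : BB y ∈ BB.target := BB.map_source (by rw [BB_source]; trivial)
      rw [hy, BB_target, mem_ball_zero_iff] at h2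
      linarith
    have h3 : ((BB : E3 → E3) '' s)ᶜ ∈ 𝓝 x := hK.isClosed.isOpen_compl.mem_nhds hx
    rw [Filter.mem_map]
    filter_upwards [h3] with y hy
    rw [mem_preimage]
    rcases lt_or_ge ‖y‖ 1 with h4 | h4
    · left
      rw [ff_lt h4]
      refine ⟨BB.symm y, ?_, rfl⟩
      intro h5
      apply hy
      exact ⟨BB.symm y, h5, BB.right_inv (by rw [BB_target, mem_ball_zero_iff]; exact h4)⟩
    · right
      rw [ff_ge h4]
      rfl

/-- the inverse -/
def fi (s : OnePoint E3) : E3 := Option.elim s 0 (fun y => BB y)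

lemma fi_coe (y : E3) : fi (y : OnePoint E3) = BB y := rfl

lemma fi_contAt (y : E3) : ContinuousAt fi (y : OnePoint E3) := by
  rw [OnePoint.continuousAt_coe]
  exact BB_cont.continuousAt

lemma fi_ff {x : E3} (h : ‖x‖ < 1) : fi (ff x) = x := by
  rw [ff_lt h, fi_coe]
  exact BB.right_inv (by rw [BB_target, mem_ball_zero_iff]; exact h)

lemma fi_norm (y : E3) : ‖fi (y : OnePoint E3)‖ < 1 := by
  rw [fi_coe]
  have h2 : BB y ∈ BB.target := BB.map_source (by rw [BB_source]; trivial)
  rwa [BB_target, mem_ball_zero_iff] at h2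

lemma ff_fi (y : E3) : ff (fi (y : OnePoint E3)) = (y : OnePoint E3) := by
  rw [ff_lt (fi_norm y), fi_coe]
  rw [BB.left_inv (by rw [BB_source]; trivial)]

variable {S : Type} [TopologicalSpace S] (e : OnePoint E3 ≃ₜ S)

/-- dimensions of the two cells of `S` -/
def dB : Bool → ℕ
  | true => 3
  | false => 0

/-- the two characteristic maps -/
def mB : (b : Bool) → (Fin (dB b) → ℝ) → S
  | true => fun x => e (ff x)
  | false => fun _ => e OnePoint.infty

/-- their inverses -/
def nB : (b : Bool) → S → (Fin (dB b) → ℝ)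
  | true => fun s => fi (e.symm s)
  | false => fun _ => 0

/-- the open cells -/
def TB : Bool → Set S
  | true => {e OnePoint.infty}ᶜ
  | false => {e OnePoint.infty}

lemma mB_cont (b : Bool) : Continuous (mB e b) := by
  cases b
  · exact continuous_const
  · exact e.continuous.comp ff_cont

lemma exists_coe {s : S} (h : s ∈ TB e true) : ∃ y : E3, e.symm s = (y : OnePoint E3) := by
  have h1 : e.symm s ≠ OnePoint.infty := by
    intro h2
    apply h
    show s = e OnePoint.infty
    rw [← h2, e.apply_symm_apply]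
  obtain ⟨y, hy⟩ := OnePoint.ne_infty_iff_exists.1 h1
  exact ⟨y, hy.symm⟩

lemma n_m (b : Bool) {x : Fin (dB b) → ℝ} (hx : ‖x‖ < 1) : nB e b (mB e b x) = x := by
  cases b
  · funext i
    exact i.elim0
  · show fi (e.symm (e (ff x))) = x
    rw [e.symm_apply_apply]
    exact fi_ff hx

lemma m_mem (b : Bool) {x : Fin (dB b) → ℝ} (hx : ‖x‖ < 1) : mB e b x ∈ TB e b := by
  cases b
  · exact rfl
  · intro h
    have h1 : e (ff x) = e OnePoint.infty := h
    have h2 := e.injective h1
    have h3 : ff x = _ := ff_lt (x := x) hx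
    rw [h3] at h2
    exact OnePoint.coe_ne_infty _ h2

lemma n_mem (b : Bool) {s : S} (hs : s ∈ TB e b) : ‖nB e b s‖ < 1 := by
  cases b
  · show ‖(0 : Fin (dB false) → ℝ)‖ < 1
    rw [norm_zero]
    norm_num
  · obtain ⟨y, hy⟩ := exists_coe e hs
    show ‖fi (e.symm s)‖ < 1
    rw [hy]
    exact fi_norm y

lemma m_n (b : Bool) {s : S} (hs : s ∈ TB e b) : mB e b (nB e b s) = s := by
  cases b
  · exact (show s = e OnePoint.infty from hs).symm
  · obtain ⟨y, hy⟩ := exists_coe e hs
    show e (ff (fi (e.symm s))) = s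
    rw [hy, ff_fi, ← hy, e.apply_symm_apply]

lemma nB_cont (b : Bool) : ContinuousOn (nB e b) (TB e b) := by
  cases b
  · exact continuousOn_const
  · intro s hs
    obtain ⟨y, hy⟩ := exists_coe e hs
    have h1 : ContinuousAt fi (e.symm s) := by rw [hy]; exact fi_contAt y
    exact (h1.comp e.symm.continuous.continuousAt).continuousWithinAt

lemma m_sphere (b : Bool) {x : Fin (dB b) → ℝ} (hx : ‖x‖ = 1) :
    b = true ∧ mB e b x = e OnePoint.infty := by
  cases b
  · exfalso
    have h : x = 0 := by funext i; exact i.elim0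
    rw [h, norm_zero] at hx
    norm_num at hx
  · refine ⟨rfl, ?_⟩
    show e (ff x) = _
    rw [ff_ge (x := x) hx.ge]

lemma m_surj (s : S) : ∃ x : Fin (dB true) → ℝ, ‖x‖ ≤ 1 ∧ mB e true x = s := by
  by_cases hs : s ∈ TB e true
  · exact ⟨nB e true s, (n_mem e true hs).le, m_n e true hs⟩
  · have h : s = e OnePoint.infty := by
      by_contra h
      exact hs h
    have h1 : ‖(fun _ => 1 : Fin 3 → ℝ)‖ = 1 := by
      rw [pi_norm_const]
      norm_num
    refine ⟨(fun _ => 1 : Fin 3 → ℝ), h1.le, ?_⟩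
    rw [h]
    exact (m_sphere e true h1).2

/-! ### products -/

variable {m n : ℕ}

lemma norm_lt_iff' (x : Fin (m + n) → ℝ) : ‖x‖ < 1 ↔
    ‖fun i => x (Fin.castAdd n i)‖ < 1 ∧ ‖fun i => x (Fin.natAdd m i)‖ < 1 := by
  rw [pi_norm_lt_iff one_pos, pi_norm_lt_iff one_pos, pi_norm_lt_iff one_pos]
  constructor
  · intro h
    exact ⟨fun i => h _, fun i => h _⟩
  · rintro ⟨h1, h2⟩ i
    refine Fin.addCases (fun i => ?_) (fun i => ?_) i
    · exact h1 i
    · exact h2 i

lemma norm_le_iff' (x : Fin (m + n) → ℝ) : ‖x‖ ≤ 1 ↔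
    ‖fun i => x (Fin.castAdd n i)‖ ≤ 1 ∧ ‖fun i => x (Fin.natAdd m i)‖ ≤ 1 := by
  rw [pi_norm_le_iff_of_nonneg zero_le_one, pi_norm_le_iff_of_nonneg zero_le_one,
    pi_norm_le_iff_of_nonneg zero_le_one]
  constructor
  · intro h
    exact ⟨fun i => h _, fun i => h _⟩
  · rintro ⟨h1, h2⟩ i
    refine Fin.addCases (fun i => ?_) (fun i => ?_) i
    · exact h1 i
    · exact h2 i

lemma append_left' (x : Fin m → ℝ) (y : Fin n → ℝ) :
    (fun i => Fin.append x y (Fin.castAdd n i)) = x := by
  funext i; simp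

lemma append_right' (x : Fin m → ℝ) (y : Fin n → ℝ) :
    (fun i => Fin.append x y (Fin.natAdd m i)) = y := by
  funext i; simp

/-- the product map -/
def PM (j : Bool × Bool) (x : Fin (dB j.1 + dB j.2) → ℝ) : S × S :=
  (mB e j.1 (fun i => x (Fin.castAdd _ i)), mB e j.2 (fun i => x (Fin.natAdd _ i)))

/-- the inverse of the product map -/
def PN (j : Bool × Bool) (s : S × S) : Fin (dB j.1 + dB j.2) → ℝ :=
  Fin.append (nB e j.1 s.1) (nB e j.2 s.2)

/-- the characteristic maps of the product -/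
def MM (j : Bool × Bool) : PartialEquiv (Fin (dB j.1 + dB j.2) → ℝ) (S × S) where
  toFun := PM e j
  invFun := PN e j
  source := ball 0 1
  target := TB e j.1 ×ˢ TB e j.2
  map_source' := by
    intro x hx
    rw [mem_ball_zero_iff, norm_lt_iff'] at hx
    exact ⟨m_mem e _ hx.1, m_mem e _ hx.2⟩
  map_target' := by
    intro s hs
    rw [mem_ball_zero_iff, norm_lt_iff']
    unfold PN
    rw [append_left', append_right']
    exact ⟨n_mem e _ hs.1, n_mem e _ hs.2⟩
  left_inv' := by
    intro x hx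
    rw [mem_ball_zero_iff, norm_lt_iff'] at hx
    unfold PN PM
    funext i
    refine Fin.addCases (fun i => ?_) (fun i => ?_) i
    · rw [Fin.append_left, n_m e _ hx.1]
    · rw [Fin.append_right, n_m e _ hx.2]
  right_inv' := by
    intro s hs
    unfold PM PN
    rw [append_left', append_right', m_n e _ hs.1, m_n e _ hs.2]

lemma PM_cont (j : Bool × Bool) : Continuous (PM e j) := by
  unfold PM
  refine Continuous.prodMk ?_ ?_
  · exact (mB_cont e j.1).comp (continuous_pi fun i => continuous_apply _)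
  · exact (mB_cont e j.2).comp (continuous_pi fun i => continuous_apply _)

lemma PN_cont (j : Bool × Bool) : ContinuousOn (PN e j) (TB e j.1 ×ˢ TB e j.2) := by
  unfold PN
  rw [continuousOn_pi]
  intro i
  refine Fin.addCases (fun i => ?_) (fun i => ?_) i
  · simp only [Fin.append_left]
    have h : ContinuousOn (fun s : S × S => nB e j.1 s.1) (TB e j.1 ×ˢ TB e j.2) :=
      (nB_cont e j.1).comp continuousOn_fst fun s hs => hs.1
    exact (continuous_apply i).comp_continuousOn h
  · simp only [Fin.append_right]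
    have h : ContinuousOn (fun s : S × S => nB e j.2 s.2) (TB e j.1 ×ˢ TB e j.2) :=
      (nB_cont e j.2).comp continuousOn_snd fun s hs => hs.2
    exact (continuous_apply i).comp_continuousOn h

lemma TB_disj {b c : Bool} (h : b ≠ c) {s : S} (h1 : s ∈ TB e b) (h2 : s ∈ TB e c) : False := by
  cases b <;> cases c
  · exact h rfl
  · exact h2 h1
  · exact h1 h2
  · exact h rfl

lemma PM_surj (s : S × S) : s ∈ PM e (true, true) '' closedBall 0 1 := by
  obtain ⟨x, hx, hx'⟩ := m_surj e s.1
  obtain ⟨y, hy, hy'⟩ := m_surj e s.2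
  refine ⟨Fin.append x y, ?_, ?_⟩
  · rw [mem_closedBall_zero_iff]
    refine (norm_le_iff' (m := dB true) (n := dB true) _).2 ?_
    rw [append_left', append_right']
    exact ⟨hx, hy⟩
  · unfold PM
    show (mB e true (fun i => Fin.append x y (Fin.castAdd _ i)),
      mB e true (fun i => Fin.append x y (Fin.natAdd _ i))) = s
    rw [append_left', append_right', hx', hy']

/-- the cells of dimension `n` -/
def Cl (n : ℕ) : Type := {j : Bool × Bool // dB j.1 + dB j.2 = n}

instance (n : ℕ) : Fintype (Cl n) := by unfold Cl; infer_instance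

/-- the characteristic map -/
def cmap (n : ℕ) (i : Cl n) : PartialEquiv (Fin n → ℝ) (S × S) := i.2 ▸ MM e i.1

lemma PM_sphere (j : Bool × Bool) {x : Fin (dB j.1 + dB j.2) → ℝ} (hx : ‖x‖ = 1) :
    ∃ k : Bool × Bool, dB k.1 + dB k.2 < dB j.1 + dB j.2 ∧ PM e j x ∈ PM e k '' closedBall 0 1 := by
  obtain ⟨b, c⟩ := j
  have hle := (norm_le_iff' x).1 hx.le
  have hlt : ¬ (‖fun i => x (Fin.castAdd _ i)‖ < 1 ∧ ‖fun i => x (Fin.natAdd _ i)‖ < 1) := by
    intro h
    have := (norm_lt_iff' x).2 h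
    linarith
  rcases lt_or_ge ‖fun i => x (Fin.castAdd (dB c) i)‖ 1 with h1 | h1
  · have h2 : 1 ≤ ‖fun i => x (Fin.natAdd (dB b) i)‖ := by
      by_contra h
      exact hlt ⟨h1, not_le.1 h⟩
    obtain ⟨hc, hm⟩ := m_sphere e c (le_antisymm hle.2 h2)
    subst hc
    refine ⟨(b, false), ?_, Fin.append (fun i => x (Fin.castAdd _ i)) (0 : Fin (dB false) → ℝ), ?_, ?_⟩
    · show dB b + 0 < dB b + 3
      omega
    · rw [mem_closedBall_zero_iff]
      refine (norm_le_iff' (m := dB b) (n := dB false) _).2 ?_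
      rw [append_left', append_right']
      refine ⟨hle.1, ?_⟩
      rw [norm_zero]
      norm_num
    · unfold PM
      show (mB e b (fun i => Fin.append _ _ (Fin.castAdd _ i)), e OnePoint.infty) =
        (mB e b (fun i => x (Fin.castAdd _ i)), mB e true (fun i => x (Fin.natAdd _ i)))
      rw [append_left', hm]
  · obtain ⟨hb, hm⟩ := m_sphere e b (le_antisymm hle.1 h1)
    subst hb
    refine ⟨(false, c), ?_, Fin.append (0 : Fin (dB false) → ℝ) (fun i => x (Fin.natAdd _ i)), ?_, ?_⟩
    · show 0 + dB c < 3 + dB c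
      omega
    · rw [mem_closedBall_zero_iff]
      refine (norm_le_iff' (m := dB false) (n := dB c) _).2 ?_
      rw [append_left', append_right']
      refine ⟨?_, hle.2⟩
      rw [norm_zero]
      norm_num
    · unfold PM
      show (e OnePoint.infty, mB e c (fun i => Fin.append _ _ (Fin.natAdd _ i))) =
        (mB e true (fun i => x (Fin.castAdd _ i)), mB e c (fun i => x (Fin.natAdd _ i)))
      rw [append_right', hm]

/-- the CW structure -/
def cwS [T2Space S] : Topology.CWComplex (Set.univ : Set (S × S)) where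
  cell := Cl
  map := cmap e
  source_eq := by
    rintro n ⟨j, rfl⟩
    rfl
  continuousOn := by
    rintro n ⟨j, rfl⟩
    exact (PM_cont e j).continuousOn
  continuousOn_symm := by
    rintro n ⟨j, rfl⟩
    exact PN_cont e j
  pairwiseDisjoint' := by
    rintro ⟨n, ⟨j, rfl⟩⟩ _ ⟨m, ⟨k, rfl⟩⟩ _ hne
    have hjk : j ≠ k := by
      rintro rfl
      exact hne rfl
    show Disjoint (PM e j '' ball 0 1) (PM e k '' ball 0 1)
    rw [Set.disjoint_left]
    rintro s ⟨x, hx, rfl⟩ ⟨y, hy, hxy⟩
    rw [mem_ball_zero_iff, norm_lt_iff'] at hx hy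
    have h1 : mB e k.1 (fun i => y (Fin.castAdd _ i)) = mB e j.1 (fun i => x (Fin.castAdd _ i)) :=
      congrArg Prod.fst hxy
    have h2 : mB e k.2 (fun i => y (Fin.natAdd _ i)) = mB e j.2 (fun i => x (Fin.natAdd _ i)) :=
      congrArg Prod.snd hxy
    by_cases hj : j.1 = k.1
    · have hj2 : j.2 ≠ k.2 := fun h => hjk (Prod.ext hj h)
      refine TB_disj e hj2 (m_mem e j.2 hx.2) ?_
      rw [← h2]
      exact m_mem e k.2 hy.2
    · refine TB_disj e hj (m_mem e j.1 hx.1) ?_
      rw [← h1]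
      exact m_mem e k.1 hy.1
  mapsTo' := by
    rintro n ⟨j, rfl⟩
    refine ⟨fun m => Finset.univ, ?_⟩
    intro x hx
    rw [mem_sphere_zero_iff_norm] at hx
    obtain ⟨k, hk, hk'⟩ := PM_sphere e j hx
    rw [mem_iUnion]
    refine ⟨dB k.1 + dB k.2, ?_⟩
    rw [mem_iUnion]
    refine ⟨hk, ?_⟩
    rw [mem_iUnion]
    refine ⟨⟨k, rfl⟩, ?_⟩
    rw [mem_iUnion]
    exact ⟨Finset.mem_univ _, hk'⟩
  closed' := by
    intro A _ h
    have h1 := h 6 ⟨(true, true), rfl⟩
    have h2 : (cmap e 6 ⟨(true, true), rfl⟩ : (Fin 6 → ℝ) → S × S) '' closedBall 0 1 = univ :=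
      eq_univ_of_forall fun s => PM_surj e s
    rw [h2, inter_univ] at h1
    exact h1
  union' := by
    refine eq_univ_of_forall fun s => ?_
    rw [mem_iUnion]
    refine ⟨6, ?_⟩
    rw [mem_iUnion]
    exact ⟨⟨(true, true), rfl⟩, PM_surj e s⟩

/-- same as the definition of helper486 -/
def HasEuler (M : Type) [TopologicalSpace M] (c : ℤ) : Prop :=
  ∃ cw : Topology.CWComplex (Set.univ : Set M), Finite (Σ n, cw.cell n) ∧
    c = ∑ᶠ n : ℕ, (-1 : ℤ) ^ n * (Nat.card (cw.cell n) : ℤ)

theorem card_zero {n : ℕ} (hn : 7 ≤ n) : Nat.card (Cl n) = 0 := by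
  rw [Nat.card_eq_zero]
  left
  refine ⟨fun i => ?_⟩
  obtain ⟨⟨b, c⟩, h⟩ := i
  cases b <;> cases c <;> simp [dB] at h <;> omega

theorem euler_prod [T2Space S] (e : OnePoint E3 ≃ₜ S) : HasEuler (S × S) 0 := by
  refine ⟨cwS e, ?_, ?_⟩
  · refine Finite.of_injective (β := Bool × Bool) (fun x : (Σ n, Cl n) => x.2.1) ?_
    rintro ⟨n, ⟨j, rfl⟩⟩ ⟨m, ⟨k, rfl⟩⟩ h
    have h' : j = k := h
    subst h'
    rfl
  · show (0 : ℤ) = ∑ᶠ n : ℕ, (-1 : ℤ) ^ n * (Nat.card (Cl n) : ℤ)
    have hs : (Function.support fun n : ℕ => (-1 : ℤ) ^ n * (Nat.card (Cl n) : ℤ)) ⊆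
        ((Finset.range 7 : Finset ℕ) : Set ℕ) := by
      intro n hn
      by_contra h
      rw [Finset.mem_coe, Finset.mem_range, not_lt] at h
      apply hn
      show (-1 : ℤ) ^ n * (Nat.card (Cl n) : ℤ) = 0
      rw [card_zero h]
      simp
    rw [finsum_eq_sum_of_support_subset _ hs]
    simp only [Nat.card_eq_fintype_card]
    decide

/-- the product of two unit spheres of `ℝ⁴` -/
theorem euler_S33 : HasEuler (sphere (0 : EuclideanSpace ℝ (Fin 4)) 1 ×
    sphere (0 : EuclideanSpace ℝ (Fin 4)) 1) 0 := by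
  have h : Module.finrank ℝ (Fin 3 → ℝ) + 1 = Fintype.card (Fin 4) := by simp
  exact euler_prod (onePointEquivSphereOfFinrankEq (V := Fin 3 → ℝ) h)

end Pool.Agent.H581R3.SCW
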