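import Pool.Agent.H581R3.EN

/-!
The endomorphism ring of an indecomposable module which is artinian over its endomorphism ring.
-/

set_option autoImplicit false

namespace Pool.Agent.H581R3

open Module (End)

variable {S M : Type*} [Ring S] [AddCommGroup M] [Module S M]

/-- The constraint that `f` is additive and `S`-linear is a closed one. -/
theorem isCl_end : IsCl (End S M) {f : M → M | ∃ e : End S M, ⇑e = f} := by
  classical
  have h : {f : M → M | ∃ e : End S M, ⇑e = f} =
      ⋂₀ ((Set.range fun p : M × M => {f : M → M | f (p.1 + p.2) = f p.1 + f p.2}) ∪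
        (Set.range fun p : S × M => {f : M → M | f (p.1 • p.2) = p.1 • f p.2})) := by
    ext f
    constructor
    · rintro ⟨e, rfl⟩ D (⟨p, rfl⟩ | ⟨p, rfl⟩)
      · exact map_add e _ _
      · exact map_smul e _ _
    · intro hf
      exact ⟨{ toFun := f
               map_add' := fun x y => hf _ (Or.inl ⟨(x, y), rfl⟩)
               map_smul' := fun s x => hf _ (Or.inr ⟨(s, x), rfl⟩) }, rfl⟩
  rw [h]
  apply IsCl.sInter
  rintro D (⟨⟨x, y⟩, rfl⟩ | ⟨⟨s, x⟩, rfl⟩)
  · let V : Submodule (End S M) (M → M) :=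
      { carrier := {f | f (x + y) = f x + f y}
        add_mem' := by
          intro a b ha hb
          simp only [Set.mem_ofPred_eq, Pi.add_apply] at *
          rw [ha, hb]; abel
        zero_mem' := by simp
        smul_mem' := by
          intro e a ha
          simp only [Set.mem_ofPred_eq, Pi.smul_apply] at *
          rw [ha, smul_add] }
    refine IsFC.isCl ⟨0, V, ⟨{x + y, x, y}, fun z hz => ?_⟩, ?_⟩
    · change z (x + y) = z x + z y
      rw [hz (x + y) (by simp), hz x (by simp), hz y (by simp), add_zero]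
    · ext f
      simp only [coset, sub_zero]
      rfl
  · let V : Submodule (End S M) (M → M) :=
      { carrier := {f | f (s • x) = s • f x}
        add_mem' := by
          intro a b ha hb
          simp only [Set.mem_ofPred_eq, Pi.add_apply] at *
          rw [ha, hb, smul_add]
        zero_mem' := by simp
        smul_mem' := by
          intro e a ha
          simp only [Set.mem_ofPred_eq, Pi.smul_apply] at *
          rw [ha, smul_comm] }
    refine IsFC.isCl ⟨0, V, ⟨{s • x, x}, fun z hz => ?_⟩, ?_⟩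
    · change z (s • x) = s • z x
      rw [hz (s • x) (by simp), hz x (by simp), smul_zero]
    · ext f
      simp only [coset, sub_zero]
      rfl

theorem isCl_apply {E M : Type*} [Ring E] [AddCommGroup M] [Module E M] (x m : M)
    (V : Submodule E M) : IsCl E {f : M → M | f x - m ∈ V} := by
  refine IsFC.isCl ⟨fun _ => m, V.comap (LinearMap.proj x : (M → M) →ₗ[E] M),
    ⟨{x}, fun z hz => ?_⟩, ?_⟩
  · simp [hz x (by simp)]
  · ext f
    simp [coset]

/-- Construction of an idempotent endomorphism. -/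
theorem exists_idem [IsArtinian (End S M) M] {V V' U' : Submodule (End S M) M} (hV' : V' ⋖ U')
    {x y : M} (hy : y ∈ U') (f : End S M) (hfx : f x ∈ V) (hfy : f y ∉ V') :
    ∃ h : End S M, h * h = h ∧ h x ∈ V ∧ h y - y ∈ V' := by
  classical
  obtain ⟨r, hr⟩ : ∃ r : End S M, r (f y) - y ∈ V' := by
    have h1 : V' < V' ⊔ Submodule.span (End S M) {f y} := by
      refine lt_of_le_of_ne le_sup_left fun h => hfy ?_
      rw [h]
      exact Submodule.mem_sup_right (Submodule.mem_span_singleton_self _)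
    have h2 : V' ⊔ Submodule.span (End S M) {f y} ≤ U' := by
      refine sup_le hV'.le ?_
      rw [Submodule.span_singleton_le_iff_mem]
      exact U'.smul_mem f hy
    have h3 : y ∈ V' ⊔ Submodule.span (End S M) {f y} := by
      rcases hV'.eq_or_eq h1.le h2 with h | h
      · exact absurd h h1.ne'
      · rw [h]; exact hy
    obtain ⟨v, hv, w, hw, hvw⟩ := Submodule.mem_sup.mp h3
    obtain ⟨r, rfl⟩ := Submodule.mem_span_singleton.mp hw
    refine ⟨r, ?_⟩
    have h4 : v + r (f y) = y := hvw
    have : r (f y) - y = -v := by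
      rw [sub_eq_iff_eq_add, ← sub_eq_neg_add, eq_sub_iff_add_eq, add_comm]
      exact h4
    rw [this]
    exact V'.neg_mem hv
  obtain ⟨t, ⟨⟨⟨e, he⟩, ht2⟩, ht3⟩, ht⟩ := ellis_numakura (E := End S M)
    ({f : M → M | ∃ e : End S M, ⇑e = f} ∩ {g | g x - 0 ∈ V} ∩ {g | g y - y ∈ V'})
    ((isCl_end.inter (isCl_apply x 0 V)).inter (isCl_apply y y V'))
    ⟨r * f, ⟨⟨⟨r * f, rfl⟩, by simpa using V.smul_mem r hfx⟩, hr⟩⟩ (by
      rintro s ⟨⟨⟨a, rfl⟩, hs2⟩, hs3⟩ t ⟨⟨⟨b, rfl⟩, ht2⟩, ht3⟩
      refine ⟨⟨⟨a * b, rfl⟩, ?_⟩, ?_⟩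
      · simp only [Set.mem_ofPred_eq, sub_zero] at *
        exact V.smul_mem a ht2
      · simp only [Set.mem_ofPred_eq] at *
        have h1 := V'.add_mem (V'.smul_mem a ht3) hs3
        have h2 : a • (b y - y) + (a y - y) = a (b y) - y := by
          change a (b y - y) + (a y - y) = a (b y) - y
          rw [map_sub]; abel
        rwa [h2] at h1)
  subst he
  simp only [Set.mem_ofPred_eq, sub_zero] at ht2 ht3
  refine ⟨e, ?_, ht2, ht3⟩
  ext z
  exact congrFun ht z

/-- All nonzero elements of simple subquotients have the same annihilator. -/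
theorem ann_eq [IsArtinian (End S M) M] (hid : ∀ e : End S M, e * e = e → e = 0 ∨ e = 1)
    {V V' U' : Submodule (End S M) M} (hV' : V' ⋖ U')
    {x y : M} (hxV : x ∉ V) (hy : y ∈ U') (hyV : y ∉ V') (f : End S M)
    (hfx : f x ∈ V) : f y ∈ V' := by
  by_contra hfy
  obtain ⟨h, h1, h2, h3⟩ := exists_idem hV' hy f hfx hfy
  rcases hid h h1 with rfl | rfl
  · simp only [LinearMap.zero_apply, zero_sub] at h3
    exact hyV (by simpa using V'.neg_mem h3)
  · exact hxV h2

section local_ring

variable [IsArtinian (End S M) M] (hid : ∀ e : End S M, e * e = e → e = 0 ∨ e = 1)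
  {X : Submodule (End S M) M} (hX : ⊥ ⋖ X) {x₀ : M} (hx₀ : x₀ ∈ X) (hx₀' : x₀ ≠ 0)

include hid hx₀' in
/-- An endomorphism killing `x₀` lowers composition series. -/
theorem maps_of_kill {f : End S M} (hf : f x₀ = 0) {V U : Submodule (End S M) M} (hVU : V ⋖ U)
    {y : M} (hy : y ∈ U) : f y ∈ V := by
  by_cases hyV : y ∈ V
  · exact V.smul_mem f hyV
  · exact ann_eq hid (V := ⊥) hVU (x := x₀) (by simpa using hx₀') hy hyV f (by simpa using hf)

include hid hx₀' in
/-- An endomorphism killing `x₀` is nilpotent. -/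
theorem nilpotent_of_kill (s : CompositionSeries (Submodule (End S M) M)) (hs0 : s.head = ⊥)
    (hs1 : s.last = ⊤) {f : End S M} (hf : f x₀ = 0) : IsNilpotent f := by
  have key : ∀ i : Fin (s.length + 1), ∀ y ∈ s i, (f ^ (i : ℕ)) y = 0 := by
    intro i
    induction i using Fin.induction with
    | zero =>
      intro y hy
      have : s 0 = ⊥ := hs0
      rw [this] at hy
      simpa using hy
    | succ i ih =>
      intro y hy
      have h1 : f y ∈ s i.castSucc := maps_of_kill hid hx₀' hf (s.step i) hy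
      have h2 := ih _ h1
      rw [Fin.val_succ, pow_succ]
      simpa using h2
  refine ⟨s.length, ?_⟩
  ext y
  have := key (Fin.last _) y (by
    have h1 : s (Fin.last s.length) = ⊤ := hs1
    rw [h1]; trivial)
  simpa using this

omit [IsArtinian (End S M) M] in
include hX hx₀ hx₀' in
theorem span_x₀ {y : M} (hy : y ∈ X) : ∃ r : End S M, r x₀ = y := by
  have h1 : (⊥ : Submodule (End S M) M) < Submodule.span (End S M) {x₀} := by
    rw [bot_lt_iff_ne_bot, ne_eq, Submodule.span_singleton_eq_bot]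
    exact hx₀'
  have h2 : Submodule.span (End S M) {x₀} ≤ X := by
    rwa [Submodule.span_singleton_le_iff_mem]
  rcases hX.eq_or_eq h1.le h2 with h | h
  · exact absurd h h1.ne'
  · rw [← h] at hy
    obtain ⟨r, hr⟩ := Submodule.mem_span_singleton.mp hy
    exact ⟨r, hr⟩

include hid hX hx₀ hx₀' in
/-- The endomorphism of the simple module `X` moving `x₀` to `f x₀`. -/
theorem exists_delta (f : End S M) : ∃ δ : End (End S M) X, δ ⟨x₀, hx₀⟩ = ⟨f x₀, X.smul_mem f hx₀⟩ := by
  let a : End S M →ₗ[End S M] X := LinearMap.toSpanSingleton (End S M) X ⟨x₀, hx₀⟩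
  let b : End S M →ₗ[End S M] X :=
    LinearMap.toSpanSingleton (End S M) X ⟨f x₀, X.smul_mem f hx₀⟩
  have ha : Function.Surjective a := by
    rintro ⟨y, hy⟩
    obtain ⟨r, hr⟩ := span_x₀ hX hx₀ hx₀' hy
    exact ⟨r, Subtype.ext hr⟩
  have hab : LinearMap.ker a ≤ LinearMap.ker b := by
    intro g hg
    rw [LinearMap.mem_ker] at hg ⊢
    have h1 : g x₀ = 0 := congrArg Subtype.val hg
    have h2 : g (f x₀) ∈ (⊥ : Submodule (End S M) M) :=
      maps_of_kill hid hx₀' h1 hX (X.smul_mem f hx₀)
    have h3 : g (f x₀) = 0 := by simpa using h2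
    exact Subtype.ext h3
  refine ⟨(LinearMap.ker a).liftQ b hab ∘ₗ (a.quotKerEquivOfSurjective ha).symm.toLinearMap, ?_⟩
  have h1 : (a.quotKerEquivOfSurjective ha).symm ⟨x₀, hx₀⟩ = Submodule.Quotient.mk 1 := by
    rw [LinearEquiv.symm_apply_eq]
    change _ = a 1
    simp [a]
  simp only [LinearMap.coe_comp, LinearEquiv.coe_coe, Function.comp_apply, h1]
  change b 1 = _
  simp [b]

omit [IsArtinian (End S M) M] in
include hX hx₀ hx₀' in
theorem delta_unique {δ δ' : End (End S M) X} (h : δ ⟨x₀, hx₀⟩ = δ' ⟨x₀, hx₀⟩) : δ = δ' := by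
  apply LinearMap.ext
  rintro ⟨y, hy⟩
  obtain ⟨r, rfl⟩ := span_x₀ hX hx₀ hx₀' hy
  have h1 : (⟨r x₀, hy⟩ : X) = r • (⟨x₀, hx₀⟩ : X) := Subtype.ext rfl
  rw [h1, map_smul, map_smul, h]

/-- The ring homomorphism `End M → (End_E X)ᵒᵖ`. -/
noncomputable def psi : End S M →+* (End (End S M) X)ᵐᵒᵖ where
  toFun f := MulOpposite.op (exists_delta hid hX hx₀ hx₀' f).choose
  map_one' := by
    rw [← MulOpposite.op_one]
    congr 1
    apply delta_unique hX hx₀ hx₀'
    rw [(exists_delta hid hX hx₀ hx₀' 1).choose_spec]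
    rfl
  map_mul' f g := by
    rw [← MulOpposite.op_mul]
    congr 1
    apply delta_unique hX hx₀ hx₀'
    rw [(exists_delta hid hX hx₀ hx₀' (f * g)).choose_spec]
    change _ = (exists_delta hid hX hx₀ hx₀' g).choose
      ((exists_delta hid hX hx₀ hx₀' f).choose ⟨x₀, hx₀⟩)
    rw [(exists_delta hid hX hx₀ hx₀' f).choose_spec]
    have h1 : (⟨f x₀, X.smul_mem f hx₀⟩ : X) = f • (⟨x₀, hx₀⟩ : X) := Subtype.ext rfl
    rw [h1, map_smul, (exists_delta hid hX hx₀ hx₀' g).choose_spec]
    rfl
  map_zero' := by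
    rw [← MulOpposite.op_zero]
    congr 1
    apply delta_unique hX hx₀ hx₀'
    rw [(exists_delta hid hX hx₀ hx₀' 0).choose_spec]
    rfl
  map_add' f g := by
    rw [← MulOpposite.op_add]
    congr 1
    apply delta_unique hX hx₀ hx₀'
    rw [(exists_delta hid hX hx₀ hx₀' (f + g)).choose_spec]
    change _ = (exists_delta hid hX hx₀ hx₀' f).choose ⟨x₀, hx₀⟩ +
      (exists_delta hid hX hx₀ hx₀' g).choose ⟨x₀, hx₀⟩
    rw [(exists_delta hid hX hx₀ hx₀' f).choose_spec, (exists_delta hid hX hx₀ hx₀' g).choose_spec]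
    rfl

theorem psi_apply (f : End S M) :
    (psi hid hX hx₀ hx₀' f).unop ⟨x₀, hx₀⟩ = ⟨f x₀, X.smul_mem f hx₀⟩ :=
  (exists_delta hid hX hx₀ hx₀' f).choose_spec

theorem psi_surjective : Function.Surjective (psi hid hX hx₀ hx₀') := by
  intro δ
  obtain ⟨r, hr⟩ := span_x₀ hX hx₀ hx₀' (δ.unop ⟨x₀, hx₀⟩).2
  refine ⟨r, MulOpposite.unop_injective ?_⟩
  apply delta_unique hX hx₀ hx₀'
  rw [psi_apply]
  exact Subtype.ext hr

theorem psi_eq_zero {f : End S M} (hf : psi hid hX hx₀ hx₀' f = 0) : f x₀ = 0 := by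
  have := psi_apply hid hX hx₀ hx₀' f
  rw [hf] at this
  exact (congrArg Subtype.val this).symm

end local_ring

section jac

/-- If `ψ : A → D` is a surjection with nil kernel onto a division ring, then the kernel is the
Jacobson radical. -/
theorem jacobson_eq_ker {A D : Type*} [Ring A] [Ring D] [Nontrivial D] (ψ : A →+* D)
    (hs : Function.Surjective ψ) (hD : ∀ d : D, d ≠ 0 → IsUnit d)
    (hn : ∀ a, ψ a = 0 → IsNilpotent a) : Ring.jacobson A = RingHom.ker ψ := by
  apply le_antisymm
  · have hmax : (RingHom.ker ψ).IsMaximal := by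
      rw [Ideal.isMaximal_iff]
      refine ⟨by simp [RingHom.mem_ker], fun J x hJ hx hxJ => ?_⟩
      rw [RingHom.mem_ker] at hx
      obtain ⟨u, hu⟩ := hD _ hx
      obtain ⟨y, hy⟩ := hs (↑u⁻¹ : D)
      have h1 : 1 - y * x ∈ RingHom.ker ψ := by
        rw [RingHom.mem_ker, map_sub, map_one, map_mul, hy, ← hu, Units.inv_mul, sub_self]
      have h2 := J.add_mem (hJ h1) (J.mul_mem_left y hxJ)
      simpa using h2
    exact Ring.jacobson_le_of_isMaximal _
  · rw [Ring.jacobson_eq_sInf_isMaximal]
    refine le_sInf fun I hI x hx => ?_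
    rw [RingHom.mem_ker] at hx
    have hI' : I.IsMaximal := hI
    by_contra hxI
    have h1 : I ⊔ Ideal.span {x} = ⊤ := by
      apply hI'.out.2
      refine lt_of_le_of_ne le_sup_left fun h => hxI ?_
      rw [h]
      exact Ideal.mem_sup_right (Ideal.mem_span_singleton_self x)
    obtain ⟨a, ha, b, hb, hab⟩ := Submodule.mem_sup.mp ((Ideal.eq_top_iff_one _).mp h1)
    obtain ⟨c, rfl⟩ := Submodule.mem_span_singleton.mp hb
    have h2 : IsNilpotent (c • x) := hn _ (by rw [smul_eq_mul, map_mul, hx, mul_zero])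
    have h3 : IsUnit (1 - c • x) := h2.isUnit_one_sub
    have h4 : 1 - c • x ∈ I := by
      rw [← hab]; simpa using ha
    exact hI'.ne_top (Ideal.eq_top_of_isUnit_mem _ h4 h3)

theorem finite_center_of_ringEquiv {A B : Type*} [Ring A] [Ring B] (e : A ≃+* B)
    (h : Module.Finite (Subring.center A) A) : Module.Finite (Subring.center B) B := by
  obtain ⟨s, hs⟩ := h
  classical
  refine ⟨s.image e, ?_⟩
  rw [eq_top_iff]
  intro b _
  have h1 : e.symm b ∈ Submodule.span (Subring.center A) (s : Set A) := by rw [hs]; trivial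
  have h2 : ∀ a ∈ Submodule.span (Subring.center A) (s : Set A),
      e a ∈ Submodule.span (Subring.center B) ((s.image e : Finset B) : Set B) := by
    intro a ha
    induction ha using Submodule.span_induction with
    | mem x hx => exact Submodule.subset_span (by
        rw [Finset.coe_image]; exact ⟨x, hx, rfl⟩)
    | zero => simp
    | add x y _ _ hx hy => rw [map_add]; exact Submodule.add_mem _ hx hy
    | smul c x _ hx =>
      have hc : e (c : A) ∈ Subring.center B := by
        rw [Subring.mem_center_iff]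
        intro g
        obtain ⟨g, rfl⟩ := e.surjective g
        rw [← map_mul, ← map_mul, Subring.mem_center_iff.mp c.2]
      have h3 : e (c • x) = (⟨e (c : A), hc⟩ : Subring.center B) • e x := by
        change e ((c : A) * x) = e (c : A) * e x
        rw [map_mul]
      rw [h3]
      exact Submodule.smul_mem _ _ hx
  have h3 := h2 _ h1
  rwa [e.apply_symm_apply] at h3

theorem finite_center_op {A : Type*} [Ring A]
    (h : Module.Finite (Subring.center Aᵐᵒᵖ) Aᵐᵒᵖ) : Module.Finite (Subring.center A) A := by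
  obtain ⟨s, hs⟩ := h
  classical
  refine ⟨s.image MulOpposite.unop, ?_⟩
  rw [eq_top_iff]
  intro b _
  have h1 : MulOpposite.op b ∈ Submodule.span (Subring.center Aᵐᵒᵖ) (s : Set Aᵐᵒᵖ) := by
    rw [hs]; trivial
  have h2 : ∀ a ∈ Submodule.span (Subring.center Aᵐᵒᵖ) (s : Set Aᵐᵒᵖ),
      MulOpposite.unop a ∈ Submodule.span (Subring.center A)
        ((s.image MulOpposite.unop : Finset A) : Set A) := by
    intro a ha
    induction ha using Submodule.span_induction with
    | mem x hx => exact Submodule.subset_span (by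
        rw [Finset.coe_image]; exact ⟨x, hx, rfl⟩)
    | zero => simp
    | add x y _ _ hx hy => rw [MulOpposite.unop_add]; exact Submodule.add_mem _ hx hy
    | smul c x _ hx =>
      have hc : MulOpposite.unop (c : Aᵐᵒᵖ) ∈ Subring.center A := by
        rw [Subring.mem_center_iff]
        intro g
        have h4 := Subring.mem_center_iff.mp c.2 (MulOpposite.op g)
        exact (congrArg MulOpposite.unop h4).symm
      have h3 : MulOpposite.unop (c • x) =
          (⟨MulOpposite.unop (c : Aᵐᵒᵖ), hc⟩ : Subring.center A) • MulOpposite.unop x := by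
        change MulOpposite.unop ((c : Aᵐᵒᵖ) * x) = MulOpposite.unop (c : Aᵐᵒᵖ) * MulOpposite.unop x
        rw [MulOpposite.unop_mul]
        exact Subring.mem_center_iff.mp hc _
      rw [h3]
      exact Submodule.smul_mem _ _ hx
  exact h2 _ h1

end jac

end Pool.Agent.H581R3
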