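import Pool.Agent.H581R3.Struct
import Pool.Agent.H581R3.Hull

/-!
The evaluation pairing `Hom_E(M, I) ⊗_S M → I` is injective, for a module `M` of finite endolength;
we prove the consequence that `S`-endomorphisms of `Hom_E(M, I)` preserve its relations.
-/

set_option autoImplicit false

namespace Pool.Agent.H581R3

open Module (End)

section setup

variable {S M T I : Type} [Ring S] [AddCommGroup M] [Module S M] [Ring T]
  [AddCommGroup I] [Module (End S M) I]

/-- `Hom_E(M, I)` as a (left) module over `T`, where `φ : T ≃+* Sᵐᵒᵖ`. -/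
@[reducible] def dualModule (φ : T ≃+* Sᵐᵒᵖ) : Module T (M →ₗ[End S M] I) where
  smul t z :=
    { toFun := fun m => z ((φ t).unop • m)
      map_add' := fun a b => by rw [smul_add, map_add]
      map_smul' := fun e a => by rw [smul_comm, map_smul]; rfl }
  one_smul z := by
    apply LinearMap.ext
    intro m
    change z ((φ 1).unop • m) = z m
    rw [map_one, MulOpposite.unop_one, one_smul]
  mul_smul a b z := by
    apply LinearMap.ext
    intro m
    change z ((φ (a * b)).unop • m) = z ((φ b).unop • (φ a).unop • m)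
    rw [map_mul, MulOpposite.unop_mul, mul_smul]
  smul_zero a := by
    apply LinearMap.ext
    intro m
    rfl
  smul_add a y z := by
    apply LinearMap.ext
    intro m
    rfl
  add_smul a b z := by
    apply LinearMap.ext
    intro m
    change z ((φ (a + b)).unop • m) = z ((φ a).unop • m) + z ((φ b).unop • m)
    rw [map_add, MulOpposite.unop_add, add_smul, map_add]
  zero_smul z := by
    apply LinearMap.ext
    intro m
    change z ((φ 0).unop • m) = 0
    rw [map_zero, MulOpposite.unop_zero, zero_smul, map_zero]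

end setup

section rel

variable {S M : Type} [Ring S] [AddCommGroup M] [Module S M]

/-- The linear condition attached to `ρ : M →₀ S`. -/
noncomputable def Lam (ρ : M →₀ S) : (M → M) →ₗ[End S M] M where
  toFun f := ρ.sum fun x s => s • f x
  map_add' f g := by
    simp only [Pi.add_apply, smul_add]
    exact Finsupp.sum_add
  map_smul' e f := by
    simp only [Pi.smul_apply, RingHom.id_apply, Finsupp.smul_sum]
    refine Finsupp.sum_congr fun x _ => ?_
    rw [smul_comm]

theorem Lam_apply (ρ : M →₀ S) (f : M → M) : Lam ρ f = ρ.sum fun x s => s • f x := rfl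

/-- The relations of `M`. -/
def IsRel (ρ : M →₀ S) : Prop := ρ.sum (fun x s => s • x) = 0

theorem exists_end_of_rel (f : M → M) (h : ∀ ρ : M →₀ S, IsRel ρ → Lam ρ f = 0) :
    ∃ e : End S M, ⇑e = f := by
  classical
  refine ⟨{ toFun := f, map_add' := fun x y => ?_, map_smul' := fun s x => ?_ }, rfl⟩
  · have h1 := h (Finsupp.single (x + y) 1 - Finsupp.single x 1 - Finsupp.single y 1) (by
      unfold IsRel
      rw [Finsupp.sum_sub_index (by intros; rw [sub_smul]),
        Finsupp.sum_sub_index (by intros; rw [sub_smul])]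
      simp)
    rw [Lam_apply] at h1
    rw [Finsupp.sum_sub_index (by intros; rw [sub_smul]),
        Finsupp.sum_sub_index (by intros; rw [sub_smul])] at h1
    simp only [zero_smul, Finsupp.sum_single_index, one_smul] at h1
    rw [sub_sub, sub_eq_zero] at h1
    exact h1
  · have h1 := h (Finsupp.single (s • x) 1 - Finsupp.single x s) (by
      unfold IsRel
      rw [Finsupp.sum_sub_index (by intros; rw [sub_smul])]
      simp)
    rw [Lam_apply] at h1
    rw [Finsupp.sum_sub_index (by intros; rw [sub_smul])] at h1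
    simp only [zero_smul, Finsupp.sum_single_index, one_smul] at h1
    rw [sub_eq_zero] at h1
    exact h1

theorem isCl_rel (ρ : M →₀ S) : IsCl (End S M) {f : M → M | Lam ρ f = 0} := by
  refine IsFC.isCl ⟨0, LinearMap.ker (Lam ρ), ⟨ρ.support, fun z hz => ?_⟩, ?_⟩
  · rw [LinearMap.mem_ker]
    rw [Lam_apply, Finsupp.sum]
    exact Finset.sum_eq_zero fun x hx => by rw [hz x hx, smul_zero]
  · ext f
    simp [coset]

/-- Finitely many relations are enough to detect the vanishing of an element of
`Hom_E(M,I) ⊗ M`. -/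
theorem exists_rels [IsArtinian (End S M) M] {I : Type} [AddCommGroup I] [Module (End S M) I]
    (A : Finset M) (ζ : M → (M →ₗ[End S M] I)) (h0 : ∑ x ∈ A, ζ x x = 0) :
    ∃ R : Finset (M →₀ S), (∀ ρ ∈ R, IsRel ρ) ∧
      ∀ f : M → M, (∀ ρ ∈ R, Lam ρ f = 0) → ∑ x ∈ A, ζ x (f x) = 0 := by
  classical
  let res : (M → M) →ₗ[End S M] (A → M) := LinearMap.funLeft (End S M) M (fun a : A => (a : M))
  let L : Finset (M →₀ S) → Submodule (End S M) (M → M) := fun R =>
    ⨅ ρ ∈ R, LinearMap.ker (Lam ρ)
  have hL : ∀ R f, f ∈ L R ↔ ∀ ρ ∈ R, Lam ρ f = 0 := by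
    intro R f
    simp [L, Submodule.mem_iInf]
  obtain ⟨U, ⟨R, hR, rfl⟩, hmin⟩ := WellFounded.has_min
    (wellFounded_lt (α := Submodule (End S M) (A → M)))
    {U | ∃ R : Finset (M →₀ S), (∀ ρ ∈ R, IsRel ρ) ∧ U = (L R).map res}
    ⟨_, ∅, by simp, rfl⟩
  refine ⟨R, hR, fun f hf => ?_⟩
  obtain ⟨g, hg⟩ := compact_cl (E := End S M)
    ((Set.range fun ρ : {ρ : M →₀ S // IsRel ρ} => {f : M → M | Lam ρ.1 f = 0}) ∪
      {D | D = {g : M → M | ∀ x ∈ A, g x = f x}}) (by
      rintro D (⟨ρ, rfl⟩ | rfl)
      · exact isCl_rel ρ.1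
      · have : {g : M → M | ∀ x ∈ A, g x = f x} =
            ⋂₀ ((fun x : M => {g : M → M | g x - f x ∈ (⊥ : Submodule (End S M) M)}) '' A) := by
          ext g
          simp [sub_eq_zero]
        rw [this]
        apply IsCl.sInter
        rintro _ ⟨x, -, rfl⟩
        exact isCl_apply x (f x) ⊥) (by
      intro F hF
      have hR' : ∃ R' : Finset (M →₀ S), (∀ ρ ∈ R', IsRel ρ) ∧ ∀ D ∈ F,
          D = {g : M → M | ∀ x ∈ A, g x = f x} ∨ ∃ ρ ∈ R', D = {f : M → M | Lam ρ f = 0} := by
        induction F using Finset.induction_on with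
        | empty => exact ⟨∅, by simp, by simp⟩
        | insert D F hD ih =>
          obtain ⟨R', h1, h2⟩ := ih (fun X hX => hF (by
            rw [Finset.coe_insert]; exact Set.mem_insert_of_mem _ hX))
          rcases hF (Finset.mem_coe.mpr (Finset.mem_insert_self D F)) with ⟨ρ, h3⟩ | h3
          · refine ⟨insert ρ.1 R', ?_, ?_⟩
            · intro ρ' hρ'
              rcases Finset.mem_insert.mp hρ' with rfl | h
              · exact ρ.2
              · exact h1 _ h
            · intro X hX
              rcases Finset.mem_insert.mp hX with rfl | hX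
              · exact Or.inr ⟨ρ.1, Finset.mem_insert_self _ _, h3.symm⟩
              · rcases h2 X hX with h | ⟨ρ', h4, h5⟩
                · exact Or.inl h
                · exact Or.inr ⟨ρ', Finset.mem_insert_of_mem h4, h5⟩
          · refine ⟨R', h1, ?_⟩
            intro X hX
            rcases Finset.mem_insert.mp hX with rfl | hX
            · exact Or.inl h3
            · exact h2 X hX
      obtain ⟨R', hR'1, hR'2⟩ := hR'
      have hle : (L (R ∪ R')).map res ≤ (L R).map res := by
        apply Submodule.map_mono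
        intro g hg
        rw [hL] at hg ⊢
        exact fun ρ hρ => hg ρ (Finset.mem_union_left _ hρ)
      have heq : (L (R ∪ R')).map res = (L R).map res := by
        by_contra hne
        refine hmin _ ⟨R ∪ R', ?_, rfl⟩ (lt_of_le_of_ne hle hne)
        intro ρ hρ
        rcases Finset.mem_union.mp hρ with h | h
        · exact hR _ h
        · exact hR'1 _ h
      have h1 : res f ∈ (L (R ∪ R')).map res := by
        rw [heq]
        exact ⟨f, (hL _ _).mpr hf, rfl⟩
      obtain ⟨g, hg, hgf⟩ := h1
      have hg' := (hL _ _).mp hg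
      refine ⟨g, fun D hD => ?_⟩
      rcases hR'2 D hD with rfl | ⟨ρ, hρ, rfl⟩
      · intro x hx
        exact congrFun hgf ⟨x, hx⟩
      · exact hg' ρ (Finset.mem_union_right _ hρ))
  obtain ⟨e, he⟩ := exists_end_of_rel g fun ρ hρ => hg _ (Or.inl ⟨⟨ρ, hρ⟩, rfl⟩)
  have hgA : ∀ x ∈ A, g x = f x := hg {g : M → M | ∀ x ∈ A, g x = f x} (Or.inr rfl)
  have h1 : ∑ x ∈ A, ζ x (f x) = e • ∑ x ∈ A, ζ x x := by
    rw [Finset.smul_sum]
    refine Finset.sum_congr rfl fun x hx => ?_
    rw [← hgA x hx, ← he, ← map_smul]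
    rfl
  rw [h1, h0, smul_zero]

end rel

end Pool.Agent.H581R3
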